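import Mathlib
set_option autoImplicit false
open Finset Real

namespace Pool.Agent.Helper15.Iso

/-- tangent inequality for the cotangent -/
theorem cot_tangent {u v : ℝ} (hu : 0 < u) (hu2 : u < π / 2) (hv : 0 < v) (hv2 : v < π / 2)
    (hne : u ≠ v) : Real.cos v / Real.sin v - (u - v) / Real.sin v ^ 2 < Real.cos u / Real.sin u := by
  have hpi := Real.pi_pos
  have su : 0 < Real.sin u := Real.sin_pos_of_pos_of_lt_pi hu (by linarith)
  have sv : 0 < Real.sin v := Real.sin_pos_of_pos_of_lt_pi hv (by linarith)
  have cv : 0 < Real.cos v := Real.cos_pos_of_mem_Ioo ⟨by linarith, hv2⟩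
  have key : (v - u) * Real.sin u < Real.sin (v - u) * Real.sin v := by
    rcases lt_or_gt_of_ne hne with h | h
    · -- u < v
      obtain ⟨d, hd⟩ : ∃ d : ℝ, d = v - u := ⟨_, rfl⟩
      have hd0 : 0 < d := by linarith
      have hd2 : d < π / 2 := by linarith
      have e1 : u = v - d := by linarith
      have htan := Real.lt_tan hd0 hd2
      have cd : 0 < Real.cos d := Real.cos_pos_of_mem_Ioo ⟨by linarith, hd2⟩
      have sd : 0 < Real.sin d := Real.sin_pos_of_pos_of_lt_pi hd0 (by linarith)
      rw [Real.tan_eq_sin_div_cos, lt_div_iff₀ cd] at htan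
      rw [← hd, e1, Real.sin_sub]
      have h1 : d * Real.cos d * Real.sin v < Real.sin d * Real.sin v := mul_lt_mul_of_pos_right htan sv
      have h2 : 0 < d * (Real.cos v * Real.sin d) := by positivity
      nlinarith
    · -- v < u
      obtain ⟨e, he⟩ : ∃ e : ℝ, e = u - v := ⟨_, rfl⟩
      have he0 : 0 < e := by linarith
      have h1 : Real.sin e < e := Real.sin_lt he0
      have h2 : Real.sin v < Real.sin u :=
        Real.sin_lt_sin_of_lt_of_le_pi_div_two (by linarith) (by linarith) h
      have e1 : v - u = -e := by linarith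
      rw [e1, Real.sin_neg]
      have h3 : Real.sin e * Real.sin v < e * Real.sin u := by
        have h4 : Real.sin e * Real.sin v < e * Real.sin v := mul_lt_mul_of_pos_right h1 sv
        have h5 : e * Real.sin v < e * Real.sin u := mul_lt_mul_of_pos_left h2 he0
        linarith
      linarith
  have h6 : Real.cos u / Real.sin u - (Real.cos v / Real.sin v - (u - v) / Real.sin v ^ 2) =
      (Real.sin (v - u) * Real.sin v - (v - u) * Real.sin u) / (Real.sin u * Real.sin v ^ 2) := by
    rw [Real.sin_sub]
    field_simp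
    ring
  have h7 : 0 < (Real.sin (v - u) * Real.sin v - (v - u) * Real.sin u) / (Real.sin u * Real.sin v ^ 2) := by
    apply div_pos (by linarith) (by positivity)
  linarith

theorem half_cot {t : ℝ} (h0 : 0 < t) (h1 : t < π) :
    (1 + Real.cos t) / Real.sin t = Real.cos (t / 2) / Real.sin (t / 2) := by
  have s2 : 0 < Real.sin (t / 2) := Real.sin_pos_of_pos_of_lt_pi (by linarith) (by linarith)
  have c2 : 0 < Real.cos (t / 2) := Real.cos_pos_of_mem_Ioo ⟨by linarith, by linarith⟩
  have e1 : Real.sin t = 2 * Real.sin (t / 2) * Real.cos (t / 2) := by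
    rw [← Real.sin_two_mul]; congr 1; ring
  have e2 : Real.cos t = 2 * Real.cos (t / 2) ^ 2 - 1 := by
    rw [← Real.cos_two_mul]; congr 1; ring
  rw [e1, e2]
  field_simp
  ring

/-- Job A.  `a` is a strictly increasing sequence with `a (k+m) = a k + π`. -/
theorem planar_ineq (m : ℕ) (hm : 2 ≤ m) (a : ℕ → ℝ) (ha : StrictMono a)
    (hper : ∀ k, a (k + m) = a k + π) :
    (∑ k ∈ range (2 * m), ∑ s ∈ range m, Real.sin (a (k + s) - a k)
      ≤ ∑ k ∈ range (2 * m), (1 + Real.cos (a (k + 1) - a k)) / Real.sin (a (k + 1) - a k)) ∧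
    ((∑ k ∈ range (2 * m), ∑ s ∈ range m, Real.sin (a (k + s) - a k)
      = ∑ k ∈ range (2 * m), (1 + Real.cos (a (k + 1) - a k)) / Real.sin (a (k + 1) - a k)) →
      ∀ k, a (k + 1) - a k = π / m) := by
  have hpi := Real.pi_pos
  have hm0 : (0 : ℝ) < m := by
    have : 0 < m := by omega
    exact_mod_cast this
  have hm2 : (2 : ℝ) ≤ m := by exact_mod_cast hm
  obtain ⟨x, hx⟩ : ∃ x : ℝ, x = π / m := ⟨_, rfl⟩
  have hx0 : 0 < x := by rw [hx]; positivity
  have hxm : m * x = π := by rw [hx]; field_simp
  have hxpi : x ≤ π / 2 := by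
    rw [hx]
    exact div_le_div_of_nonneg_left hpi.le (by norm_num) hm2
  have sx : 0 < Real.sin (x / 2) := Real.sin_pos_of_pos_of_lt_pi (by linarith) (by linarith)
  have hper2 : ∀ k, a (k + 2 * m) = a k + 2 * π := by
    intro k
    have : k + 2 * m = k + m + m := by ring
    rw [this, hper, hper]; ring
  -- sums of differences
  have hsum : ∀ s : ℕ, ∑ k ∈ range (2 * m), (a (k + s) - a k) = s * (2 * π) := by
    intro s
    induction s with
    | zero => simp
    | succ s ih =>
      have h1 : ∑ k ∈ range (2 * m), (a (k + (s + 1)) - a k) =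
          ∑ k ∈ range (2 * m), (a (k + 1 + s) - a (k + s)) + ∑ k ∈ range (2 * m), (a (k + s) - a k) := by
        rw [← Finset.sum_add_distrib]
        refine Finset.sum_congr rfl (fun k _ => ?_)
        have : k + (s + 1) = k + 1 + s := by ring
        rw [this]; ring
      rw [h1, ih, Finset.sum_range_sub (fun k => a (k + s))]
      have h2 : a (2 * m + s) = a (0 + s) + 2 * π := by
        have : 2 * m + s = 0 + s + 2 * m := by ring
        rw [this, hper2]
      rw [h2]
      push_cast
      ring
  -- Jensen for sine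
  have hjen : ∀ s ∈ range m, ∑ k ∈ range (2 * m), Real.sin (a (k + s) - a k) ≤
      2 * m * Real.sin (s * x) := by
    intro s hs
    rw [Finset.mem_range] at hs
    have hconc := strictConcaveOn_sin_Icc.concaveOn
    have h1 := hconc.le_map_sum (t := range (2 * m)) (w := fun _ => 1 / (2 * (m : ℝ)))
      (p := fun k => a (k + s) - a k) (fun _ _ => by positivity) (by
        rw [Finset.sum_const, Finset.card_range, nsmul_eq_mul]
        push_cast
        field_simp) (by
        intro k _
        refine ⟨?_, ?_⟩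
        · have := ha.monotone (Nat.le_add_right k s)
          linarith
        · have h2 := ha.monotone (by omega : k + s ≤ k + m)
          rw [hper] at h2
          linarith)
    simp only [smul_eq_mul] at h1
    rw [← Finset.mul_sum, ← Finset.mul_sum, hsum] at h1
    have e1 : 1 / (2 * (m : ℝ)) * (s * (2 * π)) = s * x := by
      rw [hx]; field_simp
    rw [e1, one_div, inv_mul_le_iff₀ (by positivity)] at h1
    exact h1
  -- sum of sines
  have hsin : (∑ s ∈ range m, Real.sin (s * x)) * Real.sin (x / 2) = Real.cos (x / 2) := by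
    have h1 : ∀ n : ℕ, 2 * ((∑ s ∈ range n, Real.sin (s * x)) * Real.sin (x / 2)) =
        Real.cos (x / 2) - Real.cos (n * x - x / 2) := by
      intro n
      induction n with
      | zero => simp
      | succ n ih =>
        rw [Finset.sum_range_succ, add_mul, mul_add, ih]
        have e1 : Real.cos (((n + 1 : ℕ) : ℝ) * x - x / 2) = Real.cos (n * x + x / 2) := by
          congr 1; push_cast; ring
        rw [e1, Real.cos_add, Real.cos_sub]
        ring
    have h2 := h1 m
    rw [hxm] at h2
    have e2 : Real.cos (π - x / 2) = - Real.cos (x / 2) := Real.cos_pi_sub _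
    rw [e2] at h2
    linarith
  have hsin' : ∑ s ∈ range m, Real.sin (s * x) = Real.cos (x / 2) / Real.sin (x / 2) := by
    rw [eq_div_iff sx.ne']
    exact hsin
  have hL : ∑ k ∈ range (2 * m), ∑ s ∈ range m, Real.sin (a (k + s) - a k) ≤
      2 * m * (Real.cos (x / 2) / Real.sin (x / 2)) := by
    rw [Finset.sum_comm, ← hsin', Finset.mul_sum]
    exact Finset.sum_le_sum hjen
  -- angles
  have hθ0 : ∀ k, 0 < a (k + 1) - a k := fun k => by linarith [ha (Nat.lt_succ_self k)]
  have hθ1 : ∀ k, a (k + 1) - a k < π := by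
    intro k
    have := ha (by omega : k + 1 < k + m)
    rw [hper] at this
    linarith
  have hterm : ∀ k, (1 + Real.cos (a (k + 1) - a k)) / Real.sin (a (k + 1) - a k) =
      Real.cos ((a (k + 1) - a k) / 2) / Real.sin ((a (k + 1) - a k) / 2) := fun k =>
    half_cot (hθ0 k) (hθ1 k)
  have htl : ∀ k, a (k + 1) - a k ≠ x → Real.cos (x / 2) / Real.sin (x / 2) -
      ((a (k + 1) - a k) / 2 - x / 2) / Real.sin (x / 2) ^ 2 <
      Real.cos ((a (k + 1) - a k) / 2) / Real.sin ((a (k + 1) - a k) / 2) := by
    intro k hk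
    apply cot_tangent (by linarith [hθ0 k]) (by linarith [hθ1 k]) (by linarith) (by linarith)
    intro h
    exact hk (by linarith)
  have htl' : ∀ k, Real.cos (x / 2) / Real.sin (x / 2) -
      ((a (k + 1) - a k) / 2 - x / 2) / Real.sin (x / 2) ^ 2 ≤
      Real.cos ((a (k + 1) - a k) / 2) / Real.sin ((a (k + 1) - a k) / 2) := by
    intro k
    by_cases hk : a (k + 1) - a k = x
    · rw [hk]; simp
    · exact (htl k hk).le
  have htsum : ∑ k ∈ range (2 * m), (Real.cos (x / 2) / Real.sin (x / 2) -
      ((a (k + 1) - a k) / 2 - x / 2) / Real.sin (x / 2) ^ 2) =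
      2 * m * (Real.cos (x / 2) / Real.sin (x / 2)) := by
    have hs2 : ∑ k ∈ range (2 * m), ((a (k + 1) - a k) / 2 - x / 2) = 0 := by
      rw [Finset.sum_sub_distrib, ← Finset.sum_div, hsum 1, Finset.sum_const, Finset.card_range,
        nsmul_eq_mul]
      push_cast
      have : 2 * m * (x / 2) = m * x := by ring
      rw [this, hxm]; ring
    have hs3 : ∑ k ∈ range (2 * m), ((a (k + 1) - a k) / 2 - x / 2) / Real.sin (x / 2) ^ 2 = 0 := by
      rw [← Finset.sum_div, hs2, zero_div]
    rw [Finset.sum_sub_distrib, hs3, Finset.sum_const, Finset.card_range, nsmul_eq_mul, sub_zero]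
    push_cast
    ring
  have hR : 2 * m * (Real.cos (x / 2) / Real.sin (x / 2)) ≤
      ∑ k ∈ range (2 * m), (1 + Real.cos (a (k + 1) - a k)) / Real.sin (a (k + 1) - a k) := by
    rw [← htsum]
    apply Finset.sum_le_sum
    intro k _
    rw [hterm]
    exact htl' k
  refine ⟨hL.trans hR, ?_⟩
  intro heq
  have hReq : ∑ k ∈ range (2 * m), (1 + Real.cos (a (k + 1) - a k)) / Real.sin (a (k + 1) - a k) =
      2 * m * (Real.cos (x / 2) / Real.sin (x / 2)) := le_antisymm (heq ▸ hL) hR
  have hall : ∀ k < 2 * m, a (k + 1) - a k = x := by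
    intro k hk
    by_contra hne
    have hlt : ∑ k ∈ range (2 * m), (Real.cos (x / 2) / Real.sin (x / 2) -
      ((a (k + 1) - a k) / 2 - x / 2) / Real.sin (x / 2) ^ 2) <
      ∑ k ∈ range (2 * m), (1 + Real.cos (a (k + 1) - a k)) / Real.sin (a (k + 1) - a k) := by
      apply Finset.sum_lt_sum
      · intro j _
        rw [hterm]
        exact htl' j
      · refine ⟨k, Finset.mem_range.2 hk, ?_⟩
        rw [hterm]
        exact htl k hne
    rw [htsum, hReq] at hlt
    exact lt_irrefl _ hlt
  intro k
  rw [← hx]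
  induction k using Nat.strong_induction_on with
  | _ k ih =>
    rcases Nat.lt_or_ge k (2 * m) with h | h
    · exact hall k h
    · have h1 := ih (k - m) (by omega)
      have h2 := hper (k - m)
      have h3 := hper (k - m + 1)
      have e1 : k - m + m = k := by omega
      have e2 : k - m + 1 + m = k + 1 := by omega
      rw [e1] at h2
      rw [e2] at h3
      rw [h2, h3]
      linarith

end Pool.Agent.Helper15.Iso
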