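import Mathlib
set_option autoImplicit false
open Module Finset
open scoped Classical

namespace Pool.Agent.Helper15.Iso
variable {V : Type*} [NormedAddCommGroup V] [InnerProductSpace ℝ V]
variable {ι : Type*}

/-- `x` lies on none of the hyperplanes `N i ^⊥`. -/
def Gen (N : ι → V) (x : V) : Prop := ∀ i, inner ℝ (N i) x ≠ 0

/-- closed chamber of the generic point `x`. -/
def Cone (N : ι → V) (x : V) : Set V := {y | ∀ i, 0 ≤ inner ℝ (N i) x * inner ℝ (N i) y}

/-- unit normals, pairwise non-parallel -/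
structure Arr (N : ι → V) : Prop where
  unit : ∀ i, ‖N i‖ = 1
  par : ∀ i j, i ≠ j → N i ≠ N j ∧ N i ≠ - N j

/-- `R` is the set of unit generators of the extreme rays of a simplicial chamber. -/
structure IsCh (N : ι → V) (R : Finset V) : Prop where
  unit : ∀ p ∈ R, ‖p‖ = 1
  li : LinearIndependent ℝ (fun p : R => (p : V))
  card : R.card = finrank ℝ V
  sgn : ∀ i, (∀ p ∈ R, 0 ≤ inner ℝ (N i) p) ∨ (∀ p ∈ R, inner ℝ (N i) p ≤ 0)
  facet : ∀ p ∈ R, ∃ i, ∀ q ∈ R, q ≠ p → inner ℝ (N i) q = 0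

/-- an interior point of the cone spanned by `R` -/
noncomputable def ctr (R : Finset V) : V := ∑ p ∈ R, p

/-- every chamber is simplicial -/
def Simp (N : ι → V) : Prop :=
  ∀ x, Gen N x → ∃ R, IsCh N R ∧ ∀ i, 0 < inner ℝ (N i) x * inner ℝ (N i) (ctr R)

/-- inner unit normal of the facet of `cone R` opposite to `p`. -/
noncomputable def nu (R : Finset V) (p : V) : V :=
  if h : ∃ n : V, ‖n‖ = 1 ∧ (∀ q ∈ R, q ≠ p → inner ℝ n q = 0) ∧ 0 < inner ℝ n p
  then h.choose else 0

/-- sum of the unit normals pointing to the side of `R`. -/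
noncomputable def vv [Fintype ι] (N : ι → V) (R : Finset V) : V :=
  ∑ i, ((SignType.sign (inner ℝ (N i) (ctr R)) : ℝ)) • N i

end Pool.Agent.Helper15.Iso
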