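import Mathlib
import Pool.Agent.Helper15.Iso.Defs
set_option autoImplicit false
open Module Finset
open scoped Classical

namespace Pool.Agent.Helper15.Iso
variable {V : Type*} [NormedAddCommGroup V] [InnerProductSpace ℝ V]
variable {ι : Type*}

theorem aux_ext [FiniteDimensional ℝ V] {R : Finset V}
    (hli : LinearIndependent ℝ (fun p : R => (p : V))) (hcard : R.card = finrank ℝ V) {x y : V}
    (h : ∀ q ∈ R, inner ℝ x q = inner ℝ y q) : x = y := by
  have hspan : Submodule.span ℝ (Set.range (fun p : R => (p : V))) = ⊤ :=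
    hli.span_eq_top_of_card_eq_finrank' (by simpa using hcard)
  have hz : ∀ z ∈ Submodule.span ℝ (Set.range (fun p : R => (p : V))), inner ℝ (x - y) z = 0 := by
    intro z hz
    induction hz using Submodule.span_induction with
    | mem z hz =>
      obtain ⟨q, rfl⟩ := hz
      rw [inner_sub_left, h q q.2, sub_self]
    | zero => simp
    | add u v _ _ hu hv => rw [inner_add_right, hu, hv, add_zero]
    | smul c u _ hu => rw [inner_smul_right, hu, mul_zero]
  have h1 := hz (x - y) (by rw [hspan]; trivial)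
  rw [inner_self_eq_zero] at h1
  exact sub_eq_zero.mp h1

theorem aux_exists [FiniteDimensional ℝ V] {R : Finset V}
    (hli : LinearIndependent ℝ (fun p : R => (p : V))) {p : V} (hp : p ∈ R) :
    ∃ n : V, ‖n‖ = 1 ∧ (∀ q ∈ R, q ≠ p → inner ℝ n q = 0) ∧ 0 < inner ℝ n p := by
  set W : Submodule ℝ V := Submodule.span ℝ ((fun p : R => (p : V)) '' (Set.univ \ {⟨p, hp⟩})) with hW
  have hpW : p ∉ W := by
    have := (linearIndependent_iff_notMem_span.mp hli) ⟨p, hp⟩
    exact this
  set n0 : V := p - W.starProjection p with hn0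
  have hn0W : ∀ w ∈ W, inner ℝ n0 w = 0 := by
    intro w hw
    exact W.starProjection_inner_eq_zero p w hw
  have hn0ne : n0 ≠ 0 := by
    intro hc
    apply hpW
    have h1 : p = W.starProjection p := by rw [hn0] at hc; exact sub_eq_zero.mp hc
    rw [h1]
    exact W.starProjection_apply_mem p
  have hn0p : inner ℝ n0 p = ‖n0‖ ^ 2 := by
    have h1 : inner ℝ n0 (W.starProjection p) = 0 := hn0W _ (W.starProjection_apply_mem p)
    have h2 : p = n0 + W.starProjection p := by rw [hn0]; abel
    calc inner ℝ n0 p = inner ℝ n0 (n0 + W.starProjection p) := by rw [← h2]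
      _ = ‖n0‖ ^ 2 := by rw [inner_add_right, h1, add_zero, real_inner_self_eq_norm_sq]
  have hpos : 0 < ‖n0‖ := norm_pos_iff.mpr hn0ne
  refine ⟨(‖n0‖)⁻¹ • n0, ?_, ?_, ?_⟩
  · rw [norm_smul, norm_inv, norm_norm, inv_mul_cancel₀ hpos.ne']
  · intro q hq hqp
    rw [real_inner_smul_left, hn0W q, mul_zero]
    apply Submodule.subset_span
    exact ⟨⟨q, hq⟩, ⟨trivial, fun hc => hqp (by simpa using congrArg Subtype.val hc)⟩, rfl⟩
  · rw [real_inner_smul_left, hn0p]
    positivity

theorem nu_spec [FiniteDimensional ℝ V] {R : Finset V}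
    (hli : LinearIndependent ℝ (fun p : R => (p : V))) (hcard : R.card = finrank ℝ V) {p : V}
    (hp : p ∈ R) :
    ‖nu R p‖ = 1 ∧ (∀ q ∈ R, q ≠ p → inner ℝ (nu R p) q = 0) ∧ 0 < inner ℝ (nu R p) p := by
  have h := aux_exists hli hp
  have h2 : nu R p = h.choose := by
    unfold nu
    rw [dif_pos h]
  rw [h2]
  exact h.choose_spec

theorem nu_unique [FiniteDimensional ℝ V] {R : Finset V}
    (hli : LinearIndependent ℝ (fun p : R => (p : V))) (hcard : R.card = finrank ℝ V) {p : V}
    (hp : p ∈ R) {n : V} (hn : ‖n‖ = 1) (h0 : ∀ q ∈ R, q ≠ p → inner ℝ n q = 0)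
    (h1 : 0 < inner ℝ n p) : n = nu R p := by
  obtain ⟨g1, g2, g3⟩ := nu_spec hli hcard hp
  set c : ℝ := inner ℝ n p / inner ℝ (nu R p) p with hc
  have hcpos : 0 < c := div_pos h1 g3
  have h2 : n = c • nu R p := by
    apply aux_ext hli hcard
    intro q hq
    rw [real_inner_smul_left]
    by_cases hqp : q = p
    · rw [hqp, hc, div_mul_cancel₀ _ g3.ne']
    · rw [h0 q hq hqp, g2 q hq hqp, mul_zero]
  have h3 : c = 1 := by
    have := congrArg norm h2
    rw [norm_smul, hn, g1, mul_one, Real.norm_of_nonneg hcpos.le] at this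
    exact this.symm
  rw [h2, h3, one_smul]

/-- expansion in the dual basis -/
theorem nu_expand [FiniteDimensional ℝ V] {R : Finset V}
    (hli : LinearIndependent ℝ (fun p : R => (p : V))) (hcard : R.card = finrank ℝ V) (x : V) :
    x = ∑ p ∈ R, (inner ℝ x p / inner ℝ (nu R p) p) • nu R p := by
  apply aux_ext hli hcard
  intro q hq
  rw [sum_inner]
  rw [Finset.sum_eq_single q]
  · rw [real_inner_smul_left, div_mul_cancel₀ _ (nu_spec hli hcard hq).2.2.ne']
  · intro p hp hpq
    rw [real_inner_smul_left, (nu_spec hli hcard hp).2.1 q hq (Ne.symm hpq), mul_zero]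
  · intro h; exact absurd hq h

/-- expansion in the basis -/
theorem basis_expand [FiniteDimensional ℝ V] {R : Finset V}
    (hli : LinearIndependent ℝ (fun p : R => (p : V))) (hcard : R.card = finrank ℝ V) (x : V) :
    x = ∑ p ∈ R, (inner ℝ (nu R p) x / inner ℝ (nu R p) p) • p := by
  have hspan : Submodule.span ℝ (Set.range (fun p : R => (p : V))) = ⊤ :=
    hli.span_eq_top_of_card_eq_finrank' (by simpa using hcard)
  have hx : x ∈ Submodule.span ℝ (Set.range (fun p : R => (p : V))) := by rw [hspan]; trivial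
  induction hx using Submodule.span_induction with
  | mem z hz =>
    obtain ⟨q, rfl⟩ := hz
    rw [Finset.sum_eq_single (q : V)]
    · rw [div_self (nu_spec hli hcard q.2).2.2.ne', one_smul]
    · intro p hp hpq
      rw [(nu_spec hli hcard hp).2.1 q q.2 (Ne.symm hpq), zero_div, zero_smul]
    · intro h; exact absurd q.2 h
  | zero => simp
  | add u v _ _ hu hv =>
    have h1 : ∀ p ∈ R, (inner ℝ (nu R p) (u + v) / inner ℝ (nu R p) p) • p =
        (inner ℝ (nu R p) u / inner ℝ (nu R p) p) • p + (inner ℝ (nu R p) v / inner ℝ (nu R p) p) • p := by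
      intro p hp
      rw [inner_add_right, add_div, add_smul]
    rw [Finset.sum_congr rfl h1, Finset.sum_add_distrib, ← hu, ← hv]
  | smul c u _ hu =>
    have h1 : ∀ p ∈ R, (inner ℝ (nu R p) (c • u) / inner ℝ (nu R p) p) • p =
        c • ((inner ℝ (nu R p) u / inner ℝ (nu R p) p) • p) := by
      intro p hp
      rw [real_inner_smul_right, mul_div_assoc, mul_smul]
    rw [Finset.sum_congr rfl h1, ← Finset.smul_sum, ← hu]

theorem nu_image [FiniteDimensional ℝ V] {R : Finset V}
    (hli : LinearIndependent ℝ (fun p : R => (p : V))) (hcard : R.card = finrank ℝ V) {p : V}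
    (hp : p ∈ R) (g : V ≃ₗᵢ[ℝ] V) : nu (R.image g) (g p) = g (nu R p) := by
  obtain ⟨g1, g2, g3⟩ := nu_spec hli hcard hp
  have hcard' : (R.image g).card = finrank ℝ V := by
    rw [Finset.card_image_of_injective _ g.injective, hcard]
  have hli' : LinearIndependent ℝ (fun p : (R.image g) => (p : V)) := by
    have h1 : LinearIndependent ℝ (fun p : R => g (p : V)) :=
      hli.map' g.toLinearEquiv.toLinearMap (LinearMap.ker_eq_bot.mpr g.injective)
    have h2 := h1.linearIndepOn_id
    have h3 : Set.range (fun p : R => g (p : V)) = ((R.image g : Finset V) : Set V) := by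
      ext y
      simp
    rw [h3] at h2
    exact h2
  refine (nu_unique hli' hcard' (Finset.mem_image_of_mem g hp) ?_ ?_ ?_).symm
  · rw [LinearIsometryEquiv.norm_map, g1]
  · intro q hq hqp
    rw [Finset.mem_image] at hq
    obtain ⟨r, hr, rfl⟩ := hq
    rw [LinearIsometryEquiv.inner_map_map]
    exact g2 r hr (fun hc => hqp (by rw [hc]))
  · rw [LinearIsometryEquiv.inner_map_map]; exact g3

end Pool.Agent.Helper15.Iso
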