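import Mathlib
set_option autoImplicit false
open Matrix

namespace Pool.Agent.Helper15.Iso

/-- the key identity in solution form -/
theorem key_solve {m : Type*} [Fintype m] [DecidableEq m] (A : Matrix m m ℝ) (b : m → ℝ)
    (hsym : A.IsSymm) (hA : A.det ≠ 0)
    (hP : (fromBlocks A (replicateCol Unit b) (replicateRow Unit b) (1 : Matrix Unit Unit ℝ)).det ≠ 0) :
    ∃ y : m ⊕ Unit → ℝ, (fromBlocks A (replicateCol Unit b) (replicateRow Unit b) (1 : Matrix Unit Unit ℝ)) *ᵥ y = 1 ∧
      (fromBlocks A (replicateCol Unit (fun _ => (1:ℝ))) (replicateRow Unit b) (1 : Matrix Unit Unit ℝ)).det ^ 2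
        = A.det * (fromBlocks A (replicateCol Unit b) (replicateRow Unit b) (1 : Matrix Unit Unit ℝ)).det *
          (∑ a, y a - (1 : m → ℝ) ⬝ᵥ (A⁻¹ *ᵥ 1)) := by
  have hu : IsUnit A.det := isUnit_iff_ne_zero.mpr hA
  have : Invertible A := Matrix.invertibleOfIsUnitDet A hu
  set s : ℝ := b ⬝ᵥ (A⁻¹ *ᵥ 1) with hs
  set σ : ℝ := 1 - b ⬝ᵥ (A⁻¹ *ᵥ b) with hσ
  have h1 : (fromBlocks A (replicateCol Unit b) (replicateRow Unit b) (1 : Matrix Unit Unit ℝ)).det
      = A.det * σ := by
    rw [Matrix.det_fromBlocks₁₁]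
    congr 1
    rw [Matrix.det_unique]
    simp only [Matrix.invOf_eq_nonsing_inv, Matrix.sub_apply, Matrix.one_apply_eq]
    rw [hσ]
    congr 1
    rw [Matrix.mul_assoc, Matrix.mul_apply]
    simp only [Matrix.replicateRow_apply, dotProduct, Matrix.mulVec]
    apply Finset.sum_congr rfl
    intro i _
    congr 1
  have h2 : (fromBlocks A (replicateCol Unit (fun _ => (1:ℝ))) (replicateRow Unit b) (1 : Matrix Unit Unit ℝ)).det
      = A.det * (1 - s) := by
    rw [Matrix.det_fromBlocks₁₁]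
    congr 1
    rw [Matrix.det_unique]
    simp only [Matrix.invOf_eq_nonsing_inv, Matrix.sub_apply, Matrix.one_apply_eq]
    rw [hs]
    congr 1
    rw [Matrix.mul_assoc, Matrix.mul_apply]
    simp only [Matrix.replicateRow_apply, dotProduct, Matrix.mulVec]
    apply Finset.sum_congr rfl
    intro i _
    congr 1
  have hσ0 : σ ≠ 0 := by
    intro h
    apply hP
    rw [h1, h, mul_zero]
  set t : ℝ := (1 - s) / σ with ht
  have htσ : t * σ = 1 - s := by rw [ht]; field_simp
  have hAinv : A * A⁻¹ = 1 := Matrix.mul_nonsing_inv A hu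
  refine ⟨Sum.elim (A⁻¹ *ᵥ (1 - t • b)) (fun _ => t), ?_, ?_⟩
  · rw [Matrix.fromBlocks_mulVec]
    ext a
    rcases a with i | u
    · simp only [Sum.elim_inl, Pi.add_apply, Pi.one_apply]
      have e1 : (Sum.elim (A⁻¹ *ᵥ (1 - t • b)) (fun _ : Unit => t)) ∘ Sum.inl = A⁻¹ *ᵥ (1 - t • b) := by
        ext; rfl
      have e2 : (Sum.elim (A⁻¹ *ᵥ (1 - t • b)) (fun _ : Unit => t)) ∘ Sum.inr = fun _ : Unit => t := by
        ext; rfl
      rw [e1, e2, Matrix.mulVec_mulVec, hAinv, Matrix.one_mulVec]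
      simp [Matrix.mulVec, dotProduct]
      ring
    · simp only [Sum.elim_inr, Pi.add_apply, Pi.one_apply]
      have e1 : (Sum.elim (A⁻¹ *ᵥ (1 - t • b)) (fun _ : Unit => t)) ∘ Sum.inl = A⁻¹ *ᵥ (1 - t • b) := by
        ext; rfl
      have e2 : (Sum.elim (A⁻¹ *ᵥ (1 - t • b)) (fun _ : Unit => t)) ∘ Sum.inr = fun _ : Unit => t := by
        ext; rfl
      rw [e1, e2]
      have e3 : (replicateRow Unit b *ᵥ (A⁻¹ *ᵥ (1 - t • b))) u = s - t * (b ⬝ᵥ (A⁻¹ *ᵥ b)) := by
        have : (replicateRow Unit b *ᵥ (A⁻¹ *ᵥ (1 - t • b))) u = b ⬝ᵥ (A⁻¹ *ᵥ (1 - t • b)) := rfl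
        rw [this, Matrix.mulVec_sub, dotProduct_sub, Matrix.mulVec_smul, dotProduct_smul, hs, smul_eq_mul]
      rw [e3, Matrix.one_mulVec]
      have : b ⬝ᵥ (A⁻¹ *ᵥ b) = 1 - σ := by rw [hσ]; ring
      rw [this]
      linarith
  · rw [h1, h2]
    have hsum : ∑ a, (Sum.elim (A⁻¹ *ᵥ (1 - t • b)) (fun _ : Unit => t)) a
        = (1 : m → ℝ) ⬝ᵥ (A⁻¹ *ᵥ 1) - t * s + t := by
      rw [Fintype.sum_sum_type]
      simp only [Sum.elim_inl, Sum.elim_inr, Finset.univ_unique, Finset.sum_singleton]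
      have e4 : ∑ x, (A⁻¹ *ᵥ (1 - t • b)) x = (1 : m → ℝ) ⬝ᵥ (A⁻¹ *ᵥ (1 - t • b)) := by
        rw [one_dotProduct]
      rw [e4, Matrix.mulVec_sub, dotProduct_sub, Matrix.mulVec_smul, dotProduct_smul, smul_eq_mul]
      have e5 : (1 : m → ℝ) ⬝ᵥ (A⁻¹ *ᵥ b) = s := by
        have hsymI : (A⁻¹)ᵀ = A⁻¹ := by
          rw [Matrix.transpose_nonsing_inv, hsym.eq]
        rw [hs, Matrix.dotProduct_mulVec, dotProduct_comm, ← Matrix.mulVec_transpose, hsymI]
      rw [e5]
    rw [hsum]
    have : (1 - s) = t * σ := htσ.symm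
    have h3 : (1 : m → ℝ) ⬝ᵥ (A⁻¹ *ᵥ 1) - t * s + t - (1 : m → ℝ) ⬝ᵥ (A⁻¹ *ᵥ 1) = t * (1 - s) := by ring
    rw [h3, this]
    ring

/-- Squared version for nonsingular matrices. -/
theorem bordered_sq {m : Type*} [Fintype m] [DecidableEq m] (G : Matrix m m ℝ) (c c' : m → ℝ)
    (hG : G.IsSymm) (hdet : G.det ≠ 0)
    (hP : (fromBlocks G (replicateCol Unit c) (replicateRow Unit c) (1 : Matrix Unit Unit ℝ)).det ≠ 0)
    (hP' : (fromBlocks G (replicateCol Unit c') (replicateRow Unit c') (1 : Matrix Unit Unit ℝ)).det ≠ 0)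
    (e : m ⊕ Unit ≃ m ⊕ Unit)
    (he : ∀ a b, fromBlocks G (replicateCol Unit c') (replicateRow Unit c') (1 : Matrix Unit Unit ℝ) (e a) (e b)
      = fromBlocks G (replicateCol Unit c) (replicateRow Unit c) (1 : Matrix Unit Unit ℝ) a b) :
    (fromBlocks G (replicateCol Unit (fun _ => (1:ℝ))) (replicateRow Unit c) (1 : Matrix Unit Unit ℝ)).det ^ 2
      = (fromBlocks G (replicateCol Unit (fun _ => (1:ℝ))) (replicateRow Unit c') (1 : Matrix Unit Unit ℝ)).det ^ 2 := by
  obtain ⟨y, hy, hX⟩ := key_solve G c hG hdet hP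
  obtain ⟨y', hy', hX'⟩ := key_solve G c' hG hdet hP'
  set P := fromBlocks G (replicateCol Unit c) (replicateRow Unit c) (1 : Matrix Unit Unit ℝ) with hPdef
  set P' := fromBlocks G (replicateCol Unit c') (replicateRow Unit c') (1 : Matrix Unit Unit ℝ) with hP'def
  have hsub : P'.submatrix e e = P := by
    ext a b
    exact he a b
  have hdetEq : P'.det = P.det := by
    rw [← hsub, Matrix.det_submatrix_equiv_self]
  have hsolve : P *ᵥ (y' ∘ e) = 1 := by
    ext a
    have h1 : (P' *ᵥ y') (e a) = 1 := by rw [hy']; rfl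
    have h2 : (P *ᵥ (y' ∘ e)) a = (P' *ᵥ y') (e a) := by
      simp only [Matrix.mulVec, dotProduct]
      rw [← e.sum_comp (fun b => P' (e a) b * y' b)]
      apply Finset.sum_congr rfl
      intro b _
      rw [he a b]
      rfl
    rw [h2, h1]; rfl
  have hinj : Function.Injective P.mulVec := by
    rw [Matrix.mulVec_injective_iff_isUnit, Matrix.isUnit_iff_isUnit_det]
    exact isUnit_iff_ne_zero.mpr hP
  have hyy : y' ∘ e = y := hinj (by rw [hsolve, hy])
  have hsumeq : ∑ a, y a = ∑ a, y' a := by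
    rw [← hyy]
    exact e.sum_comp y'
  rw [hX, hX', hdetEq, hsumeq]

/-- Job B.  Two positive definite matrices `P = [[G, c], [cᵀ, 1]]`, `P' = [[G, c'], [c'ᵀ, 1]]`
with unit diagonal which are permutation-similar (by an arbitrary permutation `e`). Then the
bordered determinants `det [[G, 1], [cᵀ, 1]]` and `det [[G, 1], [c'ᵀ, 1]]` agree. -/
theorem bordered_eq {m : Type*} [Fintype m] [DecidableEq m] (G : Matrix m m ℝ) (c c' : m → ℝ)
    (hG : G.IsSymm) (hdiag : ∀ i, G i i = 1)
    (hP : (fromBlocks G (replicateCol Unit c) (replicateRow Unit c) 1).PosDef)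
    (hP' : (fromBlocks G (replicateCol Unit c') (replicateRow Unit c') 1).PosDef)
    (e : m ⊕ Unit ≃ m ⊕ Unit)
    (he : ∀ a b, fromBlocks G (replicateCol Unit c') (replicateRow Unit c') (1 : Matrix Unit Unit ℝ) (e a) (e b)
      = fromBlocks G (replicateCol Unit c) (replicateRow Unit c) (1 : Matrix Unit Unit ℝ) a b) :
    (fromBlocks G (replicateCol Unit (fun _ => (1:ℝ))) (replicateRow Unit c) (1 : Matrix Unit Unit ℝ)).det
      = (fromBlocks G (replicateCol Unit (fun _ => (1:ℝ))) (replicateRow Unit c') (1 : Matrix Unit Unit ℝ)).det := by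
  classical
  -- polynomial matrices
  let Q : (m → ℝ) → Matrix (m ⊕ Unit) (m ⊕ Unit) (Polynomial ℝ) := fun d =>
    fromBlocks ((Polynomial.X : Polynomial ℝ) • G.map Polynomial.C + (1 - Polynomial.X : Polynomial ℝ) • 1)
      (replicateCol Unit (fun _ => 1)) (replicateRow Unit (fun i => Polynomial.X * Polynomial.C (d i))) 1
  have heval : ∀ (d : m → ℝ) (μ : ℝ), (Q d).det.eval μ =
      (fromBlocks (μ • G + (1 - μ) • (1 : Matrix m m ℝ)) (replicateCol Unit (fun _ => (1:ℝ)))
        (replicateRow Unit (μ • d)) (1 : Matrix Unit Unit ℝ)).det := by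
    intro d μ
    rw [← Polynomial.coe_evalRingHom, RingHom.map_det]
    congr 1
    ext a b
    rcases a with i | u <;> rcases b with j | v
    · simp only [RingHom.mapMatrix_apply, Matrix.map_apply, Q, fromBlocks_apply₁₁, Matrix.add_apply, Matrix.smul_apply]
      by_cases hij : i = j
      · subst hij; simp; ring
      · simp [Matrix.one_apply_ne hij]; ring
    · simp [Q]
    · simp [Q]; ring
    · simp [Q]
  have hmain : ∀ μ : ℝ, μ ∈ Set.Ioo (0:ℝ) 1 → (Q c).det.eval μ ^ 2 = (Q c').det.eval μ ^ 2 := by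
    intro μ hμ
    rw [heval, heval]
    have hPm : ∀ d : m → ℝ, (fromBlocks G (replicateCol Unit d) (replicateRow Unit d) (1 : Matrix Unit Unit ℝ)).PosDef →
        (fromBlocks (μ • G + (1 - μ) • (1 : Matrix m m ℝ)) (replicateCol Unit (μ • d)) (replicateRow Unit (μ • d))
          (1 : Matrix Unit Unit ℝ)).PosDef := by
      intro d hd
      have h1 : (μ • fromBlocks G (replicateCol Unit d) (replicateRow Unit d) (1 : Matrix Unit Unit ℝ)
          + (1 - μ) • (1 : Matrix (m ⊕ Unit) (m ⊕ Unit) ℝ)).PosDef :=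
        (hd.smul hμ.1).add (Matrix.PosDef.one.smul (by linarith [hμ.2]))
      convert h1 using 1
      ext a b
      rcases a with i | u <;> rcases b with j | v
      · simp only [fromBlocks_apply₁₁, Matrix.add_apply, Matrix.smul_apply]
        by_cases hij : i = j
        · subst hij; simp
        · have : (Sum.inl i : m ⊕ Unit) ≠ Sum.inl j := fun h => hij (Sum.inl.inj h)
          simp [Matrix.one_apply_ne hij, Matrix.one_apply_ne this]
      · simp
      · simp
      · simp
    have hPμ := hPm c hP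
    have hPμ' := hPm c' hP'
    have hsym : (μ • G + (1 - μ) • (1 : Matrix m m ℝ)).IsSymm := by
      unfold Matrix.IsSymm
      rw [Matrix.transpose_add, Matrix.transpose_smul, Matrix.transpose_smul, hG.eq, Matrix.transpose_one]
    have hGdet : (μ • G + (1 - μ) • (1 : Matrix m m ℝ)).det ≠ 0 := by
      have hpd : (μ • G + (1 - μ) • (1 : Matrix m m ℝ)).PosDef := by
        have := hPμ.submatrix (e := (Sum.inl : m → m ⊕ Unit)) Sum.inl_injective
        have h2 : (μ • G + (1 - μ) • (1 : Matrix m m ℝ)) = (fromBlocks (μ • G + (1 - μ) • (1 : Matrix m m ℝ)) (replicateCol Unit (μ • c)) (replicateRow Unit (μ • c))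
          (1 : Matrix Unit Unit ℝ)).submatrix Sum.inl Sum.inl := by
          ext i j; rfl
        rw [h2]; exact this
      exact hpd.det_pos.ne'
    refine bordered_sq _ _ _ hsym hGdet hPμ.det_pos.ne' hPμ'.det_pos.ne' e ?_
    intro a b
    have hab := he a b
    have key : ∀ (d : m → ℝ) (x y : m ⊕ Unit),
        fromBlocks (μ • G + (1 - μ) • (1 : Matrix m m ℝ)) (replicateCol Unit (μ • d)) (replicateRow Unit (μ • d))
          (1 : Matrix Unit Unit ℝ) x y
        = μ * fromBlocks G (replicateCol Unit d) (replicateRow Unit d) (1 : Matrix Unit Unit ℝ) x y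
          + (1 - μ) * (if x = y then 1 else 0) := by
      intro d x y
      rcases x with i | u <;> rcases y with j | v
      · simp [Matrix.one_apply]
      · simp
      · simp
      · simp
    rw [key, key, hab]
    congr 2
    simp [e.injective.eq_iff]
  have hprod : ((Q c).det - (Q c').det) * ((Q c).det + (Q c').det) = 0 := by
    apply Polynomial.eq_zero_of_infinite_isRoot
    apply Set.Infinite.mono _ (Set.Ioo_infinite (show (0:ℝ) < 1 by norm_num))
    intro μ hμ
    have := hmain μ hμ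
    simp only [Set.mem_ofPred_eq, Polynomial.IsRoot, Polynomial.eval_mul, Polynomial.eval_sub, Polynomial.eval_add]
    linear_combination this
  have h0 : ∀ d : m → ℝ, (Q d).det.eval 0 = 1 := by
    intro d
    rw [heval]
    have : (fromBlocks ((0:ℝ) • G + (1 - (0:ℝ)) • (1 : Matrix m m ℝ)) (replicateCol Unit (fun _ => (1:ℝ)))
        (replicateRow Unit ((0:ℝ) • d)) (1 : Matrix Unit Unit ℝ))
        = fromBlocks (1 : Matrix m m ℝ) (replicateCol Unit (fun _ => (1:ℝ))) 0 (1 : Matrix Unit Unit ℝ) := by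
      congr 1
      · simp
      · ext; simp
    rw [this, Matrix.det_fromBlocks_zero₂₁]
    simp
  rcases mul_eq_zero.mp hprod with h | h
  · have := congrArg (Polynomial.eval 1) h
    simp only [Polynomial.eval_sub, Polynomial.eval_zero] at this
    rw [heval, heval] at this
    have e1 : ((1:ℝ) • G + (1 - (1:ℝ)) • (1 : Matrix m m ℝ)) = G := by simp
    rw [e1, one_smul, one_smul] at this
    linarith
  · exfalso
    have := congrArg (Polynomial.eval 0) h
    simp only [Polynomial.eval_add, Polynomial.eval_zero] at this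
    rw [h0, h0] at this
    norm_num at this

end Pool.Agent.Helper15.Iso
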