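import Mathlib
import Pool.Agent.Helper15.Iso.Basis
set_option autoImplicit false
open Module Finset
open scoped Classical

namespace Pool.Agent.Helper15.Iso
variable {V : Type*} [NormedAddCommGroup V] [InnerProductSpace ℝ V]
variable {ι : Type*}

theorem unit_parallel {a b : V} (ha : ‖a‖ = 1) (hb : ‖b‖ = 1) {c : ℝ} (h : a = c • b) :
    b = a ∨ b = - a := by
  have h1 : |c| = 1 := by
    have := congrArg norm h
    rw [norm_smul, ha, hb, mul_one, Real.norm_eq_abs] at this
    exact this.symm
  rcases (abs_eq one_pos.le).1 h1 with h2 | h2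
  · left
    rw [h, h2, one_smul]
  · right
    rw [h, h2, neg_smul, one_smul, neg_neg]

theorem nu_arr [FiniteDimensional ℝ V] {N : ι → V} (hA : Arr N) {R : Finset V} (hR : IsCh N R)
    {p : V} (hp : p ∈ R) : ∃ i, nu R p = N i ∨ nu R p = - N i := by
  obtain ⟨i, hi⟩ := hR.facet p hp
  refine ⟨i, ?_⟩
  have h1 := nu_expand hR.li hR.card (N i)
  rw [Finset.sum_eq_single p] at h1
  · exact unit_parallel (hA.unit i) (nu_spec hR.li hR.card hp).1 h1
  · intro q hq hqp
    rw [hi q hq hqp, zero_div, zero_smul]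
  · intro h
    exact absurd hp h

theorem inner_ctr (n : V) (R : Finset V) : inner ℝ n (ctr R) = ∑ q ∈ R, inner ℝ n q := by
  rw [ctr, inner_sum]

theorem ctr_gen [FiniteDimensional ℝ V] {N : ι → V} (hA : Arr N) {R : Finset V} (hR : IsCh N R) :
    Gen N (ctr R) := by
  intro i h0
  rw [inner_ctr] at h0
  have hall : ∀ q ∈ R, inner ℝ (N i) q = 0 := by
    rcases hR.sgn i with h | h
    · exact (Finset.sum_eq_zero_iff_of_nonneg h).1 h0
    · exact (Finset.sum_eq_zero_iff_of_nonpos h).1 h0
  have h1 := nu_expand hR.li hR.card (N i)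
  rw [Finset.sum_eq_zero] at h1
  · have h2 := hA.unit i
    rw [h1, norm_zero] at h2
    exact one_ne_zero h2.symm
  · intro q hq
    rw [hall q hq, zero_div, zero_smul]

/-- signs on R agree with the signs at the center -/
theorem sgn_ctr [FiniteDimensional ℝ V] {N : ι → V} {R : Finset V} (hR : IsCh N R)
    (i : ι) {p : V} (hp : p ∈ R) : 0 ≤ inner ℝ (N i) (ctr R) * inner ℝ (N i) p := by
  rw [inner_ctr]
  rcases hR.sgn i with h | h
  · exact mul_nonneg (Finset.sum_nonneg h) (h p hp)
  · exact mul_nonneg_of_nonpos_of_nonpos (Finset.sum_nonpos h) (h p hp)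

/-- a ray of one chamber lying in another chamber is a ray of the latter -/
theorem ray_mem [FiniteDimensional ℝ V] {N : ι → V} (hA : Arr N) {R R' : Finset V}
    (hR : IsCh N R) (hR' : IsCh N R') {q : V} (hq : q ∈ R)
    (h : ∀ i, 0 ≤ inner ℝ (N i) (ctr R') * inner ℝ (N i) q) : q ∈ R' := by
  have hc : ∀ s ∈ R', 0 ≤ inner ℝ (nu R' s) q / inner ℝ (nu R' s) s := by
    intro s hs
    obtain ⟨_, h2, h3⟩ := nu_spec hR'.li hR'.card hs
    have h4 : inner ℝ (nu R' s) (ctr R') = inner ℝ (nu R' s) s := by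
      rw [inner_ctr, Finset.sum_eq_single s]
      · intro r hr hrs
        exact h2 r hr hrs
      · intro hn
        exact absurd hs hn
    have h5 : 0 ≤ inner ℝ (nu R' s) (ctr R') * inner ℝ (nu R' s) q := by
      obtain ⟨i, hi | hi⟩ := nu_arr hA hR' hs
      · rw [hi]; exact h i
      · rw [hi, inner_neg_left, inner_neg_left, neg_mul_neg]; exact h i
    rw [h4] at h5
    exact div_nonneg (nonneg_of_mul_nonneg_right h5 h3) h3.le
  have hexp := basis_expand hR'.li hR'.card q
  have hker : ∀ i, inner ℝ (N i) q = 0 → ∀ s ∈ R',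
      inner ℝ (nu R' s) q / inner ℝ (nu R' s) s ≠ 0 → inner ℝ (N i) s = 0 := by
    intro i hi s hs hcs
    have h1 : ∑ s ∈ R', (inner ℝ (nu R' s) q / inner ℝ (nu R' s) s) * inner ℝ (N i) s = 0 := by
      rw [← hi]
      conv_rhs => rw [hexp]
      rw [inner_sum]
      refine Finset.sum_congr rfl fun s _ => ?_
      rw [inner_smul_right]
    have h2 : (inner ℝ (nu R' s) q / inner ℝ (nu R' s) s) * inner ℝ (N i) s = 0 := by
      rcases hR'.sgn i with h' | h'
      · exact (Finset.sum_eq_zero_iff_of_nonneg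
          (fun s hs => mul_nonneg (hc s hs) (h' s hs))).1 h1 s hs
      · exact (Finset.sum_eq_zero_iff_of_nonpos
          (fun s hs => mul_nonpos_of_nonneg_of_nonpos (hc s hs) (h' s hs))).1 h1 s hs
    rcases mul_eq_zero.1 h2 with h3 | h3
    · exact absurd h3 hcs
    · exact h3
  have hpar : ∀ s ∈ R', inner ℝ (nu R' s) q / inner ℝ (nu R' s) s ≠ 0 → q = s ∨ q = - s := by
    intro s hs hcs
    have h1 := basis_expand hR.li hR.card s
    rw [Finset.sum_eq_single q] at h1
    · exact unit_parallel (hR'.unit s hs) (hR.unit q hq) h1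
    · intro r hr hrq
      obtain ⟨_, h2, _⟩ := nu_spec hR.li hR.card hr
      have h3 : inner ℝ (nu R r) s = 0 := by
        have h4 := h2 q hq (Ne.symm hrq)
        obtain ⟨i, hi | hi⟩ := nu_arr hA hR hr
        · rw [hi] at h4 ⊢
          exact hker i h4 s hs hcs
        · rw [hi, inner_neg_left, neg_eq_zero] at h4 ⊢
          exact hker i h4 s hs hcs
      rw [h3, zero_div, zero_smul]
    · intro hn
      exact absurd hq hn
  by_contra hnot
  have h1 : inner ℝ q q = ∑ s ∈ R', (inner ℝ (nu R' s) q / inner ℝ (nu R' s) s) * inner ℝ q s := by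
    conv_lhs => rw [hexp, inner_sum]
    refine Finset.sum_congr rfl fun s _ => ?_
    rw [inner_smul_right]
    congr 2
    exact hexp.symm
  have h2 : ∑ s ∈ R', (inner ℝ (nu R' s) q / inner ℝ (nu R' s) s) * inner ℝ q s ≤ 0 := by
    refine Finset.sum_nonpos fun s hs => ?_
    by_cases hcs : inner ℝ (nu R' s) q / inner ℝ (nu R' s) s = 0
    · rw [hcs, zero_mul]
    · rcases hpar s hs hcs with h3 | h3
      · exact absurd (h3 ▸ hs) hnot
      · have h4 : inner ℝ q s ≤ 0 := by
          rw [h3, inner_neg_left, neg_nonpos]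
          exact real_inner_self_nonneg
        exact mul_nonpos_of_nonneg_of_nonpos (hc s hs) h4
  rw [← h1, real_inner_self_eq_norm_sq, hR.unit q hq] at h2
  norm_num at h2

theorem same_of_sign [FiniteDimensional ℝ V] {N : ι → V} (hA : Arr N) {R R' : Finset V}
    (hR : IsCh N R) (hR' : IsCh N R')
    (h : ∀ i, 0 < inner ℝ (N i) (ctr R) * inner ℝ (N i) (ctr R')) : R = R' := by
  apply Finset.eq_of_subset_of_card_le
  · intro q hq
    refine ray_mem hA hR hR' hq fun i => ?_
    have h1 := h i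
    have h2 := sgn_ctr hR i hq
    have h3 : inner ℝ (N i) (ctr R) ≠ 0 := ctr_gen hA hR i
    have h4 : 0 < inner ℝ (N i) (ctr R) ^ 2 := by positivity
    have h5 : 0 ≤ inner ℝ (N i) (ctr R) ^ 2 * (inner ℝ (N i) (ctr R') * inner ℝ (N i) q) := by
      have := mul_nonneg h1.le h2
      calc (0:ℝ) ≤ _ := this
        _ = _ := by ring
    exact nonneg_of_mul_nonneg_right h5 h4
  · rw [hR.card, hR'.card]

theorem finite_chambers [FiniteDimensional ℝ V] [Finite ι] {N : ι → V} (hA : Arr N) :
    {R : Finset V | IsCh N R}.Finite := by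
  apply Set.Finite.of_finite_image
    (f := fun (R : Finset V) (i : ι) => SignType.sign (inner ℝ (N i) (ctr R)))
  · exact Set.toFinite _
  · intro R hR R' hR' heq
    refine same_of_sign hA hR hR' fun i => ?_
    have h1 : SignType.sign (inner ℝ (N i) (ctr R)) = SignType.sign (inner ℝ (N i) (ctr R')) :=
      congrFun heq i
    have h2 : inner ℝ (N i) (ctr R) ≠ 0 := ctr_gen hA hR i
    rcases lt_or_gt_of_ne h2 with h3 | h3
    · rw [sign_neg h3] at h1
      exact mul_pos_of_neg_of_neg h3 (sign_eq_neg_one_iff.1 h1.symm)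
    · rw [sign_pos h3] at h1
      exact mul_pos h3 (sign_eq_one_iff.1 h1.symm)

end Pool.Agent.Helper15.Iso
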