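import Mathlib
set_option autoImplicit false
open Module

namespace Pool.Agent.Helper15.Iso

abbrev E (n : ℕ) := EuclideanSpace ℝ (Fin n)

/-- A linear hyperplane of `ℝⁿ`. -/
def IsHyperplane {n : ℕ} (H : Submodule ℝ (E n)) : Prop := finrank ℝ H + 1 = n

/-- `A` is the set of all reflecting hyperplanes of a finite group generated by reflections. -/
def IsCoxeter {n : ℕ} (A : Set (Submodule ℝ (E n))) : Prop :=
  ∃ W : Subgroup (E n ≃ₗᵢ[ℝ] E n), Finite W ∧
    (∃ T : Set (Submodule ℝ (E n)), (∀ H ∈ T, IsHyperplane H) ∧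
      W = Subgroup.closure {s | ∃ H ∈ T, s = H.reflection}) ∧
    A = {H | IsHyperplane H ∧ H.reflection ∈ W}

section aux
variable {n : ℕ}

noncomputable def mp (w : E n ≃ₗᵢ[ℝ] E n) (K : Submodule ℝ (E n)) : Submodule ℝ (E n) :=
  K.map (w.toLinearEquiv : E n →ₗ[ℝ] E n)

theorem mem_mp (w : E n ≃ₗᵢ[ℝ] E n) (K : Submodule ℝ (E n)) (x : E n) :
    x ∈ mp w K ↔ w.symm x ∈ K := by
  unfold mp
  rw [Submodule.mem_map]
  constructor
  · rintro ⟨y, hy, rfl⟩
    have : w.symm ((w.toLinearEquiv : E n →ₗ[ℝ] E n) y) = y := w.symm_apply_apply y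
    rw [this]; exact hy
  · intro h
    exact ⟨w.symm x, h, w.apply_symm_apply x⟩

theorem mp_one (K : Submodule ℝ (E n)) : mp 1 K = K := by
  ext x; rw [mem_mp]; exact Iff.rfl

theorem mp_mul (w w' : E n ≃ₗᵢ[ℝ] E n) (K : Submodule ℝ (E n)) :
    mp (w * w') K = mp w (mp w' K) := by
  ext x; rw [mem_mp, mem_mp, mem_mp]; exact Iff.rfl

theorem mp_inv_mp (w : E n ≃ₗᵢ[ℝ] E n) (K : Submodule ℝ (E n)) : mp w⁻¹ (mp w K) = K := by
  rw [← mp_mul, inv_mul_cancel, mp_one]

theorem mp_mp_inv (w : E n ≃ₗᵢ[ℝ] E n) (K : Submodule ℝ (E n)) : mp w (mp w⁻¹ K) = K := by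
  rw [← mp_mul, mul_inv_cancel, mp_one]

theorem mp_inj (w : E n ≃ₗᵢ[ℝ] E n) : Function.Injective (mp w) := by
  intro K L h
  rw [← mp_inv_mp w K, h, mp_inv_mp]

open scoped InnerProductSpace

theorem exists_normal (H : Submodule ℝ (E n)) (hH : IsHyperplane H) :
    ∃ v : E n, ‖v‖ = 1 ∧ ∀ x, x ∈ H ↔ ⟪v, x⟫_ℝ = 0 := by
  have h1 := Submodule.finrank_add_finrank_orthogonal H
  rw [finrank_euclideanSpace_fin] at h1
  have h2 : finrank ℝ Hᗮ = 1 := by unfold IsHyperplane at hH; omega
  obtain ⟨⟨v, hv⟩, hv0, hspan⟩ := finrank_eq_one_iff'.1 h2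
  have hv0' : v ≠ 0 := fun h => hv0 (Subtype.ext h)
  have hn : ‖v‖ ≠ 0 := norm_ne_zero_iff.2 hv0'
  refine ⟨‖v‖⁻¹ • v, ?_, ?_⟩
  · rw [norm_smul, norm_inv, norm_norm, inv_mul_cancel₀ hn]
  · intro x
    rw [real_inner_smul_left, mul_eq_zero, or_iff_right (inv_ne_zero hn)]
    constructor
    · intro hx
      exact (Submodule.mem_orthogonal' H v).1 hv x hx
    · intro hx
      rw [← Submodule.orthogonal_orthogonal H, Submodule.mem_orthogonal]
      intro u hu
      obtain ⟨c, hc⟩ := hspan ⟨u, hu⟩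
      have : u = c • v := (congrArg Subtype.val hc).symm
      rw [this, real_inner_smul_left, hx, mul_zero]

theorem normal_unique {v w : E n} (hv : ‖v‖ = 1) (hw : ‖w‖ = 1)
    (h : ∀ x, ⟪v, x⟫_ℝ = 0 ↔ ⟪w, x⟫_ℝ = 0) : v = w ∨ v = -w := by
  -- v - <w,v> w is orthogonal to w hence to v
  have h1 : ⟪w, v - ⟪w, v⟫_ℝ • w⟫_ℝ = 0 := by
    rw [inner_sub_right, real_inner_smul_right, real_inner_self_eq_norm_sq, hw]; ring
  have h2 := (h _).2 h1
  rw [inner_sub_right, real_inner_smul_right, real_inner_self_eq_norm_sq, hv,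
    real_inner_comm w v] at h2
  have h3 : ‖v - ⟪w, v⟫_ℝ • w‖ ^ 2 = 0 := by
    rw [← real_inner_self_eq_norm_sq, inner_sub_left, real_inner_smul_left, h1,
      inner_sub_right, real_inner_smul_right, real_inner_self_eq_norm_sq, hv, real_inner_comm w v]
    linarith
  have h4 : v = ⟪w, v⟫_ℝ • w := by
    have := norm_eq_zero.1 (pow_eq_zero_iff (two_ne_zero)|>.1 h3)
    exact sub_eq_zero.1 this
  have h5 : ⟪w, v⟫_ℝ * ⟪w, v⟫_ℝ = 1 := by linarith
  rcases mul_self_eq_one_iff.1 h5 with h6 | h6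
  · left
    calc v = ⟪w, v⟫_ℝ • w := h4
      _ = w := by rw [h6, one_smul]
  · right
    calc v = ⟪w, v⟫_ℝ • w := h4
      _ = -w := by rw [h6, neg_smul, one_smul]

open Classical in
/-- a unit normal -/
noncomputable def nrm (H : Submodule ℝ (E n)) : E n :=
  if h : IsHyperplane H then (exists_normal H h).choose else 0

theorem nrm_norm {H : Submodule ℝ (E n)} (h : IsHyperplane H) : ‖nrm H‖ = 1 := by
  unfold nrm; rw [dif_pos h]; exact (exists_normal H h).choose_spec.1

theorem mem_iff {H : Submodule ℝ (E n)} (h : IsHyperplane H) (x : E n) :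
    x ∈ H ↔ ⟪nrm H, x⟫_ℝ = 0 := by
  unfold nrm; rw [dif_pos h]; exact (exists_normal H h).choose_spec.2 x

theorem nrm_ne {H : Submodule ℝ (E n)} (h : IsHyperplane H) : nrm H ≠ 0 := by
  intro h0
  have := nrm_norm h
  rw [h0, norm_zero] at this
  exact zero_ne_one this

theorem nrm_mp (w : E n ≃ₗᵢ[ℝ] E n) {H : Submodule ℝ (E n)} (h : IsHyperplane H)
    (h' : IsHyperplane (mp w H)) : w (nrm H) = nrm (mp w H) ∨ w (nrm H) = - nrm (mp w H) := by
  apply normal_unique
  · rw [w.norm_map]; exact nrm_norm h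
  · exact nrm_norm h'
  · intro x
    rw [← mem_iff h', mem_mp, mem_iff h]
    have : ⟪w (nrm H), x⟫_ℝ = ⟪nrm H, w.symm x⟫_ℝ := by
      conv_lhs => rw [← w.apply_symm_apply x]
      rw [w.inner_map_map]
    rw [this]

theorem eq_of_le {H K : Submodule ℝ (E n)} (hH : IsHyperplane H) (hK : IsHyperplane K)
    (h : H ≤ K) : H = K := by
  apply Submodule.eq_of_le_of_finrank_eq h
  unfold IsHyperplane at hH hK
  omega

theorem refl_nrm {K : Submodule ℝ (E n)} (hK : IsHyperplane K) :
    K.reflection (nrm K) = - nrm K := by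
  apply Submodule.reflection_mem_subspace_orthogonalComplement_eq_neg
  rw [Submodule.mem_orthogonal']
  intro u hu
  exact (mem_iff hK u).1 hu

theorem mp_refl_self (K : Submodule ℝ (E n)) : mp K.reflection K = K := by
  ext x
  rw [mem_mp, Submodule.reflection_symm]
  constructor
  · intro h
    have h1 := Submodule.reflection_mem_subspace_eq_self (K := K) h
    rw [Submodule.reflection_reflection] at h1
    rw [h1]; exact h
  · intro h
    rw [Submodule.reflection_mem_subspace_eq_self h]; exact h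

theorem mp_refl_refl (K L : Submodule ℝ (E n)) : mp K.reflection (mp K.reflection L) = L := by
  rw [← mp_mul, Submodule.reflection_mul_reflection, mp_one]

/-- a vector negated by the reflection in `K` : its hyperplane is `K` -/
theorem eq_of_neg {K L : Submodule ℝ (E n)} (hK : IsHyperplane K) (hL : IsHyperplane L)
    (h : K.reflection (nrm L) = - nrm L) : L = K := by
  symm
  apply eq_of_le hK hL
  intro x hx
  rw [mem_iff hL]
  have h1 : K.reflection x = x := Submodule.reflection_mem_subspace_eq_self hx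
  have h2 : ⟪K.reflection (nrm L), K.reflection x⟫_ℝ = ⟪nrm L, x⟫_ℝ :=
    LinearIsometryEquiv.inner_map_map _ _ _
  rw [h, h1, inner_neg_left] at h2
  linarith

theorem det_refl {K : Submodule ℝ (E n)} (hK : IsHyperplane K) :
    LinearMap.det (K.reflection.toLinearEquiv : E n →ₗ[ℝ] E n) = -1 := by
  have h1 := Submodule.finrank_add_finrank_orthogonal K
  rw [finrank_euclideanSpace_fin] at h1
  have h2 : finrank ℝ Kᗮ = 1 := by unfold IsHyperplane at hK; omega
  have := Submodule.det_reflection (𝕜 := ℝ) (K := K)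
  rw [h2, pow_one] at this
  exact this

section main
variable (A : Finset (Submodule ℝ (E n)))
  (hH : ∀ H ∈ A, IsHyperplane H)
  (hcl : ∀ H ∈ A, ∀ K ∈ A, mp H.reflection K ∈ A)
include hH hcl

theorem prod_refl {K : Submodule ℝ (E n)} (hK : K ∈ A) (x : E n) :
    ∏ L ∈ A, ⟪nrm L, K.reflection x⟫_ℝ = - ∏ L ∈ A, ⟪nrm L, x⟫_ℝ := by
  classical
  set s := K.reflection with hs
  let ε : Submodule ℝ (E n) → ℝ := fun L => if s (nrm L) = nrm (mp s L) then 1 else -1
  have hε : ∀ L ∈ A, s (nrm L) = ε L • nrm (mp s L) := by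
    intro L hL
    rcases nrm_mp s (hH L hL) (hH _ (hcl K hK L hL)) with h | h
    · simp only [ε, h, if_true, one_smul]
    · have : ¬ s (nrm L) = nrm (mp s L) := by
        intro h'
        rw [h'] at h
        have h2 : (2:ℝ) • nrm (mp s L) = 0 := by
          rw [two_smul]; nth_rewrite 1 [h]; rw [neg_add_cancel]
        rcases smul_eq_zero.1 h2 with h3 | h3
        · norm_num at h3
        · exact nrm_ne (hH _ (hcl K hK L hL)) h3
      simp only [ε, this, if_false]
      rw [h, neg_smul, one_smul]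
  have hterm : ∀ L ∈ A, ⟪nrm L, s x⟫_ℝ = ε L * ⟪nrm (mp s L), x⟫_ℝ := by
    intro L hL
    have h1 : ⟪s (nrm L), s (s x)⟫_ℝ = ⟪nrm L, s x⟫_ℝ := LinearIsometryEquiv.inner_map_map _ _ _
    have h2 : s (s x) = x := Submodule.reflection_reflection K x
    rw [← h1, h2, hε L hL, real_inner_smul_left]
  rw [Finset.prod_congr rfl hterm, Finset.prod_mul_distrib]
  have hperm : ∏ L ∈ A, ⟪nrm (mp s L), x⟫_ℝ = ∏ L ∈ A, ⟪nrm L, x⟫_ℝ := by
    apply Finset.prod_nbij' (fun L => mp s L) (fun L => mp s L)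
    · intro L hL; exact hcl K hK L hL
    · intro L hL; exact hcl K hK L hL
    · intro L hL; exact mp_refl_refl K L
    · intro L hL; exact mp_refl_refl K L
    · intro L hL; rfl
  have hεp : ∏ L ∈ A, ε L = -1 := by
    rw [← Finset.mul_prod_erase A ε hK]
    have h1 : ε K = -1 := by
      have h2 : ¬ s (nrm K) = nrm (mp s K) := by
        rw [hs, mp_refl_self, refl_nrm (hH K hK)]
        intro h'
        have h2 : (2:ℝ) • nrm K = 0 := by
          rw [two_smul]; nth_rewrite 1 [← h']; rw [neg_add_cancel]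
        rcases smul_eq_zero.1 h2 with h3 | h3
        · norm_num at h3
        · exact nrm_ne (hH K hK) h3
      simp only [ε, h2, if_false]
    have h3 : ∏ L ∈ A.erase K, ε L = 1 := by
      apply Finset.prod_involution (fun L _ => mp s L)
      · intro L hL
        have hL' := Finset.mem_of_mem_erase hL
        have e1 := hε L hL'
        have e2 := hε _ (hcl K hK L hL')
        rw [mp_refl_refl] at e2
        have e3 : s (s (nrm L)) = nrm L := Submodule.reflection_reflection K _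
        rw [e1, map_smul, e2, smul_smul] at e3
        have e4 : (ε L * ε (mp s L) - 1) • nrm L = 0 := by rw [sub_smul, e3, one_smul, sub_self]
        rcases smul_eq_zero.1 e4 with h | h
        · linarith
        · exact absurd h (nrm_ne (hH L hL'))
      · intro L hL hne heq
        have hL' := Finset.mem_of_mem_erase hL
        apply Finset.ne_of_mem_erase hL
        apply eq_of_neg (hH K hK) (hH L hL')
        have e1 := hε L hL'
        rw [heq] at e1
        have : ε L = -1 := by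
          by_contra h
          apply hne
          simp only [ε] at h ⊢
          split_ifs at h ⊢ with h5
          · rfl
          · exact absurd rfl h
        rw [this, neg_smul, one_smul] at e1
        exact e1
      · intro L hL
        rw [Finset.mem_erase]
        refine ⟨?_, hcl K hK L (Finset.mem_of_mem_erase hL)⟩
        intro h
        apply Finset.ne_of_mem_erase hL
        have : mp s (mp s L) = mp s K := by rw [h]
        rw [mp_refl_refl, mp_refl_self] at this
        exact this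
      · intro L hL
        exact mp_refl_refl K L
    rw [h1, h3]; norm_num
  rw [hperm, hεp]; ring

end main

noncomputable def dt (w : E n ≃ₗᵢ[ℝ] E n) : ℝ :=
  LinearMap.det (w.toLinearEquiv : E n →ₗ[ℝ] E n)

theorem dt_one : dt (1 : E n ≃ₗᵢ[ℝ] E n) = 1 := by
  unfold dt
  exact LinearMap.det_id

theorem dt_mul (w w' : E n ≃ₗᵢ[ℝ] E n) : dt (w * w') = dt w * dt w' := by
  unfold dt
  rw [← LinearMap.det_comp]
  rfl

theorem dt_inv (w : E n ≃ₗᵢ[ℝ] E n) : dt w⁻¹ * dt w = 1 := by
  rw [← dt_mul, inv_mul_cancel, dt_one]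

section main
variable (A : Finset (Submodule ℝ (E n)))
  (hH : ∀ H ∈ A, IsHyperplane H)
  (hcl : ∀ H ∈ A, ∀ K ∈ A, mp H.reflection K ∈ A)
include hH hcl

theorem prod_W {w : E n ≃ₗᵢ[ℝ] E n}
    (hw : w ∈ Subgroup.closure {s : E n ≃ₗᵢ[ℝ] E n | ∃ H ∈ A, s = H.reflection}) :
    ∀ x, ∏ L ∈ A, ⟪nrm L, w x⟫_ℝ = dt w * ∏ L ∈ A, ⟪nrm L, x⟫_ℝ := by
  induction hw using Subgroup.closure_induction with
  | mem s hs =>
    obtain ⟨H, hHA, rfl⟩ := hs
    intro x
    rw [prod_refl A hH hcl hHA]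
    unfold dt
    rw [det_refl (hH H hHA)]; ring
  | one => intro x; rw [dt_one, one_mul]; rfl
  | mul a b _ _ ha hb =>
    intro x
    have := ha (b x)
    rw [dt_mul, mul_assoc, ← hb, ← ha]; rfl
  | inv a _ ha =>
    intro x
    have h1 := ha (a⁻¹ x)
    have h2 : a (a⁻¹ x) = x := a.apply_symm_apply x
    rw [h2] at h1
    rw [h1, ← mul_assoc, dt_inv, one_mul]

theorem maps_W {w : E n ≃ₗᵢ[ℝ] E n}
    (hw : w ∈ Subgroup.closure {s : E n ≃ₗᵢ[ℝ] E n | ∃ H ∈ A, s = H.reflection}) :
    ∀ K ∈ A, mp w K ∈ A := by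
  induction hw using Subgroup.closure_induction with
  | mem s hs =>
    obtain ⟨H, hHA, rfl⟩ := hs
    exact hcl H hHA
  | one => intro K hK; rwa [mp_one]
  | mul a b _ _ ha hb => intro K hK; rw [mp_mul]; exact ha _ (hb _ hK)
  | inv a _ ha =>
    intro K hK
    have hsurj : Set.SurjOn (mp a) (A : Set (Submodule ℝ (E n))) A :=
      Finset.surjOn_of_injOn_of_card_le (mp a) (fun L hL => ha L hL) (mp_inj a).injOn le_rfl
    obtain ⟨L, hL, hLK⟩ := hsurj hK
    rw [← hLK, mp_inv_mp]; exact hL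

omit hcl in
theorem fix_W {w : E n ≃ₗᵢ[ℝ] E n}
    (hw : w ∈ Subgroup.closure {s : E n ≃ₗᵢ[ℝ] E n | ∃ H ∈ A, s = H.reflection}) :
    ∀ x, (∀ H ∈ A, ⟪nrm H, x⟫_ℝ = 0) → w x = x := by
  induction hw using Subgroup.closure_induction with
  | mem s hs =>
    obtain ⟨H, hHA, rfl⟩ := hs
    intro x hx
    exact Submodule.reflection_mem_subspace_eq_self ((mem_iff (hH H hHA) x).2 (hx H hHA))
  | one => intro x _; rfl
  | mul a b _ _ ha hb =>
    intro x hx
    show a (b x) = x
    rw [hb x hx, ha x hx]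
  | inv a _ ha =>
    intro x hx
    have h1 : a⁻¹ (a x) = x := a.symm_apply_apply x
    rw [ha x hx] at h1
    exact h1

theorem finite_W :
    Finite (Subgroup.closure {s : E n ≃ₗᵢ[ℝ] E n | ∃ H ∈ A, s = H.reflection}) := by
  classical
  set W := Subgroup.closure {s : E n ≃ₗᵢ[ℝ] E n | ∃ H ∈ A, s = H.reflection} with hW
  let T : Finset (E n) := A.image nrm ∪ A.image (fun H => - nrm H)
  have hT : ∀ w ∈ W, ∀ H ∈ A, w (nrm H) ∈ T := by
    intro w hw H hHA
    have h1 := maps_W A hH hcl hw H hHA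
    rcases nrm_mp w (hH H hHA) (hH _ h1) with h | h
    · rw [h]
      exact Finset.mem_union_left _ (Finset.mem_image_of_mem _ h1)
    · rw [h]
      exact Finset.mem_union_right _ (Finset.mem_image_of_mem (fun H => - nrm H) h1)
  let Φ : W → (A → T) := fun w H => ⟨w.1 (nrm H.1), hT w.1 w.2 H.1 H.2⟩
  apply Finite.of_injective Φ
  intro w w' h
  apply Subtype.ext
  apply LinearIsometryEquiv.ext
  -- both linear maps agree on the span of the normals and on its orthogonal complement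
  let S : Submodule ℝ (E n) := Submodule.span ℝ (A.image nrm : Set (E n))
  have h1 : ∀ x ∈ S, w.1 x = w'.1 x := by
    intro x hx
    induction hx using Submodule.span_induction with
    | mem y hy =>
      rw [Finset.mem_coe, Finset.mem_image] at hy
      obtain ⟨H, hHA, rfl⟩ := hy
      have := congrFun h ⟨H, hHA⟩
      exact congrArg Subtype.val this
    | zero => rw [map_zero, map_zero]
    | add y z _ _ hy hz => rw [map_add, map_add, hy, hz]
    | smul c y _ hy => rw [map_smul, map_smul, hy]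
  have h2 : ∀ x ∈ Sᗮ, w.1 x = w'.1 x := by
    intro x hx
    have h3 : ∀ H ∈ A, ⟪nrm H, x⟫_ℝ = 0 := by
      intro H hHA
      exact (Submodule.mem_orthogonal S x).1 hx _
        (Submodule.subset_span (Finset.mem_coe.2 (Finset.mem_image_of_mem _ hHA)))
    rw [fix_W A hH w.2 x h3, fix_W A hH w'.2 x h3]
  intro x
  have h4 : x ∈ S ⊔ Sᗮ := by
    rw [Submodule.sup_orthogonal_of_hasOrthogonalProjection]; exact Submodule.mem_top
  obtain ⟨y, hy, z, hz, rfl⟩ := Submodule.mem_sup.1 h4
  rw [map_add, map_add, h1 y hy, h2 z hz]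

theorem mem_of_refl {H : Submodule ℝ (E n)} (hHy : IsHyperplane H)
    (hw : H.reflection ∈ Subgroup.closure {s : E n ≃ₗᵢ[ℝ] E n | ∃ H ∈ A, s = H.reflection}) :
    H ∈ A := by
  classical
  by_contra hHA
  -- a point of `H` outside all members of `A`
  obtain ⟨x, hxH, hx⟩ : ∃ x ∈ H, ∀ K ∈ A, x ∉ K := by
    by_contra hcon
    push Not at hcon
    have h1 := Subspace.biUnion_ne_univ_of_top_notMem (k := ℝ) (E := H)
      (s := A.image (fun K => K.comap H.subtype)) (by
        intro h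
        obtain ⟨K, hK, hKt⟩ := Finset.mem_image.1 h
        have : H ≤ K := by
          intro y hy
          have : (⟨y, hy⟩ : H) ∈ K.comap H.subtype := by rw [hKt]; exact Submodule.mem_top
          exact this
        exact hHA (eq_of_le hHy (hH K hK) this ▸ hK))
    apply h1
    rw [Set.eq_univ_iff_forall]
    rintro ⟨y, hy⟩
    obtain ⟨K, hK, hyK⟩ := hcon y hy
    rw [Set.mem_iUnion₂]
    exact ⟨K.comap H.subtype, Finset.mem_image_of_mem _ hK, hyK⟩
  have h2 := prod_W A hH hcl hw x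
  rw [Submodule.reflection_mem_subspace_eq_self hxH] at h2
  have h3 : dt H.reflection = -1 := det_refl hHy
  rw [h3] at h2
  have h4 : ∏ L ∈ A, ⟪nrm L, x⟫_ℝ ≠ 0 := by
    rw [Finset.prod_ne_zero_iff]
    intro L hL h5
    exact hx L hL ((mem_iff (hH L hL) x).2 h5)
  apply h4
  linarith
end main
end aux

/-- Job F -/
theorem coxeter_of_closed {n : ℕ} (A : Set (Submodule ℝ (E n))) (hfin : A.Finite)
    (hH : ∀ H ∈ A, IsHyperplane H)
    (hcl : ∀ H ∈ A, ∀ K ∈ A, K.map (H.reflection.toLinearEquiv : E n →ₗ[ℝ] E n) ∈ A) :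
    IsCoxeter A := by
  classical
  set B : Finset (Submodule ℝ (E n)) := hfin.toFinset with hB
  have hAB : ∀ H, H ∈ A ↔ H ∈ B := fun H => (hfin.mem_toFinset).symm
  have hH' : ∀ H ∈ B, IsHyperplane H := fun H h => hH H ((hAB H).2 h)
  have hcl' : ∀ H ∈ B, ∀ K ∈ B, mp H.reflection K ∈ B :=
    fun H h K h' => (hAB _).1 (hcl H ((hAB H).2 h) K ((hAB K).2 h'))
  refine ⟨Subgroup.closure {s : E n ≃ₗᵢ[ℝ] E n | ∃ H ∈ B, s = H.reflection},
    finite_W B hH' hcl', ⟨A, hH, ?_⟩, ?_⟩
  · congr 1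
    ext s
    constructor
    · rintro ⟨H, h, rfl⟩; exact ⟨H, (hAB H).2 h, rfl⟩
    · rintro ⟨H, h, rfl⟩; exact ⟨H, (hAB H).1 h, rfl⟩
  · ext H
    constructor
    · intro h
      exact ⟨hH H h, Subgroup.subset_closure ⟨H, (hAB H).1 h, rfl⟩⟩
    · rintro ⟨h1, h2⟩
      exact (hAB H).2 (mem_of_refl B hH' hcl' h1 h2)

end Pool.Agent.Helper15.Iso
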