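import Mathlib
set_option autoImplicit false
open Module

namespace Pool.Agent.Helper15.Iso

section aux17
open Classical

variable {V : Type*} [AddCommGroup V] [Module ℝ V] {ι : Type*}

/-- vertices of the arrangement in `H` -/
def Vx (φ : ι → Module.Dual ℝ V) (H : Submodule ℝ V) (J : Finset ι) (v : V) : Prop :=
  v ∈ H ∧ v ≠ 0 ∧ ∀ w ∈ H, (∀ j ∈ J, φ j v = 0 → φ j w = 0) → ∃ t : ℝ, w = t • v

/-- zero set -/
noncomputable def zs (φ : ι → Module.Dual ℝ V) (J : Finset ι) (v : V) : Finset ι :=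
  J.filter fun j => φ j v = 0

theorem vx_same {φ : ι → Module.Dual ℝ V} {H : Submodule ℝ V} {J : Finset ι} {v v' : V}
    (h : Vx φ H J v) (h' : Vx φ H J v') (hz : zs φ J v = zs φ J v') : ∃ t : ℝ, t ≠ 0 ∧ v = t • v' := by
  obtain ⟨t, ht⟩ := h'.2.2 v h.1 (by
    intro j hj hj0
    have : j ∈ zs φ J v := by rw [hz]; exact Finset.mem_filter.2 ⟨hj, hj0⟩
    exact (Finset.mem_filter.1 this).2)
  refine ⟨t, ?_, ht⟩
  rintro rfl
  rw [zero_smul] at ht
  exact h.2.1 ht

theorem exists_vx (φ : ι → Module.Dual ℝ V) (H : Submodule ℝ V) (J : Finset ι)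
    (htriv : ∀ w ∈ H, (∀ j ∈ J, φ j w = 0) → w = 0) (f : ι) (hex : ∃ w ∈ H, φ f w ≠ 0) :
    ∃ v, Vx φ H J v ∧ φ f v ≠ 0 := by
  obtain ⟨v, ⟨hvH, hvf⟩, hmin⟩ := (measure fun v => J.card - (zs φ J v).card).wf.has_min
    {v | v ∈ H ∧ φ f v ≠ 0} hex
  refine ⟨v, ⟨hvH, ?_, ?_⟩, hvf⟩
  · rintro rfl
    exact hvf (map_zero _)
  · intro w hw hz
    by_contra hcon
    set w' : V := w - (φ f w / φ f v) • v with hw'
    have hw'H : w' ∈ H := H.sub_mem hw (H.smul_mem _ hvH)
    have hw'0 : w' ≠ 0 := by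
      intro h0
      exact hcon ⟨_, sub_eq_zero.1 h0⟩
    have hw'f : φ f w' = 0 := by
      rw [hw', map_sub, map_smul, smul_eq_mul, div_mul_cancel₀ _ hvf, sub_self]
    have hw'z : ∀ j ∈ J, φ j v = 0 → φ j w' = 0 := by
      intro j hj hj0
      rw [hw', map_sub, map_smul, hz j hj hj0, hj0, smul_zero, sub_zero]
    obtain ⟨j, hj, hjw⟩ : ∃ j ∈ J, φ j w' ≠ 0 := by
      by_contra hno
      push Not at hno
      exact hw'0 (htriv w' hw'H hno)
    have hjv : φ j v ≠ 0 := fun h => hjw (hw'z j hj h)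
    set v' : V := v - (φ j v / φ j w') • w' with hv'
    have hv'H : v' ∈ H := H.sub_mem hvH (H.smul_mem _ hw'H)
    have hv'f : φ f v' = φ f v := by
      rw [hv', map_sub, map_smul, hw'f, smul_zero, sub_zero]
    have hv'j : φ j v' = 0 := by
      rw [hv', map_sub, map_smul, smul_eq_mul, div_mul_cancel₀ _ hjw, sub_self]
    have hss : zs φ J v ⊂ zs φ J v' := by
      rw [Finset.ssubset_iff_of_subset]
      · exact ⟨j, Finset.mem_filter.2 ⟨hj, hv'j⟩, fun h => hjv (Finset.mem_filter.1 h).2⟩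
      · intro k hk
        obtain ⟨hk1, hk2⟩ := Finset.mem_filter.1 hk
        refine Finset.mem_filter.2 ⟨hk1, ?_⟩
        rw [hv', map_sub, map_smul, hw'z k hk1 hk2, hk2, smul_zero, sub_zero]
    have h1 := Finset.card_lt_card hss
    have h2 : (zs φ J v').card ≤ J.card := Finset.card_filter_le _ _
    refine hmin v' ⟨hv'H, by rw [hv'f]; exact hvf⟩ ?_
    show J.card - (zs φ J v').card < J.card - (zs φ J v).card
    omega

theorem exists_min_vx (φ : ι → Module.Dual ℝ V) (H : Submodule ℝ V) (J : Finset ι) (F : V → ℝ)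
    (hF : ∀ v, ∀ t : ℝ, t ≠ 0 → F (t • v) = F v) (Q : V → Prop) (hex : ∃ v, Vx φ H J v ∧ Q v) :
    ∃ p, Vx φ H J p ∧ Q p ∧ ∀ v, Vx φ H J v → Q v → F p ≤ F v := by
  set T := J.powerset.filter (fun Z => ∃ v, Vx φ H J v ∧ Q v ∧ zs φ J v = Z) with hT
  have hTv : ∀ Z ∈ T, ∃ v, Vx φ H J v ∧ Q v ∧ zs φ J v = Z := fun Z hZ => (Finset.mem_filter.1 hZ).2
  choose! vz h1 h2 h3 using hTv
  have hne : T.Nonempty := by
    obtain ⟨v, hv, hQ⟩ := hex
    exact ⟨zs φ J v, Finset.mem_filter.2 ⟨Finset.mem_powerset.2 (Finset.filter_subset _ _), v, hv, hQ, rfl⟩⟩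
  obtain ⟨Z, hZ, hmin⟩ := Finset.exists_min_image T (fun Z => F (vz Z)) hne
  refine ⟨vz Z, h1 Z hZ, h2 Z hZ, fun v hv hQ => ?_⟩
  have hZ' : zs φ J v ∈ T :=
    Finset.mem_filter.2 ⟨Finset.mem_powerset.2 (Finset.filter_subset _ _), v, hv, hQ, rfl⟩
  obtain ⟨t, ht, hvt⟩ := vx_same hv (h1 _ hZ') (h3 _ hZ').symm
  have h4 := hmin _ hZ'
  rw [hvt, hF _ t ht]
  exact h4

theorem exists_g (φ : ι → Module.Dual ℝ V) (H : Submodule ℝ V) (J : Finset ι) :
    ∃ g : Module.Dual ℝ V, ∀ v, Vx φ H J v → g v ≠ 0 := by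
  set T := J.powerset.filter (fun Z => ∃ v, Vx φ H J v ∧ zs φ J v = Z) with hT
  have hTv : ∀ Z ∈ T, ∃ v, Vx φ H J v ∧ zs φ J v = Z := fun Z hZ => (Finset.mem_filter.1 hZ).2
  choose! vz h1 h3 using hTv
  obtain ⟨g, hg⟩ := Module.exists_dual_forall_apply_ne_zero (K := ℝ) (fun Z : T => vz Z.1)
    (fun Z => (h1 Z.1 Z.2).2.1)
  refine ⟨g, fun v hv => ?_⟩
  have hZ' : zs φ J v ∈ T :=
    Finset.mem_filter.2 ⟨Finset.mem_powerset.2 (Finset.filter_subset _ _), v, hv, rfl⟩
  obtain ⟨t, ht, hvt⟩ := vx_same hv (h1 _ hZ') (h3 _ hZ').symm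
  rw [hvt, map_smul]
  exact smul_ne_zero ht (hg ⟨_, hZ'⟩)

theorem claim [FiniteDimensional ℝ V] (φ : ι → Module.Dual ℝ V) (g : Module.Dual ℝ V) :
    ∀ (n : ℕ) (H : Submodule ℝ V) (J : Finset ι), finrank ℝ H = n →
      (∀ w ∈ H, (∀ j ∈ J, φ j w = 0) → w = 0) → (∀ v, Vx φ H J v → g v ≠ 0) →
      ∃ b : Fin n → V, LinearIndependent ℝ b ∧ (∀ k, 0 < g (b k)) ∧ (∀ k, Vx φ H J (b k)) ∧
        (∀ j ∈ J, (∀ k, 0 ≤ φ j (b k)) ∨ (∀ k, φ j (b k) ≤ 0)) ∧
        ∀ k, ∃ j ∈ J, φ j (b k) ≠ 0 ∧ ∀ l, l ≠ k → φ j (b l) = 0 := by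
  intro n
  induction n with
  | zero =>
    intro H J _ _ _
    refine ⟨Fin.elim0, linearIndependent_empty_type, fun k => k.elim0, fun k => k.elim0,
      fun j _ => Or.inl fun k => k.elim0, fun k => k.elim0⟩
  | succ n ih =>
    intro H J hdim htriv hg
    -- a functional of the family which is nonzero on `H`
    obtain ⟨w0, hw0H, hw0⟩ : ∃ w ∈ H, w ≠ 0 := by
      by_contra hno
      push Not at hno
      have : H = ⊥ := (Submodule.eq_bot_iff _).2 hno
      rw [this, finrank_bot] at hdim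
      omega
    obtain ⟨f, hfJ, hfw⟩ : ∃ f ∈ J, φ f w0 ≠ 0 := by
      by_contra hno
      push Not at hno
      exact hw0 (htriv w0 hw0H hno)
    obtain ⟨p0, hp0, hp0f⟩ := exists_vx φ H J htriv f ⟨w0, hw0H, hfw⟩
    obtain ⟨p1, hp1, hp1f, hp1min⟩ := exists_min_vx φ H J (fun v => |φ f v| / |g v|) (by
      intro v t ht
      simp only [map_smul, smul_eq_mul, abs_mul]
      exact mul_div_mul_left _ _ (abs_ne_zero.2 ht)) (fun v => φ f v ≠ 0) ⟨p0, hp0, hp0f⟩
    -- sign change
    obtain ⟨p, hp, hpf, hpg, hpmin⟩ : ∃ p, Vx φ H J p ∧ φ f p ≠ 0 ∧ 0 < g p ∧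
        ∀ v, Vx φ H J v → φ f v ≠ 0 → |φ f p| / |g p| ≤ |φ f v| / |g v| := by
      rcases lt_or_gt_of_ne (hg p1 hp1) with h | h
      · refine ⟨-p1, ⟨H.neg_mem hp1.1, neg_ne_zero.2 hp1.2.1, ?_⟩, ?_, ?_, ?_⟩
        · intro w hw hz
          obtain ⟨t, ht⟩ := hp1.2.2 w hw (fun j hj hj0 => hz j hj (by rw [map_neg, hj0, neg_zero]))
          exact ⟨-t, by rw [ht]; simp⟩
        · rw [map_neg]; exact neg_ne_zero.2 hp1f
        · rw [map_neg]; linarith
        · intro v hv hvf
          rw [map_neg, map_neg, abs_neg, abs_neg]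
          exact hp1min v hv hvf
      · exact ⟨p1, hp1, hp1f, h, hp1min⟩
    -- the hyperplane
    set H' : Submodule ℝ V := H ⊓ LinearMap.ker (φ f) with hH'
    set J' : Finset ι := J.filter (fun j => φ j p = 0) with hJ'
    have hdim' : finrank ℝ H' = n := by
      have h1 : ((φ f).domRestrict H : Module.Dual ℝ H) ≠ 0 := by
        intro h0
        have := LinearMap.congr_fun h0 ⟨w0, hw0H⟩
        exact hfw this
      have h2 := Module.Dual.finrank_ker_add_one_of_ne_zero h1
      have h3 : (LinearMap.ker ((φ f).domRestrict H)).map H.subtype = H' := by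
        ext v
        simp only [Submodule.mem_map, LinearMap.mem_ker, hH', Submodule.mem_inf]
        constructor
        · rintro ⟨⟨x, hx⟩, h4, rfl⟩
          exact ⟨hx, h4⟩
        · rintro ⟨h4, h5⟩
          exact ⟨⟨v, h4⟩, h5, rfl⟩
      rw [← h3, Submodule.finrank_map_subtype_eq]
      omega
    have htriv' : ∀ w ∈ H', (∀ j ∈ J', φ j w = 0) → w = 0 := by
      rintro w ⟨hwH, hwf⟩ hz
      obtain ⟨t, ht⟩ := hp.2.2 w hwH (fun j hj hj0 => hz j (Finset.mem_filter.2 ⟨hj, hj0⟩))
      have h1 : φ f w = 0 := hwf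
      rw [ht, map_smul, smul_eq_mul] at h1
      rcases mul_eq_zero.1 h1 with h2 | h2
      · rw [ht, h2, zero_smul]
      · exact absurd h2 hpf
    have hvx' : ∀ v, Vx φ H' J' v → Vx φ H J v := by
      rintro v ⟨⟨hvH, hvf⟩, hv0, hv⟩
      refine ⟨hvH, hv0, fun w hw hz => ?_⟩
      exact hv w ⟨hw, hz f hfJ hvf⟩ (fun j hj hj0 => hz j (Finset.mem_filter.1 hj).1 hj0)
    obtain ⟨d, hd1, hd2, hd3, hd4, hd5⟩ := ih H' J' hdim' htriv' (fun v hv => hg v (hvx' v hv))
    have hdf : ∀ k, φ f (d k) = 0 := fun k => (hd3 k).1.2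
    have hsign : ∀ j ∈ J, ∀ i, 0 ≤ φ j p * φ j (d i) := by
      intro j hj i
      by_contra hneg
      rw [not_le] at hneg
      have hjp : φ j p ≠ 0 := by
        intro h0; rw [h0, zero_mul] at hneg; exact lt_irrefl _ hneg
      have hjd : φ j (d i) ≠ 0 := by
        intro h0; rw [h0, mul_zero] at hneg; exact lt_irrefl _ hneg
      set α : ℝ := |φ j (d i)| with hα
      set β : ℝ := |φ j p| with hβ
      have hα0 : 0 < α := abs_pos.2 hjd
      have hβ0 : 0 < β := abs_pos.2 hjp
      have hrel : α * φ j p + β * φ j (d i) = 0 := by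
        rcases lt_or_gt_of_ne hjp with h1 | h1
        · have h2 : 0 < φ j (d i) := by
            by_contra h3
            rw [not_lt] at h3
            have := mul_nonneg_of_nonpos_of_nonpos h1.le h3
            linarith
          rw [hα, hβ, abs_of_pos h2, abs_of_neg h1]
          ring
        · have h2 : φ j (d i) < 0 := by
            by_contra h3
            rw [not_lt] at h3
            have := mul_nonneg h1.le h3
            linarith
          rw [hα, hβ, abs_of_neg h2, abs_of_pos h1]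
          ring
      set r : V := α • p + β • d i with hr
      have hrf : φ f r = α * φ f p := by
        rw [hr, map_add, map_smul, map_smul, hdf i, smul_zero, add_zero, smul_eq_mul]
      have hrf0 : φ f r ≠ 0 := by rw [hrf]; exact mul_ne_zero hα0.ne' hpf
      have hrj : φ j r = 0 := by
        rw [hr, map_add, map_smul, map_smul, smul_eq_mul, smul_eq_mul, hrel]
      have hrV : Vx φ H J r := by
        refine ⟨H.add_mem (H.smul_mem _ hp.1) (H.smul_mem _ (hd3 i).1.1), ?_, ?_⟩
        · intro h0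
          rw [h0, map_zero] at hrf0
          exact hrf0 rfl
        · intro w hw hz
          set s : ℝ := φ f w / φ f p with hs
          have hw'H : w - s • p ∈ H' := by
            refine ⟨H.sub_mem hw (H.smul_mem _ hp.1), ?_⟩
            show φ f (w - s • p) = 0
            rw [map_sub, map_smul, smul_eq_mul, hs, div_mul_cancel₀ _ hpf, sub_self]
          obtain ⟨t, ht⟩ := (hd3 i).2.2 (w - s • p) hw'H (by
            intro l hl hl0
            obtain ⟨hlJ, hlp⟩ := Finset.mem_filter.1 hl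
            have h1 : φ l r = 0 := by
              rw [hr, map_add, map_smul, map_smul, hlp, hl0, smul_zero, smul_zero, add_zero]
            rw [map_sub, map_smul, hz l hlJ h1, hlp, smul_zero, sub_zero])
          have hw2 : w = s • p + t • d i := by
            rw [← ht]; abel
          have h1 := hz j hj hrj
          rw [hw2, map_add, map_smul, map_smul, smul_eq_mul, smul_eq_mul] at h1
          -- s φ_j p + t φ_j d = 0 and α φ_j p + β φ_j d = 0
          have h2 : t * α = s * β := by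
            have h3 : (t * α - s * β) * φ j (d i) = 0 := by linear_combination α * h1 - s * hrel
            rcases mul_eq_zero.1 h3 with h4 | h4
            · linarith
            · exact absurd h4 hjd
          refine ⟨s / α, ?_⟩
          rw [hw2, hr, smul_add, smul_smul, smul_smul, div_mul_cancel₀ _ hα0.ne']
          congr 2
          field_simp
          linarith
      have hgr : g r = α * g p + β * g (d i) := by
        rw [hr, map_add, map_smul, map_smul, smul_eq_mul, smul_eq_mul]
      have hgr0 : 0 < g r := by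
        rw [hgr]
        have := hd2 i
        positivity
      have h5 := hpmin r hrV hrf0
      rw [hrf, abs_mul, abs_of_pos hα0, abs_of_pos hgr0, abs_of_pos hpg,
        div_le_div_iff₀ hpg hgr0, hgr] at h5
      have h6 : 0 < |φ f p| := abs_pos.2 hpf
      have h7 := hd2 i
      have h8 : 0 < |φ f p| * (β * g (d i)) := by positivity
      nlinarith
    refine ⟨Fin.cons p d, ?_, ?_, ?_, ?_, ?_⟩
    · rw [linearIndependent_finCons]
      refine ⟨hd1, fun hmem => ?_⟩
      have h1 : Submodule.span ℝ (Set.range d) ≤ LinearMap.ker (φ f) := by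
        rw [Submodule.span_le]
        rintro _ ⟨k, rfl⟩
        exact hdf k
      exact hpf (h1 hmem)
    · intro k
      refine Fin.cases ?_ (fun i => ?_) k
      · simpa using hpg
      · simpa using hd2 i
    · intro k
      refine Fin.cases ?_ (fun i => ?_) k
      · simpa using hp
      · simpa using hvx' _ (hd3 i)
    · intro j hj
      by_cases hjp : φ j p = 0
      · rcases hd4 j (Finset.mem_filter.2 ⟨hj, hjp⟩) with h | h
        · left
          intro k
          refine Fin.cases ?_ (fun i => ?_) k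
          · rw [Fin.cons_zero, hjp]
          · rw [Fin.cons_succ]; exact h i
        · right
          intro k
          refine Fin.cases ?_ (fun i => ?_) k
          · rw [Fin.cons_zero, hjp]
          · rw [Fin.cons_succ]; exact h i
      · rcases lt_or_gt_of_ne hjp with h | h
        · right
          intro k
          refine Fin.cases ?_ (fun i => ?_) k
          · rw [Fin.cons_zero]; exact h.le
          · rw [Fin.cons_succ]
            have := hsign j hj i
            by_contra h3
            rw [not_le] at h3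
            nlinarith
        · left
          intro k
          refine Fin.cases ?_ (fun i => ?_) k
          · rw [Fin.cons_zero]; exact h.le
          · rw [Fin.cons_succ]
            have := hsign j hj i
            by_contra h3
            rw [not_le] at h3
            nlinarith
    · intro k
      refine Fin.cases ?_ (fun i => ?_) k
      · refine ⟨f, hfJ, by rwa [Fin.cons_zero], fun l hl => ?_⟩
        obtain ⟨l', rfl⟩ := Fin.exists_succ_eq.2 hl
        rw [Fin.cons_succ]
        exact hdf l'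
      · obtain ⟨j, hj, hj1, hj2⟩ := hd5 i
        obtain ⟨hjJ, hjp⟩ := Finset.mem_filter.1 hj
        refine ⟨j, hjJ, by rwa [Fin.cons_succ], fun l hl => ?_⟩
        revert hl
        refine Fin.cases ?_ (fun l' => ?_) l
        · intro _
          rw [Fin.cons_zero]; exact hjp
        · intro hl
          rw [Fin.cons_succ]
          exact hj2 l' (fun h => hl (by rw [h]))

end aux17

/-- Job D: every finite family of linear functionals with trivial common kernel has a simplicial
chamber: a basis `b` on which every functional of the family has weakly constant sign, and each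
coordinate hyperplane of which is the kernel of a member of the family. -/
theorem exists_simplicial {V : Type*} [AddCommGroup V] [Module ℝ V] [FiniteDimensional ℝ V]
    {ι : Type*} [Finite ι] (φ : ι → Module.Dual ℝ V) (hφ : ∀ v, (∀ i, φ i v = 0) → v = 0) :
    ∃ b : Basis (Fin (finrank ℝ V)) ℝ V,
      (∀ i, (∀ k, 0 ≤ φ i (b k)) ∨ (∀ k, φ i (b k) ≤ 0)) ∧
      ∀ k, ∃ i, φ i (b k) ≠ 0 ∧ ∀ l, l ≠ k → φ i (b l) = 0 := by
  have := Fintype.ofFinite ι
  obtain ⟨g, hg⟩ := exists_g φ (⊤ : Submodule ℝ V) Finset.univ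
  obtain ⟨b, hb1, -, -, hb4, hb5⟩ := claim φ g (finrank ℝ V) ⊤ Finset.univ (finrank_top ℝ V)
    (fun w _ h => hφ w fun i => h i (Finset.mem_univ _)) hg
  refine ⟨basisOfLinearIndependentOfCardEqFinrank' b hb1 (Fintype.card_fin _), ?_, ?_⟩
  · intro i
    rw [coe_basisOfLinearIndependentOfCardEqFinrank']
    exact hb4 i (Finset.mem_univ _)
  · intro k
    rw [coe_basisOfLinearIndependentOfCardEqFinrank']
    obtain ⟨j, -, h1, h2⟩ := hb5 k
    exact ⟨j, h1, h2⟩

end Pool.Agent.Helper15.Iso
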