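import Mathlib
import Pool.Agent.Helper15.Iso.Defs
import Pool.Agent.Helper15.Iso.Simplicial
set_option autoImplicit false
open Module Finset
open scoped Classical

namespace Pool.Agent.Helper15.Iso
variable {V : Type*} [NormedAddCommGroup V] [InnerProductSpace ℝ V]
variable {ι : Type*}

theorem exists_ch [FiniteDimensional ℝ V] [Finite ι] {N : ι → V}
    (hspan : ∀ v, (∀ i, inner ℝ (N i) v = 0) → v = 0) : ∃ R, IsCh N R := by
  obtain ⟨b, hb1, hb2⟩ := exists_simplicial (fun i => innerₛₗ ℝ (N i)) (by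
    intro v hv
    exact hspan v (fun i => hv i))
  have hφ : ∀ i v, innerₛₗ ℝ (N i) v = inner ℝ (N i) v := fun i v => rfl
  have hne : ∀ k, b k ≠ 0 := fun k => b.ne_zero k
  have hpos : ∀ k, 0 < ‖b k‖⁻¹ := fun k => inv_pos.mpr (norm_pos_iff.mpr (hne k))
  have hli : LinearIndependent ℝ (fun k => ‖b k‖⁻¹ • b k) := by
    have h1 := b.linearIndependent.units_smul (fun k => Units.mk0 (‖b k‖⁻¹) (hpos k).ne')
    exact h1
  have hinj : Function.Injective (fun k => ‖b k‖⁻¹ • b k) := hli.injective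
  refine ⟨Finset.univ.image (fun k => ‖b k‖⁻¹ • b k), ⟨?_, ?_, ?_, ?_, ?_⟩⟩
  · intro p hp
    obtain ⟨k, -, rfl⟩ := Finset.mem_image.mp hp
    rw [norm_smul, norm_inv, norm_norm, inv_mul_cancel₀ (norm_ne_zero_iff.mpr (hne k))]
  · have h1 : LinearIndepOn ℝ id (Set.range (fun k => ‖b k‖⁻¹ • b k)) := hli.linearIndepOn_id
    have h2 : (Set.range (fun k => ‖b k‖⁻¹ • b k)) =
        ((Finset.univ.image (fun k => ‖b k‖⁻¹ • b k) : Finset V) : Set V) := by
      ext x; simp
    rw [h2] at h1
    exact h1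
  · rw [Finset.card_image_of_injective _ hinj, Finset.card_univ, Fintype.card_fin]
  · intro i
    rcases hb1 i with h | h
    · left
      intro p hp
      obtain ⟨k, -, rfl⟩ := Finset.mem_image.mp hp
      rw [inner_smul_right]
      exact mul_nonneg (hpos k).le (h k)
    · right
      intro p hp
      obtain ⟨k, -, rfl⟩ := Finset.mem_image.mp hp
      rw [inner_smul_right]
      exact mul_nonpos_of_nonneg_of_nonpos (hpos k).le (h k)
  · intro p hp
    obtain ⟨k, -, rfl⟩ := Finset.mem_image.mp hp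
    obtain ⟨i, -, hi⟩ := hb2 k
    refine ⟨i, fun q hq hqp => ?_⟩
    obtain ⟨l, -, rfl⟩ := Finset.mem_image.mp hq
    have hlk : l ≠ k := by
      rintro rfl; exact hqp rfl
    rw [inner_smul_right]
    have := hi l hlk
    rw [hφ] at this
    rw [this, mul_zero]

end Pool.Agent.Helper15.Iso
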