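import Mathlib
import Pool.Agent.Helper15.Iso.Chamber
set_option autoImplicit false
open Module Finset
open scoped Classical

namespace Pool.Agent.Helper15.Iso
variable {V : Type*} [NormedAddCommGroup V] [InnerProductSpace ℝ V]
variable {ι : Type*}

/-- a point of a subspace avoiding finitely many hyperplanes -/
theorem exists_generic [Finite ι] (N : ι → V) (X : Submodule ℝ V) (K : ι → Prop)
    (h : ∀ k, K k → ∃ y ∈ X, inner ℝ (N k) y ≠ 0) :
    ∃ z ∈ X, ∀ k, K k → inner ℝ (N k) z ≠ 0 := by
  have := Fintype.ofFinite ι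
  set f : ι → Submodule ℝ X := fun k => LinearMap.ker ((innerₛₗ ℝ (N k)).domRestrict X) with hf
  set s : Finset (Submodule ℝ X) := (Finset.univ.filter K).image f with hs
  have htop : ⊤ ∉ s := by
    intro ht
    rw [hs, Finset.mem_image] at ht
    obtain ⟨k, hk, hkt⟩ := ht
    obtain ⟨y, hy, hy0⟩ := h k (Finset.mem_filter.mp hk).2
    apply hy0
    have h1 : (⟨y, hy⟩ : X) ∈ f k := by rw [hkt]; exact Submodule.mem_top
    have h2 := LinearMap.mem_ker.mp h1
    exact h2
  have hne := Subspace.biUnion_ne_univ_of_top_notMem htop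
  obtain ⟨z, hz⟩ := (Set.ne_univ_iff_exists_notMem _).mp hne
  refine ⟨z, z.2, ?_⟩
  intro k hk h0
  apply hz
  rw [Set.mem_iUnion₂]
  refine ⟨f k, Finset.mem_image.mpr ⟨k, Finset.mem_filter.mpr ⟨Finset.mem_univ _, hk⟩, rfl⟩, ?_⟩
  show z ∈ f k
  rw [hf]
  exact LinearMap.mem_ker.mpr h0

/-- every two hyperplanes contain a common codimension 2 face of some chamber -/
theorem exists_face [FiniteDimensional ℝ V] [Finite ι] {N : ι → V} (hA : Arr N) (hS : Simp N)
    (i j : ι) (hij : i ≠ j) :
    ∃ R, IsCh N R ∧ ∃ p ∈ R, ∃ s ∈ R, p ≠ s ∧ (∀ q ∈ R, q ≠ p → q ≠ s → inner ℝ (N i) q = 0) ∧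
      (∀ q ∈ R, q ≠ p → q ≠ s → inner ℝ (N j) q = 0) := by
  set S : Submodule ℝ V := Submodule.span ℝ {N i, N j} with hSdef
  have hiS : N i ∈ S := Submodule.subset_span (by simp)
  have hjS : N j ∈ S := Submodule.subset_span (by simp)
  -- step 1
  obtain ⟨z, hzX, hz⟩ := exists_generic N Sᗮ (fun k => N k ∉ S) (by
    intro k hk
    by_contra hcon
    push Not at hcon
    apply hk
    have h1 : N k ∈ Sᗮᗮ := by
      rw [Submodule.mem_orthogonal]
      intro y hy
      rw [real_inner_comm]
      exact hcon y hy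
    rwa [Submodule.orthogonal_orthogonal] at h1)
  have hzi : inner ℝ (N i) z = 0 := (Submodule.mem_orthogonal _ _).mp hzX _ hiS
  have hzj : inner ℝ (N j) z = 0 := (Submodule.mem_orthogonal _ _).mp hzX _ hjS
  obtain ⟨x0, _, hx0⟩ := exists_generic N ⊤ (fun _ => True) (by
    intro k _
    refine ⟨N k, Submodule.mem_top, ?_⟩
    rw [real_inner_self_eq_norm_sq, hA.unit k]; norm_num)
  -- step 2
  have hev : ∀ᶠ δ : ℝ in nhdsWithin 0 (Set.Ioi 0), ∀ k, inner ℝ (N k) z ≠ 0 →
      0 < inner ℝ (N k) z * inner ℝ (N k) (z + δ • x0) := by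
    rw [Filter.eventually_all]
    intro k
    by_cases hk : inner ℝ (N k) z = 0
    · exact Filter.Eventually.of_forall fun δ h => absurd hk h
    · have hc : Filter.Tendsto (fun δ : ℝ => inner ℝ (N k) z * inner ℝ (N k) (z + δ • x0))
          (nhds 0) (nhds (inner ℝ (N k) z * inner ℝ (N k) (z + (0 : ℝ) • x0))) := by
        apply Continuous.tendsto
        fun_prop
      have hpos : 0 < inner ℝ (N k) z * inner ℝ (N k) (z + (0 : ℝ) • x0) := by
        rw [zero_smul, add_zero]
        exact mul_self_pos.mpr hk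
      have := (hc.eventually (lt_mem_nhds hpos)).filter_mono
        (nhdsWithin_le_nhds (s := Set.Ioi (0 : ℝ)))
      exact this.mono fun δ h _ => h
  obtain ⟨δ, hδ1, hδ⟩ := (hev.and self_mem_nhdsWithin).exists
  have hδpos : 0 < δ := hδ
  have hgen : Gen N (z + δ • x0) := by
    intro k
    by_cases hk : inner ℝ (N k) z = 0
    · rw [inner_add_right, hk, zero_add, inner_smul_right]
      exact mul_ne_zero hδpos.ne' (hx0 k trivial)
    · have := hδ1 k hk
      intro h0
      rw [h0, mul_zero] at this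
      exact lt_irrefl _ this
  obtain ⟨R, hR, hsg⟩ := hS _ hgen
  have hzsign : ∀ k, 0 ≤ inner ℝ (N k) (ctr R) * inner ℝ (N k) z := by
    intro k
    by_cases hk : inner ℝ (N k) z = 0
    · rw [hk, mul_zero]
    · have h1 := hδ1 k hk
      have h2 := hsg k
      have h3 := mul_pos h1 h2
      have h4 : 0 < inner ℝ (N k) (z + δ • x0) ^ 2 := by
        have := hgen k
        positivity
      have h5 : inner ℝ (N k) z * inner ℝ (N k) (z + δ • x0) *
          (inner ℝ (N k) (z + δ • x0) * inner ℝ (N k) (ctr R)) =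
          inner ℝ (N k) (z + δ • x0) ^ 2 * (inner ℝ (N k) (ctr R) * inner ℝ (N k) z) := by ring
      rw [h5] at h3
      exact (pos_of_mul_pos_right h3 h4.le).le
  -- step 3
  have hnuctr : ∀ q ∈ R, inner ℝ (nu R q) (ctr R) = inner ℝ (nu R q) q := by
    intro q hq
    obtain ⟨_, h0, _⟩ := nu_spec hR.li hR.card hq
    rw [ctr, inner_sum, Finset.sum_eq_single q]
    · intro p hp hpq
      exact h0 p hp hpq
    · intro h; exact absurd hq h
  have hnuz : ∀ q ∈ R, 0 ≤ inner ℝ (nu R q) z := by
    intro q hq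
    obtain ⟨_, _, h1⟩ := nu_spec hR.li hR.card hq
    rw [← hnuctr q hq] at h1
    obtain ⟨k, hk⟩ := nu_arr hA hR hq
    have h2 : inner ℝ (nu R q) (ctr R) * inner ℝ (nu R q) z =
        inner ℝ (N k) (ctr R) * inner ℝ (N k) z := by
      rcases hk with hk | hk
      · rw [hk]
      · rw [hk, inner_neg_left, inner_neg_left]; ring
    have h3 := hzsign k
    rw [← h2] at h3
    exact nonneg_of_mul_nonneg_right h3 h1
  have hexp := basis_expand hR.li hR.card z
  set D := R.filter fun q => inner ℝ (nu R q) z = 0 with hD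
  have hDS : ∀ q ∈ D, nu R q ∈ S := by
    intro q hq
    obtain ⟨hqR, hq0⟩ := Finset.mem_filter.mp hq
    obtain ⟨k, hk⟩ := nu_arr hA hR hqR
    have h1 : inner ℝ (N k) z = 0 := by
      rcases hk with hk | hk
      · rw [hk] at hq0; exact hq0
      · rw [hk, inner_neg_left, neg_eq_zero] at hq0; exact hq0
    have h2 : N k ∈ S := by
      by_contra h
      exact hz k h h1
    rcases hk with hk | hk
    · rw [hk]; exact h2
    · rw [hk]; exact S.neg_mem h2
  have hDcard : D.card ≤ 2 := by
    have hli : LinearIndependent ℝ (fun q : D => (⟨nu R q, hDS q q.2⟩ : S)) := by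
      apply LinearIndependent.of_comp S.subtype
      rw [linearIndependent_iff']
      intro s g hg p hp
      have hpR : (p : V) ∈ R := (Finset.mem_filter.mp p.2).1
      obtain ⟨_, _, h1⟩ := nu_spec hR.li hR.card hpR
      have h2 := congrArg (fun v => inner ℝ v (p : V)) hg
      simp only [inner_zero_left, sum_inner, Function.comp_apply, Submodule.subtype_apply,
        inner_smul_left] at h2
      rw [Finset.sum_eq_single p] at h2
      · rcases mul_eq_zero.mp h2 with h3 | h3
        · simpa using h3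
        · exact absurd h3 h1.ne'
      · intro q hq hqp
        have hqR : (q : V) ∈ R := (Finset.mem_filter.mp q.2).1
        obtain ⟨_, h0, _⟩ := nu_spec hR.li hR.card hqR
        rw [h0 p hpR (fun h => hqp (Subtype.ext h.symm)), mul_zero]
      · intro h; exact absurd hp h
    have h1 := hli.fintype_card_le_finrank
    rw [Fintype.card_coe] at h1
    refine h1.trans ?_
    have h2 := finrank_span_finset_le_card (R := ℝ) ({N i, N j} : Finset V)
    have h3 : (({N i, N j} : Finset V) : Set V) = {N i, N j} := by simp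
    rw [Set.finrank, h3] at h2
    exact h2.trans Finset.card_le_two
  have hRcard : 2 ≤ R.card := by
    rw [hR.card]
    by_contra hcon
    have h1 : finrank ℝ V ≤ 1 := by omega
    obtain ⟨v, hv⟩ := finrank_le_one_iff.mp h1
    obtain ⟨a, ha⟩ := hv (N i)
    obtain ⟨b, hb⟩ := hv (N j)
    have ha1 := hA.unit i
    have hb1 := hA.unit j
    rw [← ha, norm_smul, Real.norm_eq_abs] at ha1
    rw [← hb, norm_smul, Real.norm_eq_abs] at hb1
    have hv0 : ‖v‖ ≠ 0 := by
      intro h
      rw [h, mul_zero] at ha1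
      norm_num at ha1
    have hab : |a| = |b| := by
      have : |a| * ‖v‖ = |b| * ‖v‖ := by rw [ha1, hb1]
      exact mul_right_cancel₀ hv0 this
    rcases abs_eq_abs.mp hab with h | h
    · exact (hA.par i j hij).1 (by rw [← ha, ← hb, h])
    · exact (hA.par i j hij).2 (by rw [← ha, ← hb, h, neg_smul])
  obtain ⟨u, hDu, huR, hucard⟩ := Finset.exists_subsuperset_card_eq
    (Finset.filter_subset _ R : D ⊆ R) hDcard hRcard
  obtain ⟨p, s, hps, rfl⟩ := Finset.card_eq_two.mp hucard
  have hpos : ∀ q ∈ R, q ≠ p → q ≠ s → 0 < inner ℝ (nu R q) z / inner ℝ (nu R q) q := by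
    intro q hq hqp hqs
    obtain ⟨_, _, h1⟩ := nu_spec hR.li hR.card hq
    apply div_pos _ h1
    apply lt_of_le_of_ne (hnuz q hq)
    intro h0
    have : q ∈ D := Finset.mem_filter.mpr ⟨hq, h0.symm⟩
    have := hDu this
    rw [Finset.mem_insert, Finset.mem_singleton] at this
    rcases this with h | h
    · exact hqp h
    · exact hqs h
  have hfin : ∀ k, inner ℝ (N k) z = 0 → ∀ q ∈ R, q ≠ p → q ≠ s → inner ℝ (N k) q = 0 := by
    intro k hk q hq hqp hqs
    have hsum : ∑ r ∈ R, (inner ℝ (nu R r) z / inner ℝ (nu R r) r) * inner ℝ (N k) r = 0 := by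
      have h1 := hk
      rw [hexp, inner_sum] at h1
      rw [← h1]
      apply Finset.sum_congr rfl
      intro r _
      rw [inner_smul_right]
    have hcn : ∀ r ∈ R, 0 ≤ inner ℝ (nu R r) z / inner ℝ (nu R r) r := by
      intro r hr
      obtain ⟨_, _, h1⟩ := nu_spec hR.li hR.card hr
      exact div_nonneg (hnuz r hr) h1.le
    have hterm : (inner ℝ (nu R q) z / inner ℝ (nu R q) q) * inner ℝ (N k) q = 0 := by
      rcases hR.sgn k with h | h
      · exact (Finset.sum_eq_zero_iff_of_nonneg
          (fun r hr => mul_nonneg (hcn r hr) (h r hr))).mp hsum q hq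
      · exact (Finset.sum_eq_zero_iff_of_nonpos
          (fun r hr => mul_nonpos_of_nonneg_of_nonpos (hcn r hr) (h r hr))).mp hsum q hq
    rcases mul_eq_zero.mp hterm with h | h
    · exact absurd h (hpos q hq hqp hqs).ne'
    · exact h
  refine ⟨R, hR, p, huR (by simp), s, huR (by simp), hps, hfin i hzi, hfin j hzj⟩

end Pool.Agent.Helper15.Iso
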