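import Mathlib
import Pool.Agent.Helper15.Iso.Basis
import Pool.Agent.Helper15.Iso.Bordered
set_option autoImplicit false
open Module Finset
open scoped Classical

namespace Pool.Agent.Helper15.Iso
variable {V : Type*} [NormedAddCommGroup V] [InnerProductSpace ℝ V]
variable {ι : Type*}

/-- the elimination computation for one simplex -/
theorem foot_side [FiniteDimensional ℝ V] (F : Finset V) (p : V) (hp : p ∉ F)
    (hu : ‖p‖ = 1)
    (hli : LinearIndependent ℝ (fun x : (insert p F : Finset V) => (x : V)))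
    (hcard : F.card + 1 = finrank ℝ V)
    (n : V) (hn : ‖n‖ = 1) (hnF : ∀ x ∈ F, inner ℝ n x = 0)
    (q : V) (hq : ∀ x ∈ insert p F, inner ℝ q x = 1) :
    (Matrix.fromBlocks (Matrix.of fun i j : F => (inner ℝ (i : V) (j : V) : ℝ))
      (Matrix.replicateCol Unit (fun x : F => (inner ℝ (x : V) p : ℝ)))
      (Matrix.replicateRow Unit (fun x : F => (inner ℝ (x : V) p : ℝ))) (1 : Matrix Unit Unit ℝ)).det =
      (Matrix.of fun i j : F => (inner ℝ (i : V) (j : V) : ℝ)).det * (inner ℝ n p * inner ℝ n p) ∧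
    (Matrix.fromBlocks (Matrix.of fun i j : F => (inner ℝ (i : V) (j : V) : ℝ))
      (Matrix.replicateCol Unit (fun _ => (1:ℝ)))
      (Matrix.replicateRow Unit (fun x : F => (inner ℝ (x : V) p : ℝ))) (1 : Matrix Unit Unit ℝ)).det =
      (Matrix.of fun i j : F => (inner ℝ (i : V) (j : V) : ℝ)).det * (inner ℝ n p * inner ℝ q n) := by
  classical
  have hliF : LinearIndependent ℝ (fun x : F => (x : V)) := by
    have h := hli.comp (fun x : F => (⟨x.1, Finset.mem_insert_of_mem x.2⟩ : (insert p F : Finset V)))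
      (fun a b hab => Subtype.ext (by simpa using congrArg Subtype.val hab))
    exact h
  have hn0 : n ≠ 0 := by rintro rfl; simp at hn
  have hspan : Submodule.span ℝ (F : Set V) = (Submodule.span ℝ {n})ᗮ := by
    refine Submodule.eq_of_le_of_finrank_eq ?_ ?_
    · rw [Submodule.span_le]
      intro x hx
      rw [SetLike.mem_coe, Submodule.mem_orthogonal_singleton_iff_inner_right]
      exact hnF x hx
    · haveI : Fact (finrank ℝ V = F.card + 1) := ⟨hcard.symm⟩
      rw [Submodule.finrank_orthogonal_span_singleton (n := F.card) hn0]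
      have := finrank_span_eq_card hliF
      rw [Fintype.card_coe] at this
      have hr : Submodule.span ℝ (Set.range (fun x : F => (x : V))) = Submodule.span ℝ (F : Set V) := by
        congr 1
        ext x; simp
      rw [hr] at this
      exact this
  set w : V := p - (inner ℝ n p : ℝ) • n with hw
  have hwn : w ∈ Submodule.span ℝ (F : Set V) := by
    rw [hspan, Submodule.mem_orthogonal_singleton_iff_inner_right, hw, inner_sub_right, inner_smul_right,
      real_inner_self_eq_norm_sq, hn]; ring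
  obtain ⟨t, ht⟩ : ∃ t : F → ℝ, ∑ x : F, t x • (x : V) = w := by
    have h1 : w ∈ Submodule.span ℝ (Set.range (fun x : F => (x : V))) := by
      convert hwn using 2
      ext x; simp
    obtain ⟨t, ht⟩ := (Submodule.mem_span_range_iff_exists_fun ℝ).1 h1
    exact ⟨t, ht⟩
  have hpw : p = w + (inner ℝ n p : ℝ) • n := by rw [hw]; abel
  have hxn : ∀ x : F, (inner ℝ (x : V) n : ℝ) = 0 := fun x => by rw [real_inner_comm]; exact hnF x x.2
  -- c x = ∑ y, t y * <y, x>
  have hc : ∀ x : F, (inner ℝ (x : V) p : ℝ) = ∑ y : F, t y * inner ℝ (y : V) (x : V) := by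
    intro x
    conv_lhs => rw [hpw, inner_add_right, inner_smul_right, hxn x, mul_zero, add_zero, ← ht, inner_sum]
    refine Finset.sum_congr rfl fun y _ => ?_
    rw [inner_smul_right, real_inner_comm]
  have hwp : (∑ y : F, t y * inner ℝ (y : V) p : ℝ) = 1 - inner ℝ n p * inner ℝ n p := by
    have h1 : (inner ℝ p p : ℝ) = 1 := by rw [real_inner_self_eq_norm_sq, hu]; norm_num
    have h2 : (inner ℝ w p : ℝ) = ∑ y : F, t y * inner ℝ (y : V) p := by
      rw [← ht, sum_inner]
      refine Finset.sum_congr rfl fun y _ => ?_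
      rw [real_inner_smul_left]
    rw [← h2, hw, inner_sub_left, real_inner_smul_left, h1]
  have hqw : (∑ y : F, t y : ℝ) = 1 - inner ℝ n p * inner ℝ q n := by
    have h1 : (inner ℝ q p : ℝ) = 1 := hq p (Finset.mem_insert_self _ _)
    have h2 : (inner ℝ q w : ℝ) = ∑ y : F, t y := by
      rw [← ht, inner_sum]
      refine Finset.sum_congr rfl fun y _ => ?_
      rw [inner_smul_right, hq y (Finset.mem_insert_of_mem y.2), mul_one]
    rw [← h2, hw, inner_sub_right, inner_smul_right, h1]
  set G : Matrix F F ℝ := Matrix.of fun i j : F => (inner ℝ (i : V) (j : V) : ℝ) with hG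
  have key : ∀ (b : F → ℝ) (s : ℝ), (∑ y : F, t y * b y) + s = 1 →
      (Matrix.fromBlocks G (Matrix.replicateCol Unit b)
        (Matrix.replicateRow Unit (fun x : F => (inner ℝ (x : V) p : ℝ))) (1 : Matrix Unit Unit ℝ)).det = G.det * s := by
    intro b s hs
    have h1 : Matrix.fromBlocks G (Matrix.replicateCol Unit b)
        (Matrix.replicateRow Unit (fun x : F => (inner ℝ (x : V) p : ℝ))) (1 : Matrix Unit Unit ℝ) =
        Matrix.fromBlocks (1 : Matrix F F ℝ) 0 (Matrix.replicateRow Unit t) (1 : Matrix Unit Unit ℝ) *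
        Matrix.fromBlocks G (Matrix.replicateCol Unit b) 0 (Matrix.of fun _ _ : Unit => s) := by
      rw [Matrix.fromBlocks_multiply]
      congr 1
      · simp
      · simp
      · ext a x
        simp only [Matrix.replicateRow_apply, Matrix.mul_apply, Matrix.add_apply, Matrix.mul_zero, Matrix.zero_apply, add_zero]
        rw [hc x]
        rfl
      · ext a x
        simp only [Matrix.mul_apply, Matrix.add_apply, Matrix.replicateRow_apply, Matrix.replicateCol_apply]
        have e1 : (∑ j : Unit, (1 : Matrix Unit Unit ℝ) a j * Matrix.of (fun _ _ : Unit => s) j x) = s := by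
          simp
        have e2 : (1 : Matrix Unit Unit ℝ) a x = 1 := by simp
        rw [e1, e2, hs]
    rw [h1, Matrix.det_mul, Matrix.det_fromBlocks_zero₁₂, Matrix.det_fromBlocks_zero₂₁]
    simp
  constructor
  · exact key _ _ (by rw [hwp]; ring)
  · refine key _ _ ?_
    simp only [mul_one]
    rw [hqw]; ring

theorem foot_eq [FiniteDimensional ℝ V] (F : Finset V) (p p' : V) (hp : p ∉ F) (hp' : p' ∉ F)
    (hu : ∀ x ∈ insert p F, ‖x‖ = 1) (hu' : ∀ x ∈ insert p' F, ‖x‖ = 1)
    (hli : LinearIndependent ℝ (fun x : (insert p F : Finset V) => (x : V)))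
    (hli' : LinearIndependent ℝ (fun x : (insert p' F : Finset V) => (x : V)))
    (hcard : F.card + 1 = finrank ℝ V)
    (g : V ≃ₗᵢ[ℝ] V) (hg : (insert p F).image g = insert p' F)
    (n n' : V) (hn : ‖n‖ = 1) (hn' : ‖n'‖ = 1) (hnF : ∀ x ∈ F, inner ℝ n x = 0)
    (hnF' : ∀ x ∈ F, inner ℝ n' x = 0) (hnp : 0 < inner ℝ n p) (hnp' : 0 < inner ℝ n' p')
    (q q' : V) (hq : ∀ x ∈ insert p F, inner ℝ q x = 1) (hq' : ∀ x ∈ insert p' F, inner ℝ q' x = 1) :
    inner ℝ q n = inner ℝ q' n' ∧ inner ℝ n p = inner ℝ n' p' := by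
  classical
  have hpu : ‖p‖ = 1 := hu p (Finset.mem_insert_self _ _)
  have hpu' : ‖p'‖ = 1 := hu' p' (Finset.mem_insert_self _ _)
  obtain ⟨h1, h2⟩ := foot_side F p hp hpu hli hcard n hn hnF q hq
  obtain ⟨h1', h2'⟩ := foot_side F p' hp' hpu' hli' hcard n' hn' hnF' q' hq'
  set G : Matrix F F ℝ := Matrix.of fun i j : F => (inner ℝ (i : V) (j : V) : ℝ) with hG
  -- families
  let v : F ⊕ Unit → V := Sum.elim (fun x => (x : V)) (fun _ => p)
  let v' : F ⊕ Unit → V := Sum.elim (fun x => (x : V)) (fun _ => p')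
  have hvinj : ∀ (r : V), r ∉ F → Function.Injective (Sum.elim (fun x : F => (x : V)) (fun _ : Unit => r)) := by
    intro r hr a b hab
    rcases a with a | a <;> rcases b with b | b
    · simp only [Sum.elim_inl] at hab; rw [Subtype.ext hab]
    · simp only [Sum.elim_inl, Sum.elim_inr] at hab; exact absurd (hab ▸ a.2) hr
    · simp only [Sum.elim_inl, Sum.elim_inr] at hab; exact absurd (hab ▸ b.2) hr
    · rfl
  have hgram : ∀ (r : V), ‖r‖ = 1 → Matrix.fromBlocks G
      (Matrix.replicateCol Unit (fun x : F => (inner ℝ (x : V) r : ℝ)))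
      (Matrix.replicateRow Unit (fun x : F => (inner ℝ (x : V) r : ℝ))) (1 : Matrix Unit Unit ℝ) =
      Matrix.gram ℝ (Sum.elim (fun x : F => (x : V)) (fun _ : Unit => r)) := by
    intro r hr
    ext a b
    rcases a with a | a <;> rcases b with b | b
    · simp [Matrix.gram_apply, hG]
    · simp [Matrix.gram_apply]
    · simp [Matrix.gram_apply, real_inner_comm]
    · simp [Matrix.gram_apply, real_inner_self_eq_norm_sq, hr]
  have hlv : ∀ (r : V), r ∉ F → LinearIndependent ℝ (fun x : (insert r F : Finset V) => (x : V)) →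
      LinearIndependent ℝ (Sum.elim (fun x : F => (x : V)) (fun _ : Unit => r)) := by
    intro r hr hl
    let u : F ⊕ Unit → (insert r F : Finset V) :=
      Sum.elim (fun x => ⟨x, Finset.mem_insert_of_mem x.2⟩) (fun _ => ⟨r, Finset.mem_insert_self _ _⟩)
    have hu : ∀ a, ((u a : (insert r F : Finset V)) : V) = Sum.elim (fun x : F => (x : V)) (fun _ : Unit => r) a := by
      rintro (a | a) <;> rfl
    have hinj : Function.Injective u := by
      intro a b hab
      apply hvinj r hr
      rw [← hu, ← hu, hab]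
    have := hl.comp u hinj
    convert this using 1
    ext a
    exact (hu a).symm
  have hP : (Matrix.fromBlocks G
      (Matrix.replicateCol Unit (fun x : F => (inner ℝ (x : V) p : ℝ)))
      (Matrix.replicateRow Unit (fun x : F => (inner ℝ (x : V) p : ℝ))) (1 : Matrix Unit Unit ℝ)).PosDef := by
    rw [hgram p hpu]
    exact Matrix.posDef_gram_of_linearIndependent (hlv p hp hli)
  have hP' : (Matrix.fromBlocks G
      (Matrix.replicateCol Unit (fun x : F => (inner ℝ (x : V) p' : ℝ)))
      (Matrix.replicateRow Unit (fun x : F => (inner ℝ (x : V) p' : ℝ))) (1 : Matrix Unit Unit ℝ)).PosDef := by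
    rw [hgram p' hpu']
    exact Matrix.posDef_gram_of_linearIndependent (hlv p' hp' hli')
  -- the permutation
  have hex : ∀ a : F ⊕ Unit, ∃ b : F ⊕ Unit, v' b = g (v a) := by
    intro a
    have ha : v a ∈ insert p F := by
      rcases a with a | a
      · exact Finset.mem_insert_of_mem a.2
      · exact Finset.mem_insert_self _ _
    have hb : g (v a) ∈ insert p' F := by rw [← hg]; exact Finset.mem_image_of_mem _ ha
    rcases Finset.mem_insert.1 hb with h | h
    · exact ⟨Sum.inr (), h.symm⟩
    · exact ⟨Sum.inl ⟨_, h⟩, rfl⟩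
  choose e0 he0 using hex
  have he0inj : Function.Injective e0 := by
    intro a b hab
    have := he0 a
    rw [hab, he0 b] at this
    exact (hvinj p hp (g.injective this)).symm
  let e : F ⊕ Unit ≃ F ⊕ Unit := Equiv.ofBijective e0 ((Finite.injective_iff_bijective).1 he0inj)
  have hee : ∀ a, v' (e a) = g (v a) := he0
  have he : ∀ a b, Matrix.fromBlocks G
      (Matrix.replicateCol Unit (fun x : F => (inner ℝ (x : V) p' : ℝ)))
      (Matrix.replicateRow Unit (fun x : F => (inner ℝ (x : V) p' : ℝ))) (1 : Matrix Unit Unit ℝ) (e a) (e b)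
      = Matrix.fromBlocks G
      (Matrix.replicateCol Unit (fun x : F => (inner ℝ (x : V) p : ℝ)))
      (Matrix.replicateRow Unit (fun x : F => (inner ℝ (x : V) p : ℝ))) (1 : Matrix Unit Unit ℝ) a b := by
    intro a b
    rw [hgram p hpu, hgram p' hpu', Matrix.gram_apply, Matrix.gram_apply]
    show inner ℝ (v' (e a)) (v' (e b)) = inner ℝ (v a) (v b)
    rw [hee, hee, LinearIsometryEquiv.inner_map_map]
  have hX := bordered_eq G _ _ (by
      ext i j; simp [hG, Matrix.transpose_apply, real_inner_comm]) (by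
      intro i; rw [hG, Matrix.of_apply, real_inner_self_eq_norm_sq, hu i (Finset.mem_insert_of_mem i.2)]; norm_num)
      hP hP' e he
  have hdet : (Matrix.fromBlocks G
      (Matrix.replicateCol Unit (fun x : F => (inner ℝ (x : V) p : ℝ)))
      (Matrix.replicateRow Unit (fun x : F => (inner ℝ (x : V) p : ℝ))) (1 : Matrix Unit Unit ℝ)).det =
      (Matrix.fromBlocks G
      (Matrix.replicateCol Unit (fun x : F => (inner ℝ (x : V) p' : ℝ)))
      (Matrix.replicateRow Unit (fun x : F => (inner ℝ (x : V) p' : ℝ))) (1 : Matrix Unit Unit ℝ)).det := by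
    rw [← Matrix.det_submatrix_equiv_self e (Matrix.fromBlocks G
      (Matrix.replicateCol Unit (fun x : F => (inner ℝ (x : V) p' : ℝ)))
      (Matrix.replicateRow Unit (fun x : F => (inner ℝ (x : V) p' : ℝ))) (1 : Matrix Unit Unit ℝ))]
    congr 1
    ext a b
    exact (he a b).symm
  have hdpos := hP.det_pos
  have hG0 : G.det ≠ 0 := by
    intro h0
    rw [h1, h0, zero_mul] at hdpos
    exact lt_irrefl _ hdpos
  rw [h1, h1'] at hdet
  have hsq : (inner ℝ n p : ℝ) * inner ℝ n p = inner ℝ n' p' * inner ℝ n' p' := mul_left_cancel₀ hG0 hdet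
  have heq : (inner ℝ n p : ℝ) = inner ℝ n' p' := by
    nlinarith [hnp, hnp', hsq, sq_nonneg ((inner ℝ n p : ℝ) - inner ℝ n' p')]
  rw [h2, h2'] at hX
  have h5 := mul_left_cancel₀ hG0 hX
  refine ⟨?_, heq⟩
  rw [heq] at h5
  exact mul_left_cancel₀ hnp'.ne' h5

end Pool.Agent.Helper15.Iso
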