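import Mathlib
set_option autoImplicit false
open Module
open scoped Classical

namespace Pool.Agent.Helper15.Iso
variable {V : Type*} [NormedAddCommGroup V] [InnerProductSpace ℝ V]

/-- Gram determinant of a finite set of vectors. -/
noncomputable def GD (S : Finset V) : ℝ := (Matrix.gram ℝ (fun x : S => (x : V))).det

/-- Job C1 -/
theorem GD_insert (S : Finset V) (x y z : V) (hx : x ∉ S) (hy : y ∈ Submodule.span ℝ (S : Set V))
    (hz : ∀ s ∈ S, inner ℝ z s = 0) (hxyz : x = y + z) :
    GD (insert x S) = GD S * ‖z‖ ^ 2 := by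
  -- coordinates of `y`
  have hy' : y ∈ Submodule.span ℝ (Set.range (fun s : S => (s : V))) := by
    have : Set.range (fun s : S => (s : V)) = (S : Set V) := by
      ext v; simp
    rw [this]; exact hy
  obtain ⟨lam, hlam⟩ := (Submodule.mem_span_range_iff_exists_fun ℝ).1 hy'
  have hzy : inner ℝ z y = 0 := by
    rw [← hlam, inner_sum]
    refine Finset.sum_eq_zero fun s _ => ?_
    rw [inner_smul_right, hz s s.2, mul_zero]
  -- the equivalence
  let φ : S ⊕ Unit → ((insert x S : Finset V) : Type _) :=
    Sum.elim (fun s => ⟨s, Finset.mem_insert_of_mem s.2⟩) (fun _ => ⟨x, Finset.mem_insert_self x S⟩)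
  have hφ : Function.Bijective φ := by
    constructor
    · rintro (a | a) (b | b) hab
      · simp only [φ, Sum.elim_inl, Subtype.mk.injEq] at hab
        rw [Subtype.ext hab]
      · simp only [φ, Sum.elim_inl, Sum.elim_inr, Subtype.mk.injEq] at hab
        exact absurd (hab ▸ a.2) hx
      · simp only [φ, Sum.elim_inl, Sum.elim_inr, Subtype.mk.injEq] at hab
        exact absurd (hab ▸ b.2) hx
      · rfl
    · rintro ⟨v, hv⟩
      rcases Finset.mem_insert.1 hv with h | h
      · exact ⟨Sum.inr (), Subtype.ext h.symm⟩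
      · exact ⟨Sum.inl ⟨v, h⟩, rfl⟩
  let e : S ⊕ Unit ≃ ((insert x S : Finset V) : Type _) := Equiv.ofBijective φ hφ
  have h1 : GD (insert x S) = (Matrix.fromBlocks (Matrix.gram ℝ (fun s : S => (s : V)))
      (Matrix.of fun (s : S) (_ : Unit) => (inner ℝ (s : V) x : ℝ))
      (Matrix.of fun (_ : Unit) (s : S) => (inner ℝ x (s : V) : ℝ))
      (Matrix.of fun (_ : Unit) (_ : Unit) => (inner ℝ x x : ℝ))).det := by
    unfold GD
    rw [← Matrix.det_submatrix_equiv_self e]
    congr 1
    ext i j
    rcases i with i | i <;> rcases j with j | j <;>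
      simp [e, φ, Matrix.submatrix_apply, Matrix.fromBlocks]
  have h2 : (Matrix.fromBlocks (1 : Matrix S S ℝ) 0
      (Matrix.of fun (_ : Unit) (s : S) => -lam s) (1 : Matrix Unit Unit ℝ)).det = 1 := by
    rw [Matrix.det_fromBlocks_zero₁₂]; simp
  have h3 : (Matrix.fromBlocks (1 : Matrix S S ℝ) 0
      (Matrix.of fun (_ : Unit) (s : S) => -lam s) (1 : Matrix Unit Unit ℝ)) *
      (Matrix.fromBlocks (Matrix.gram ℝ (fun s : S => (s : V)))
      (Matrix.of fun (s : S) (_ : Unit) => (inner ℝ (s : V) x : ℝ))
      (Matrix.of fun (_ : Unit) (s : S) => (inner ℝ x (s : V) : ℝ))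
      (Matrix.of fun (_ : Unit) (_ : Unit) => (inner ℝ x x : ℝ))) =
      Matrix.fromBlocks (Matrix.gram ℝ (fun s : S => (s : V)))
      (Matrix.of fun (s : S) (_ : Unit) => (inner ℝ (s : V) x : ℝ)) 0
      (Matrix.of fun (_ : Unit) (_ : Unit) => (‖z‖ ^ 2 : ℝ)) := by
    rw [Matrix.fromBlocks_multiply]
    congr 1
    · simp
    · simp
    · rw [Matrix.one_mul]
      ext i j
      simp only [Matrix.add_apply, Matrix.mul_apply, Matrix.of_apply, Matrix.gram_apply,
        Matrix.zero_apply]
      have : ∑ s : S, -lam s * inner ℝ (s : V) (j : V) = - inner ℝ y (j : V) := by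
        rw [← hlam, sum_inner, ← Finset.sum_neg_distrib]
        refine Finset.sum_congr rfl fun s _ => ?_
        rw [real_inner_smul_left]; ring
      rw [this, hxyz, inner_add_left, hz j j.2]
      ring
    · rw [Matrix.one_mul]
      ext i j
      simp only [Matrix.add_apply, Matrix.mul_apply, Matrix.of_apply]
      have : ∑ s : S, -lam s * inner ℝ (s : V) x = - inner ℝ y x := by
        rw [← hlam, sum_inner, ← Finset.sum_neg_distrib]
        refine Finset.sum_congr rfl fun s _ => ?_
        rw [real_inner_smul_left]; ring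
      rw [this, hxyz, inner_add_left, inner_add_right, inner_add_right, hzy,
        real_inner_self_eq_norm_sq z]
      ring
  have h4 := congrArg Matrix.det h3
  rw [Matrix.det_mul, h2, one_mul, Matrix.det_fromBlocks_zero₂₁] at h4
  rw [h1, h4]
  unfold GD
  simp

/-- Job C2 -/
theorem GD_pos (S : Finset V) (h : LinearIndependent ℝ (fun x : S => (x : V))) : 0 < GD S := by
  unfold GD
  exact (Matrix.posDef_gram_of_linearIndependent h).det_pos

/-- Job C3 -/
theorem GD_image (g : V ≃ₗᵢ[ℝ] V) (S : Finset V) : GD (S.image g) = GD S := by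
  let φ : S → ((S.image g : Finset V) : Type _) := fun s => ⟨g s, Finset.mem_image_of_mem g s.2⟩
  have hφ : Function.Bijective φ := by
    constructor
    · intro a b hab
      simp only [φ, Subtype.mk.injEq] at hab
      exact Subtype.ext (g.injective hab)
    · rintro ⟨v, hv⟩
      obtain ⟨s, hs, rfl⟩ := Finset.mem_image.1 hv
      exact ⟨⟨s, hs⟩, rfl⟩
  let e : S ≃ ((S.image g : Finset V) : Type _) := Equiv.ofBijective φ hφ
  unfold GD
  rw [← Matrix.det_submatrix_equiv_self e]
  congr 1
  ext i j
  simp [e, φ, Matrix.submatrix_apply]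

theorem inner_span_zero {T : Set V} {n w : V} (h : ∀ s ∈ T, inner ℝ n s = 0)
    (hw : w ∈ Submodule.span ℝ T) : inner ℝ n w = 0 := by
  induction hw using Submodule.span_induction with
  | mem x hx => exact h x hx
  | zero => simp
  | add x y _ _ hx hy => rw [inner_add_right, hx, hy, add_zero]
  | smul a x _ hx => rw [inner_smul_right, hx, mul_zero]

theorem span_top [FiniteDimensional ℝ V] (R : Finset V)
    (hli : LinearIndependent ℝ (fun x : R => (x : V))) (hcard : R.card = finrank ℝ V) :
    Submodule.span ℝ (R : Set V) = ⊤ := by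
  have h := hli.span_eq_top_of_card_eq_finrank' (by simpa using hcard)
  have h2 : Set.range (fun s : R => (s : V)) = (R : Set V) := by
    ext v; simp
  rwa [h2] at h

theorem inner_ne [FiniteDimensional ℝ V] (R : Finset V)
    (hli : LinearIndependent ℝ (fun x : R => (x : V))) (hcard : R.card = finrank ℝ V)
    (p : V) (n : V) (hn : ‖n‖ = 1) (hnR : ∀ q ∈ R, q ≠ p → inner ℝ n q = 0) :
    inner ℝ n p ≠ 0 := by
  intro h0
  have h1 : ∀ s ∈ (R : Set V), inner ℝ n s = 0 := by
    intro s hs
    by_cases h : s = p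
    · rw [h, h0]
    · exact hnR s hs h
  have h2 : inner ℝ n n = 0 := inner_span_zero h1 (by rw [span_top R hli hcard]; trivial)
  rw [inner_self_eq_zero] at h2
  rw [h2, norm_zero] at hn
  norm_num at hn

/-- Job C4: height formula -/
theorem GD_height [FiniteDimensional ℝ V] (R : Finset V)
    (hli : LinearIndependent ℝ (fun x : R => (x : V))) (hcard : R.card = finrank ℝ V)
    (p : V) (hp : p ∈ R) (n : V) (hn : ‖n‖ = 1) (hnR : ∀ q ∈ R, q ≠ p → inner ℝ n q = 0) :
    GD R = GD (R.erase p) * (inner ℝ n p) ^ 2 := by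
  have hne := inner_ne R hli hcard p n hn hnR
  set c : ℝ := inner ℝ n p with hc
  have hE : ∀ s ∈ ((R.erase p : Finset V) : Set V), inner ℝ n s = 0 := by
    intro s hs
    have := Finset.mem_erase.1 hs
    exact hnR s this.2 this.1
  have hnn : inner ℝ n n = 1 := by rw [real_inner_self_eq_norm_sq, hn]; norm_num
  have hy : p - c • n ∈ Submodule.span ℝ ((R.erase p : Finset V) : Set V) := by
    have h1 : p - c • n ∈ Submodule.span ℝ (R : Set V) := by
      rw [span_top R hli hcard]; trivial
    have h2 : (R : Set V) = insert p ((R.erase p : Finset V) : Set V) := by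
      rw [← Finset.coe_insert, Finset.insert_erase hp]
    rw [h2, Submodule.mem_span_insert] at h1
    obtain ⟨a, w, hw, haw⟩ := h1
    have h3 : inner ℝ n (p - c • n) = 0 := by
      rw [inner_sub_right, inner_smul_right, hnn, ← hc]; ring
    rw [haw, inner_add_right, inner_smul_right, inner_span_zero hE hw, add_zero, ← hc] at h3
    have ha : a = 0 := (mul_eq_zero.1 h3).resolve_right hne
    rw [haw, ha, zero_smul, zero_add]
    exact hw
  have := GD_insert (R.erase p) p (p - c • n) (c • n) (Finset.notMem_erase p R) hy (by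
    intro s hs
    rw [real_inner_smul_left, hE s hs, mul_zero]) (by abel)
  rw [Finset.insert_erase hp] at this
  rw [this, norm_smul, hn, mul_one, Real.norm_eq_abs, sq_abs]

/-- Job C5: sine law -/
theorem GD_sine [FiniteDimensional ℝ V] (R : Finset V)
    (hli : LinearIndependent ℝ (fun x : R => (x : V))) (hcard : R.card = finrank ℝ V)
    (p p' : V) (hp : p ∈ R) (hp' : p' ∈ R) (hne : p ≠ p') (n n' : V) (hn : ‖n‖ = 1) (hn' : ‖n'‖ = 1)
    (hnR : ∀ q ∈ R, q ≠ p → inner ℝ n q = 0) (hnR' : ∀ q ∈ R, q ≠ p' → inner ℝ n' q = 0) :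
    (1 - (inner ℝ n n') ^ 2) * GD R = GD ((R.erase p).erase p') * (inner ℝ n p * inner ℝ n' p') ^ 2 := by
  have h0 := inner_ne R hli hcard p n hn hnR
  have h0' := inner_ne R hli hcard p' n' hn' hnR'
  have hnn : inner ℝ n n = 1 := by rw [real_inner_self_eq_norm_sq, hn]; norm_num
  have hnn' : inner ℝ n' n' = 1 := by rw [real_inner_self_eq_norm_sq, hn']; norm_num
  have hnp' : inner ℝ n p' = 0 := hnR p' hp' hne.symm
  have hn'p : inner ℝ n' p = 0 := hnR' p hp hne
  set c : ℝ := inner ℝ n n' with hc
  have hcc : inner ℝ n' n = c := by rw [real_inner_comm]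
  have hnorm : ‖n - c • n'‖ ^ 2 = 1 - c ^ 2 := by
    rw [← real_inner_self_eq_norm_sq]
    simp only [inner_sub_left, inner_sub_right, real_inner_smul_left, real_inner_smul_right, hnn,
      hnn', hcc, ← hc]
    ring
  have hc1 : 1 - c ^ 2 ≠ 0 := by
    intro h
    rw [h] at hnorm
    have h1 : n - c • n' = 0 := by
      rw [← norm_eq_zero]
      exact pow_eq_zero_iff (two_ne_zero) |>.1 hnorm
    have h2 : n = c • n' := sub_eq_zero.1 h1
    rw [h2, real_inner_smul_left, hn'p, mul_zero] at h0
    exact h0 rfl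
  set α : ℝ := inner ℝ n p / (1 - c ^ 2) with hα
  set z : V := α • (n - c • n') with hz
  set E : Finset V := (R.erase p).erase p' with hE
  have hEn : ∀ s ∈ (E : Set V), inner ℝ n s = 0 := by
    intro s hs
    have h1 := Finset.mem_erase.1 hs
    have h2 := Finset.mem_erase.1 h1.2
    exact hnR s h2.2 h2.1
  have hEn' : ∀ s ∈ (E : Set V), inner ℝ n' s = 0 := by
    intro s hs
    have h1 := Finset.mem_erase.1 hs
    have h2 := Finset.mem_erase.1 h1.2
    exact hnR' s h2.2 h1.1
  have hnz : inner ℝ n z = inner ℝ n p := by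
    rw [hz, inner_smul_right, inner_sub_right, inner_smul_right, hnn, ← hc, hα]
    field_simp
  have hn'z : inner ℝ n' z = 0 := by
    rw [hz, inner_smul_right, inner_sub_right, inner_smul_right, hnn', hcc]
    ring
  have hy : p - z ∈ Submodule.span ℝ (E : Set V) := by
    have h1 : p - z ∈ Submodule.span ℝ (R : Set V) := by
      rw [span_top R hli hcard]; trivial
    have hpe : p' ∈ R.erase p := Finset.mem_erase.2 ⟨hne.symm, hp'⟩
    have h2 : (R : Set V) = insert p (insert p' (E : Set V)) := by
      rw [← Finset.coe_insert, ← Finset.coe_insert, hE, Finset.insert_erase hpe,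
        Finset.insert_erase hp]
    rw [h2, Submodule.mem_span_insert] at h1
    obtain ⟨a, w, hw, haw⟩ := h1
    rw [Submodule.mem_span_insert] at hw
    obtain ⟨b, w', hw', hbw⟩ := hw
    rw [hbw] at haw
    have h3 : inner ℝ n (p - z) = 0 := by rw [inner_sub_right, hnz]; ring
    have h3' : inner ℝ n' (p - z) = 0 := by rw [inner_sub_right, hn'z, hn'p]; ring
    rw [haw, inner_add_right, inner_add_right, inner_smul_right, inner_smul_right,
      inner_span_zero hEn hw', hnp', mul_zero, add_zero, add_zero] at h3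
    rw [haw, inner_add_right, inner_add_right, inner_smul_right, inner_smul_right,
      inner_span_zero hEn' hw', hn'p, mul_zero, add_zero, zero_add] at h3'
    have ha : a = 0 := (mul_eq_zero.1 h3).resolve_right h0
    have hb : b = 0 := (mul_eq_zero.1 h3').resolve_right h0'
    rw [haw, ha, hb, zero_smul, zero_smul, zero_add, zero_add]
    exact hw'
  have hpE : p ∉ E := by
    rw [hE]
    intro h
    exact Finset.notMem_erase p R (Finset.mem_erase.1 h).2
  have hins : insert p E = R.erase p' := by
    rw [hE, Finset.erase_right_comm]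
    exact Finset.insert_erase (Finset.mem_erase.2 ⟨hne, hp⟩)
  have h4 := GD_insert E p (p - z) z hpE hy (by
    intro s hs
    rw [hz, real_inner_smul_left, inner_sub_left, real_inner_smul_left, hEn s hs, hEn' s hs]
    ring) (by abel)
  rw [hins] at h4
  have h5 := GD_height R hli hcard p' hp' n' hn' hnR'
  have h6 : ‖z‖ ^ 2 = α ^ 2 * (1 - c ^ 2) := by
    rw [hz, norm_smul, mul_pow, hnorm, Real.norm_eq_abs, sq_abs]
  rw [h5, h4, h6, hα]
  field_simp

end Pool.Agent.Helper15.Iso
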