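import Mathlib
import Pool.Agent.Helper15.Iso.Chamber
set_option autoImplicit false
open Module Finset
open scoped Classical

namespace Pool.Agent.Helper15.Iso
variable {V : Type*} [NormedAddCommGroup V] [InnerProductSpace ℝ V]
variable {ι : Type*}

theorem pos_trans {a b c : ℝ} (h1 : 0 < a * b) (h2 : 0 < b * c) : 0 < a * c := by
  have hb : b ≠ 0 := by rintro rfl; simp at h1
  have h3 : 0 < (a * b) * (b * c) := mul_pos h1 h2
  have h4 : (a * b) * (b * c) = (a * c) * b ^ 2 := by ring
  rw [h4] at h3
  exact pos_of_mul_pos_left h3 (by positivity)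

theorem nonneg_trans {a b c : ℝ} (h1 : 0 < a * b) (h2 : 0 ≤ b * c) : 0 ≤ a * c := by
  have hb : b ≠ 0 := by rintro rfl; simp at h1
  have h3 : 0 ≤ (a * b) * (b * c) := mul_nonneg h1.le h2
  have h4 : (a * b) * (b * c) = (a * c) * b ^ 2 := by ring
  rw [h4] at h3
  have hb2 : 0 < b ^ 2 := by positivity
  exact nonneg_of_mul_nonneg_left h3 hb2

theorem sign_eq_of_mul_pos {a b : ℝ} (h : 0 < a * b) : SignType.sign a = SignType.sign b := by
  rcases lt_trichotomy a 0 with ha | ha | ha
  · have hb : b < 0 := by
      by_contra hb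
      push Not at hb
      exact absurd h (not_lt.2 (mul_nonpos_of_nonpos_of_nonneg ha.le hb))
    rw [sign_neg ha, sign_neg hb]
  · subst ha; simp at h
  · have hb : 0 < b := pos_of_mul_pos_right h ha.le |> fun h' => by simpa using h'
    rw [sign_pos ha, sign_pos hb]

/-- the neighbouring chamber across the facet opposite to `p` -/
theorem neighbor [FiniteDimensional ℝ V] [Fintype ι] {N : ι → V} (hA : Arr N) (hS : Simp N)
    {R : Finset V} (hR : IsCh N R) {p : V} (hp : p ∈ R) :
    ∃ p', p' ∉ R ∧ IsCh N (insert p' (R.erase p)) ∧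
      nu (insert p' (R.erase p)) p' = - nu R p ∧
      vv N R - vv N (insert p' (R.erase p)) = (2:ℝ) • nu R p ∧
      ∀ p'', p'' ∉ R → IsCh N (insert p'' (R.erase p)) → p'' = p' := by
  obtain ⟨i, hi⟩ := nu_arr hA hR hp
  obtain ⟨hn1, hn0, hnp⟩ := nu_spec hR.li hR.card hp
  have hexp := nu_expand hR.li hR.card
  set n : V := nu R p with hn
  set F : Finset V := R.erase p with hF
  set y : V := ∑ q ∈ F, q with hy
  have hRF : insert p F = R := insert_erase hp
  have hpF : p ∉ F := notMem_erase p R
  have hnF : ∀ q ∈ F, inner ℝ n q = 0 := fun q hq =>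
    hn0 q (mem_of_mem_erase hq) (ne_of_mem_erase hq)
  have hny : inner ℝ n y = 0 := by
    rw [hy, inner_sum]
    exact sum_eq_zero hnF
  have hnn : inner ℝ n n = 1 := by rw [real_inner_self_eq_norm_sq, hn1]; norm_num
  -- relation between `N i` and `n`
  have hNi : ∀ a b : V, inner ℝ (N i) a * inner ℝ (N i) b = inner ℝ n a * inner ℝ n b := by
    intro a b
    rcases hi with h | h
    · rw [← h]
    · rw [h, inner_neg_left, inner_neg_left]; ring
  -- the other normals do not vanish at y
  have hB : ∀ j, j ≠ i → inner ℝ (N j) y ≠ 0 := by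
    intro j hj h0
    have hz : ∀ q ∈ F, inner ℝ (N j) q = 0 := by
      rw [hy, inner_sum] at h0
      rcases hR.sgn j with h | h
      · exact (sum_eq_zero_iff_of_nonneg (fun q hq => h q (mem_of_mem_erase hq))).1 h0
      · exact (sum_eq_zero_iff_of_nonpos (fun q hq => h q (mem_of_mem_erase hq))).1 h0
    have h1 := hexp (N j)
    rw [← hRF, sum_insert hpF, hRF] at h1
    have h2 : ∑ q ∈ F, (inner ℝ (N j) q / inner ℝ (nu R q) q) • nu R q = 0 := by
      refine sum_eq_zero fun q hq => ?_
      rw [hz q hq, zero_div, zero_smul]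
    rw [h2, add_zero, ← hn] at h1
    set c : ℝ := inner ℝ (N j) p / inner ℝ n p with hc
    have h3 : |c| = 1 := by
      have := hA.unit j
      rw [h1, norm_smul, hn1, mul_one] at this
      exact this
    have hpar := hA.par j i hj
    rcases (abs_eq (zero_le_one)).1 h3 with h4 | h4
    · rw [h4, one_smul] at h1
      rcases hi with h | h
      · exact hpar.1 (h1.trans h)
      · exact hpar.2 (h1.trans h)
    · rw [h4, neg_one_smul] at h1
      rcases hi with h | h
      · exact hpar.2 (by rw [h1, h])
      · exact hpar.1 (by rw [h1, h, neg_neg])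
  have hctr : ∀ p1, p1 ∉ F → ctr (insert p1 F) = p1 + y := by
    intro p1 h1
    rw [ctr, sum_insert h1]
  have hA1 : ∀ p1, p1 ∉ F → IsCh N (insert p1 F) → ∀ j, j ≠ i →
      0 < inner ℝ (N j) y * inner ℝ (N j) (ctr (insert p1 F)) := by
    intro p1 hp1 hC j hj
    rw [hctr p1 hp1, inner_add_right]
    have hy0 := hB j hj
    rcases hC.sgn j with h | h
    · have h1 : 0 ≤ inner ℝ (N j) y := by
        rw [hy, inner_sum]
        exact sum_nonneg fun q hq => h q (mem_insert_of_mem hq)
      have h2 := h p1 (mem_insert_self _ _)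
      have h3 : 0 < inner ℝ (N j) y := lt_of_le_of_ne h1 (Ne.symm hy0)
      exact mul_pos h3 (by linarith)
    · have h1 : inner ℝ (N j) y ≤ 0 := by
        rw [hy, inner_sum]
        exact sum_nonpos fun q hq => h q (mem_insert_of_mem hq)
      have h2 := h p1 (mem_insert_self _ _)
      have h3 : inner ℝ (N j) y < 0 := lt_of_le_of_ne h1 hy0
      exact mul_pos_of_neg_of_neg h3 (by linarith)
  have hA2 : ∀ p1, p1 ∉ F → inner ℝ n (ctr (insert p1 F)) = inner ℝ n p1 := by
    intro p1 hp1
    rw [hctr p1 hp1, inner_add_right, hny, add_zero]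
  -- choose δ
  obtain ⟨δ, hδ0, hδ⟩ : ∃ δ : ℝ, 0 < δ ∧ ∀ j, j ≠ i → δ < |inner ℝ (N j) y| := by
    haveI : Nonempty ι := ⟨i⟩
    obtain ⟨j0, hj0⟩ := Finite.exists_min (fun j => if j = i then (1:ℝ) else |inner ℝ (N j) y|)
    have hpos : 0 < (if j0 = i then (1:ℝ) else |inner ℝ (N j0) y|) := by
      split_ifs with h
      · norm_num
      · exact abs_pos.2 (hB j0 h)
    refine ⟨(if j0 = i then (1:ℝ) else |inner ℝ (N j0) y|) / 2, half_pos hpos, fun j hj => ?_⟩
    have := hj0 j
    simp only [if_neg hj] at this
    exact lt_of_lt_of_le (half_lt_self hpos) this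
  set x : V := y - δ • n with hx
  have hnx : inner ℝ n x = - δ := by
    rw [hx, inner_sub_right, inner_smul_right, hny, hnn]; ring
  have hxy : ∀ j, j ≠ i → 0 < inner ℝ (N j) y * inner ℝ (N j) x := by
    intro j hj
    have h1 : |inner ℝ (N j) n| ≤ 1 := by
      have := abs_real_inner_le_norm (N j) n
      rwa [hA.unit j, hn1, mul_one] at this
    have h2 := hδ j hj
    have h3 : inner ℝ (N j) x = inner ℝ (N j) y - δ * inner ℝ (N j) n := by
      rw [hx, inner_sub_right, inner_smul_right]
    rw [h3]
    have h4 := abs_le.1 h1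
    rcases lt_or_gt_of_ne (hB j hj) with h5 | h5
    · rw [abs_of_neg h5] at h2
      apply mul_pos_of_neg_of_neg h5
      nlinarith
    · rw [abs_of_pos h5] at h2
      apply mul_pos h5
      nlinarith
  have hgen : Gen N x := by
    intro j
    by_cases hj : j = i
    · subst hj
      intro h0
      have := hNi x x
      rw [h0, hnx] at this
      nlinarith
    · intro h0
      have := hxy j hj
      rw [h0, mul_zero] at this
      exact lt_irrefl _ this
  obtain ⟨R', hR', hxR'⟩ := hS x hgen
  have hRc : ∀ j, j ≠ i → 0 < inner ℝ (N j) y * inner ℝ (N j) (ctr R) := by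
    intro j hj
    have := hA1 p hpF (by rw [hRF]; exact hR) j hj
    rwa [hRF] at this
  have hFR' : F ⊆ R' := by
    intro q hq
    refine ray_mem hA hR hR' (mem_of_mem_erase hq) fun j => ?_
    by_cases hj : j = i
    · subst hj
      rw [hNi, hnF q hq, mul_zero]
    · have h1 : 0 < inner ℝ (N j) (ctr R') * inner ℝ (N j) x := by rw [mul_comm]; exact hxR' j
      have h2 : 0 < inner ℝ (N j) x * inner ℝ (N j) y := by rw [mul_comm]; exact hxy j hj
      have h3 := pos_trans (pos_trans h1 h2) (hRc j hj)
      exact nonneg_trans h3 (sgn_ctr hR j (mem_of_mem_erase hq))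
  have hcard : (R' \ F).card = 1 := by
    rw [card_sdiff_of_subset hFR', hR'.card, ← hR.card, ← hRF, card_insert_of_notMem hpF]
    omega
  obtain ⟨p', hp'⟩ := card_eq_one.1 hcard
  have hR'F : insert p' F = R' := by
    rw [← sdiff_union_of_subset hFR', hp']; rfl
  have hp'F : p' ∉ F := by
    have : p' ∈ R' \ F := by rw [hp']; exact mem_singleton_self _
    exact (mem_sdiff.1 this).2
  have hnp' : inner ℝ n p' < 0 := by
    have h1 := hxR' i
    rw [hNi, hnx, ← hR'F, hA2 p' hp'F] at h1
    nlinarith
  have hp'p : p' ≠ p := by rintro rfl; linarith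
  have hp'R : p' ∉ R := fun h => hp'F (mem_erase.2 ⟨hp'p, h⟩)
  have hCh' : IsCh N (insert p' F) := by rw [hR'F]; exact hR'
  refine ⟨p', hp'R, hCh', ?_, ?_, ?_⟩
  · refine (nu_unique hCh'.li hCh'.card (mem_insert_self _ _) (n := -n) ?_ ?_ ?_).symm
    · rw [norm_neg, hn1]
    · intro q hq hqp
      rw [inner_neg_left, hnF q (mem_of_mem_insert_of_ne hq hqp), neg_zero]
    · rw [inner_neg_left]; linarith
  · rw [vv, vv, ← sum_sub_distrib]
    rw [Finset.sum_eq_single i]
    · rw [← sub_smul]
      have e1 : inner ℝ n (ctr R) = inner ℝ n p := by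
        have := hA2 p hpF
        rwa [hRF] at this
      have e2 : inner ℝ n (ctr (insert p' F)) = inner ℝ n p' := hA2 p' hp'F
      rcases hi with h | h
      · rw [← h, e1, e2, sign_pos hnp, sign_neg hnp']
        norm_num
      · have h' : N i = - n := by rw [h, neg_neg]
        rw [h', inner_neg_left, inner_neg_left, e1, e2, sign_neg (by linarith), sign_pos (by linarith)]
        norm_num
    · intro j _ hj
      have h1 := hRc j hj
      have h2 := hA1 p' hp'F hCh' j hj
      have h3 : 0 < inner ℝ (N j) (ctr R) * inner ℝ (N j) (ctr (insert p' F)) :=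
        pos_trans (by rw [mul_comm]; exact h1) h2
      rw [sign_eq_of_mul_pos h3, sub_self]
    · intro h; exact absurd (mem_univ i) h
  · intro p'' hp'' hCh''
    have hp''F : p'' ∉ F := fun h => hp'' (mem_of_mem_erase h)
    have hne : inner ℝ n p'' ≠ 0 := by
      intro h0
      have h1 := nu_expand hCh''.li hCh''.card n
      rw [sum_eq_zero] at h1
      · rw [h1, norm_zero] at hn1; exact zero_ne_one hn1
      · intro q hq
        have : inner ℝ n q = 0 := by
          rcases mem_insert.1 hq with h | h
          · rw [h, h0]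
          · exact hnF q h
        rw [this, zero_div, zero_smul]
    rcases lt_or_gt_of_ne hne with hlt | hgt
    · have hsame : insert p' F = insert p'' F := by
        refine same_of_sign hA hCh' hCh'' fun j => ?_
        by_cases hj : j = i
        · subst hj
          rw [hNi, hA2 p' hp'F, hA2 p'' hp''F]
          exact mul_pos_of_neg_of_neg hnp' hlt
        · exact pos_trans (by rw [mul_comm]; exact hA1 p' hp'F hCh' j hj)
            (hA1 p'' hp''F hCh'' j hj)
      have : p'' ∈ insert p' F := by rw [hsame]; exact mem_insert_self _ _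
      rcases mem_insert.1 this with h | h
      · exact h
      · exact absurd h hp''F
    · have hsame : R = insert p'' F := by
        refine same_of_sign hA hR hCh'' fun j => ?_
        by_cases hj : j = i
        · subst hj
          have e1 : inner ℝ n (ctr R) = inner ℝ n p := by
            have := hA2 p hpF
            rwa [hRF] at this
          rw [hNi, e1, hA2 p'' hp''F]
          exact mul_pos hnp hgt
        · exact pos_trans (by rw [mul_comm]; exact hRc j hj)
            (hA1 p'' hp''F hCh'' j hj)
      exact absurd (by rw [hsame]; exact mem_insert_self _ _) hp''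

end Pool.Agent.Helper15.Iso
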