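import Mathlib
import Pool.Agent.Helper15.Iso.Neighbor
import Pool.Agent.Helper15.Iso.Foot
import Pool.Agent.Helper15.Iso.Gram
set_option autoImplicit false
open Module Finset
open scoped Classical

namespace Pool.Agent.Helper15.Iso
variable {V : Type*} [NormedAddCommGroup V] [InnerProductSpace ℝ V]
variable {ι : Type*}

/-- weight of an ordered pair of rays of a simplicial cone -/
noncomputable def ww (R : Finset V) (p s : V) : ℝ :=
  (1 - inner ℝ (nu R p) (nu R s)) / (inner ℝ (nu R p) p * inner ℝ (nu R s) s)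

/-- total weight of a facet -/
noncomputable def KK (R : Finset V) (p : V) : ℝ := ∑ s ∈ R, ww R p s

/-- the point `q` with `⟨q, s⟩ = 1` for all `s ∈ R` -/
noncomputable def qq (R : Finset V) : V := ∑ s ∈ R, (1 / inner ℝ (nu R s) s) • nu R s

theorem qq_spec [FiniteDimensional ℝ V] {R : Finset V}
    (hli : LinearIndependent ℝ (fun p : R => (p : V))) (hcard : R.card = finrank ℝ V) :
    ∀ x ∈ R, inner ℝ (qq R) x = 1 := by
  intro x hx
  unfold qq
  rw [sum_inner, Finset.sum_eq_single_of_mem x hx]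
  · rw [real_inner_smul_left]
    have := (nu_spec hli hcard hx).2.2
    field_simp
  · intro s hs hsx
    rw [real_inner_smul_left, (nu_spec hli hcard hs).2.1 x hx (Ne.symm hsx), mul_zero]

theorem KK_eq [FiniteDimensional ℝ V] {R : Finset V}
    (hli : LinearIndependent ℝ (fun p : R => (p : V))) (hcard : R.card = finrank ℝ V) {p : V}
    (hp : p ∈ R) :
    KK R p = (1 / inner ℝ (nu R p) p) * ((∑ s ∈ R, 1 / inner ℝ (nu R s) s) - inner ℝ (qq R) (nu R p)) := by
  unfold KK qq ww
  rw [sum_inner, ← Finset.sum_sub_distrib, Finset.mul_sum]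
  refine Finset.sum_congr rfl fun s hs => ?_
  have h1 := (nu_spec hli hcard hp).2.2
  have h2 := (nu_spec hli hcard hs).2.2
  rw [real_inner_smul_left, real_inner_comm (nu R p) (nu R s)]
  field_simp

/-- weights of adjacent isometric chambers agree -/
theorem KK_adj [FiniteDimensional ℝ V] (F : Finset V) (p p' : V) (hp : p ∉ F) (hp' : p' ∉ F)
    (hu : ∀ x ∈ insert p F, ‖x‖ = 1) (hu' : ∀ x ∈ insert p' F, ‖x‖ = 1)
    (hli : LinearIndependent ℝ (fun x : (insert p F : Finset V) => (x : V)))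
    (hli' : LinearIndependent ℝ (fun x : (insert p' F : Finset V) => (x : V)))
    (hcard : F.card + 1 = finrank ℝ V)
    (g : V ≃ₗᵢ[ℝ] V) (hg : (insert p F).image g = insert p' F) :
    KK (insert p F) p = KK (insert p' F) p' := by
  have hc : (insert p F).card = finrank ℝ V := by rw [card_insert_of_notMem hp, hcard]
  have hc' : (insert p' F).card = finrank ℝ V := by rw [card_insert_of_notMem hp', hcard]
  have hm : p ∈ insert p F := mem_insert_self _ _
  have hm' : p' ∈ insert p' F := mem_insert_self _ _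
  have s1 := nu_spec hli hc hm
  have s2 := nu_spec hli' hc' hm'
  have hf := foot_eq F p p' hp hp' hu hu' hli hli' hcard g hg (nu (insert p F) p)
    (nu (insert p' F) p') s1.1 s2.1
    (fun x hx => s1.2.1 x (mem_insert_of_mem hx) (fun h => hp (h ▸ hx)))
    (fun x hx => s2.2.1 x (mem_insert_of_mem hx) (fun h => hp' (h ▸ hx)))
    s1.2.2 s2.2.2 (qq (insert p F)) (qq (insert p' F)) (qq_spec hli hc) (qq_spec hli' hc')
  rw [KK_eq hli hc hm, KK_eq hli' hc' hm', hf.1, hf.2]
  congr 2
  rw [← hg, Finset.sum_image (fun x _ y _ h => g.injective h)]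
  refine Finset.sum_congr rfl fun s hs => ?_
  rw [nu_image hli hc hs g, g.inner_map_map]

/-- the flag function -/
noncomputable def ff [Fintype ι] (N : ι → V) (x : Σ _ : Finset V, V) : ℝ :=
  KK x.1 x.2 * (inner ℝ (vv N x.1) (nu x.1 x.2) - 1)

/-- `S = T`: the signed sum over all flags vanishes for isometric chambers. -/
theorem flag_sum_zero [FiniteDimensional ℝ V] [Fintype ι] {N : ι → V} (hA : Arr N) (hS : Simp N)
    (hI : ∀ R R', IsCh N R → IsCh N R' → ∃ g : V ≃ₗᵢ[ℝ] V, R.image g = R') :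
    ∑ x ∈ (finite_chambers hA).toFinset.sigma (fun R => R), ff N x = 0 := by
  have hmem : ∀ x : (Σ _ : Finset V, V), x ∈ (finite_chambers hA).toFinset.sigma (fun R => R) ↔
      IsCh N x.1 ∧ x.2 ∈ x.1 := by
    intro x; simp [Finset.mem_sigma]
  -- the neighbour function
  have hex : ∀ x : (Σ _ : Finset V, V), ∃ p', x ∈ (finite_chambers hA).toFinset.sigma (fun R => R) →
      (p' ∉ x.1 ∧ IsCh N (insert p' (x.1.erase x.2)) ∧
      nu (insert p' (x.1.erase x.2)) p' = - nu x.1 x.2 ∧
      vv N x.1 - vv N (insert p' (x.1.erase x.2)) = (2:ℝ) • nu x.1 x.2 ∧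
      ∀ p'', p'' ∉ x.1 → IsCh N (insert p'' (x.1.erase x.2)) → p'' = p') := by
    intro x
    by_cases hx : x ∈ (finite_chambers hA).toFinset.sigma (fun R => R)
    · obtain ⟨p', h⟩ := neighbor hA hS ((hmem x).1 hx).1 ((hmem x).1 hx).2
      exact ⟨p', fun _ => h⟩
    · exact ⟨0, fun h => absurd h hx⟩
  choose nb hnb using hex
  have hK : ∀ x : (Σ _ : Finset V, V), x ∈ (finite_chambers hA).toFinset.sigma (fun R => R) →
      KK (insert (nb x) (x.1.erase x.2)) (nb x) = KK x.1 x.2 := by
    intro x hx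
    obtain ⟨h1, h2, h3, h4, h5⟩ := hnb x hx
    obtain ⟨hc, hp⟩ := (hmem x).1 hx
    obtain ⟨g, hg⟩ := hI _ _ hc h2
    have e : insert x.2 (x.1.erase x.2) = x.1 := Finset.insert_erase hp
    have hn1 : x.2 ∉ x.1.erase x.2 := Finset.notMem_erase _ _
    have hn2 : nb x ∉ x.1.erase x.2 := fun h => h1 (Finset.mem_of_mem_erase h)
    have := KK_adj (x.1.erase x.2) x.2 (nb x) hn1 hn2 (by rw [e]; exact hc.unit) h2.unit
      (by rw [e]; exact hc.li) h2.li
      (by rw [Finset.card_erase_add_one hp]; exact hc.card) g (by rw [e]; exact hg)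
    rw [e] at this
    exact this.symm
  refine Finset.sum_involution (fun x _ => ⟨insert (nb x) (x.1.erase x.2), nb x⟩) ?_ ?_ ?_ ?_
  · intro x hx
    obtain ⟨h1, h2, h3, h4, h5⟩ := hnb x hx
    unfold ff
    simp only
    rw [hK x hx, h3]
    have hv : vv N (insert (nb x) (x.1.erase x.2)) = vv N x.1 - (2:ℝ) • nu x.1 x.2 := by
      rw [← h4]; abel
    have hun : inner ℝ (nu x.1 x.2) (nu x.1 x.2) = (1:ℝ) := by
      rw [real_inner_self_eq_norm_sq,
        (nu_spec ((hmem x).1 hx).1.li ((hmem x).1 hx).1.card ((hmem x).1 hx).2).1]; norm_num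
    rw [hv, inner_neg_right, inner_sub_left, real_inner_smul_left, hun]
    ring
  · intro x hx _ h
    obtain ⟨h1, h2, h3, h4, h5⟩ := hnb x hx
    have : nb x = x.2 := congrArg (fun y : (Σ _ : Finset V, V) => y.2) h
    exact h1 (this ▸ ((hmem x).1 hx).2)
  · intro x hx
    obtain ⟨h1, h2, h3, h4, h5⟩ := hnb x hx
    exact (hmem _).2 ⟨h2, mem_insert_self _ _⟩
  · intro x hx
    obtain ⟨h1, h2, h3, h4, h5⟩ := hnb x hx
    have hx' : (⟨insert (nb x) (x.1.erase x.2), nb x⟩ : Σ _ : Finset V, V) ∈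
        (finite_chambers hA).toFinset.sigma (fun R => R) := (hmem _).2 ⟨h2, mem_insert_self _ _⟩
    obtain ⟨k1, k2, k3, k4, k5⟩ := hnb _ hx'
    have hn2 : nb x ∉ x.1.erase x.2 := fun h => h1 (Finset.mem_of_mem_erase h)
    have e1 : (insert (nb x) (x.1.erase x.2)).erase (nb x) = x.1.erase x.2 :=
      Finset.erase_insert hn2
    have e2 : x.2 = nb ⟨insert (nb x) (x.1.erase x.2), nb x⟩ := by
      apply k5
      · simp only [mem_insert, not_or]
        refine ⟨fun h => h1 (h ▸ ((hmem x).1 hx).2), Finset.notMem_erase _ _⟩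
      · simp only
        rw [e1, Finset.insert_erase ((hmem x).1 hx).2]
        exact ((hmem x).1 hx).1
    simp only at e2 ⊢
    rw [← e2, e1, Finset.insert_erase ((hmem x).1 hx).2]

end Pool.Agent.Helper15.Iso
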