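import Mathlib
import Pool.Agent.Helper15.Iso.Basis
set_option autoImplicit false
open Module Finset
open scoped Classical

namespace Pool.Agent.Helper15.Iso
variable {V : Type*} [NormedAddCommGroup V] [InnerProductSpace ℝ V]
variable {ι : Type*}

theorem codim2_plane [FiniteDimensional ℝ V] {R : Finset V}
    (hli : LinearIndependent ℝ (fun p : R => (p : V))) (hcard : R.card = finrank ℝ V) {p s : V}
    (hp : p ∈ R) (hs : s ∈ R) (hne : p ≠ s) :
    ∃ f1 f2 : V, ‖f1‖ = 1 ∧ ‖f2‖ = 1 ∧ inner ℝ f1 f2 = 0 ∧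
      (∀ q ∈ (R.erase p).erase s, inner ℝ f1 q = 0 ∧ inner ℝ f2 q = 0) ∧
      ∀ x : V, (∀ q ∈ (R.erase p).erase s, inner ℝ x q = 0) →
        x ∈ Submodule.span ℝ ({f1, f2} : Set V) := by
  set E : Finset V := (R.erase p).erase s with hE
  have hsub : ∀ q ∈ E, q ∈ R := by
    intro q hq
    exact Finset.mem_of_mem_erase (Finset.mem_of_mem_erase hq)
  have hEli : LinearIndependent ℝ (fun q : E => (q : V)) := by
    have := hli.comp (fun q : E => (⟨q.1, hsub q.1 q.2⟩ : R)) (by
      intro a b hab
      have := congrArg Subtype.val hab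
      exact Subtype.ext this)
    exact this
  have hsR : s ∈ R.erase p := Finset.mem_erase.2 ⟨fun h => hne h.symm, hs⟩
  have hc1 : (R.erase p).card + 1 = R.card := Finset.card_erase_add_one hp
  have hc2 : E.card + 1 = (R.erase p).card := Finset.card_erase_add_one hsR
  have hfr : finrank ℝ (Submodule.span ℝ (E : Set V)) = E.card :=
    finrank_span_finset_eq_card hEli
  have hadd := Submodule.finrank_add_finrank_orthogonal (Submodule.span ℝ (E : Set V))
  have h2 : finrank ℝ ((Submodule.span ℝ (E : Set V))ᗮ : Submodule ℝ V) = 2 := by omega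
  let b := (stdOrthonormalBasis ℝ ((Submodule.span ℝ (E : Set V))ᗮ : Submodule ℝ V)).reindex
    (finCongr h2)
  refine ⟨(b 0 : V), (b 1 : V), ?_, ?_, ?_, ?_, ?_⟩
  · exact b.orthonormal.1 0
  · exact b.orthonormal.1 1
  · exact b.orthonormal.2 (show (0 : Fin 2) ≠ 1 by decide)
  · intro q hq
    have hqS : q ∈ Submodule.span ℝ (E : Set V) := Submodule.subset_span (by exact_mod_cast hq)
    refine ⟨?_, ?_⟩
    · exact (Submodule.mem_orthogonal' _ _).1 (b 0).2 q hqS
    · exact (Submodule.mem_orthogonal' _ _).1 (b 1).2 q hqS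
  · intro x hx
    have hxS : x ∈ (Submodule.span ℝ (E : Set V))ᗮ := by
      rw [Submodule.mem_orthogonal']
      intro u hu
      refine Submodule.span_induction (p := fun u _ => inner ℝ x u = 0) ?_ ?_ ?_ ?_ hu
      · intro q hq
        exact hx q (by exact_mod_cast hq)
      · simp
      · intro a c _ _ ha hc
        rw [inner_add_right, ha, hc, add_zero]
      · intro t a _ ha
        rw [inner_smul_right, ha, mul_zero]
    have hsum := b.sum_repr (⟨x, hxS⟩ : ((Submodule.span ℝ (E : Set V))ᗮ : Submodule ℝ V))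
    rw [Fin.sum_univ_two] at hsum
    have hx2 := congrArg Subtype.val hsum
    simp only [Submodule.coe_add, Submodule.coe_smul] at hx2
    rw [← hx2]
    rw [Submodule.mem_span_pair]
    exact ⟨_, _, rfl⟩

end Pool.Agent.Helper15.Iso
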