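import Mathlib
set_option autoImplicit false
open Real

namespace Pool.Agent.Helper15.Iso

theorem exists_angle_aux {x y : ℝ} (h : x ^ 2 + y ^ 2 = 1) :
    ∃ t : ℝ, 0 ≤ t ∧ t < π ∧ ((x = Real.cos t ∧ y = Real.sin t) ∨
      (x = - Real.cos t ∧ y = - Real.sin t)) := by
  set z : ℂ := ⟨x, y⟩ with hz
  have hnorm : ‖z‖ = 1 := by
    rw [Complex.norm_eq_sqrt_sq_add_sq]
    simp [hz, h]
  have hz0 : z ≠ 0 := by
    intro h0
    rw [h0] at hnorm
    simp at hnorm
  have hc : Real.cos z.arg = x := by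
    rw [Complex.cos_arg hz0, hnorm]; simp [hz]
  have hs : Real.sin z.arg = y := by
    rw [Complex.sin_arg, hnorm]; simp [hz]
  have h1 := Complex.neg_pi_lt_arg z
  have h2 := Complex.arg_le_pi z
  by_cases h3 : z.arg < 0
  · refine ⟨z.arg + π, by linarith, by linarith, Or.inr ?_⟩
    rw [Real.cos_add_pi, Real.sin_add_pi, hc, hs]
    simp
  · by_cases h4 : z.arg = π
    · refine ⟨0, le_rfl, Real.pi_pos, Or.inr ?_⟩
      rw [h4] at hc hs
      rw [← hc, ← hs]
      simp
    · refine ⟨z.arg, not_lt.1 h3, lt_of_le_of_ne h2 h4, Or.inl ?_⟩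
      rw [hc, hs]
      exact ⟨rfl, rfl⟩

/-- Job E: cyclic ordering of finitely many pairwise non-parallel unit vectors in a plane. -/
theorem sort_angles {V : Type*} [NormedAddCommGroup V] [InnerProductSpace ℝ V] (f1 f2 : V)
    (h1 : ‖f1‖ = 1) (h2 : ‖f2‖ = 1) (h12 : inner ℝ f1 f2 = 0)
    {J : Type*} [Fintype J] [Nonempty J] (N : J → V) (hN : ∀ j, ‖N j‖ = 1)
    (hspan : ∀ j, N j ∈ Submodule.span ℝ ({f1, f2} : Set V))
    (hpar : ∀ i j, i ≠ j → N i ≠ N j ∧ N i ≠ - N j) :
    ∃ (a : ℕ → ℝ) (σ : ℕ → J), StrictMono a ∧ (∀ k, a (k + Fintype.card J) = a k + π) ∧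
      (∀ k, σ (k + Fintype.card J) = σ k) ∧ (∀ j, ∃ k, k < Fintype.card J ∧ σ k = j) ∧
      (∀ k, N (σ k) = Real.cos (a k) • f1 + Real.sin (a k) • f2 ∨
        N (σ k) = - (Real.cos (a k) • f1 + Real.sin (a k) • f2)) := by
  classical
  have key : ∀ j, ∃ t : ℝ, 0 ≤ t ∧ t < π ∧ (N j = Real.cos t • f1 + Real.sin t • f2 ∨
      N j = - (Real.cos t • f1 + Real.sin t • f2)) := by
    intro j
    obtain ⟨x, y, hxy⟩ := Submodule.mem_span_pair.1 (hspan j)
    have h3 : x ^ 2 + y ^ 2 = 1 := by
      have h4 := hN j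
      rw [← hxy] at h4
      have h5 : ‖x • f1 + y • f2‖ * ‖x • f1 + y • f2‖ =
          ‖x • f1‖ * ‖x • f1‖ + ‖y • f2‖ * ‖y • f2‖ := by
        apply norm_add_sq_eq_norm_sq_add_norm_sq_of_inner_eq_zero (𝕜 := ℝ) (x • f1) (y • f2)
        rw [inner_smul_left, inner_smul_right, h12]
        simp
      rw [h4, norm_smul, norm_smul, h1, h2] at h5
      simp only [mul_one, Real.norm_eq_abs, abs_mul_abs_self] at h5
      nlinarith
    obtain ⟨t, ht0, ht1, ht⟩ := exists_angle_aux h3
    refine ⟨t, ht0, ht1, ?_⟩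
    rcases ht with ⟨hx, hy⟩ | ⟨hx, hy⟩
    · left; rw [← hxy, hx, hy]
    · right; rw [← hxy, hx, hy, neg_smul, neg_smul, neg_add]
  choose t ht0 ht1 ht using key
  have htinj : Function.Injective t := by
    intro i j hij
    by_contra hne
    obtain ⟨e1, e2⟩ := hpar i j hne
    have hi := ht i
    have hj := ht j
    rw [hij] at hi
    rcases hi with hi | hi <;> rcases hj with hj | hj
    · exact e1 (hi.trans hj.symm)
    · apply e2; rw [hi, hj, neg_neg]
    · apply e2; rw [hi, hj]
    · exact e1 (hi.trans hj.symm)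
  set m := Fintype.card J with hm
  have hm0 : 0 < m := Fintype.card_pos
  let s : Finset ℝ := Finset.univ.image t
  have hs : s.card = m := by
    rw [Finset.card_image_of_injective _ htinj, Finset.card_univ]
  let o := s.orderEmbOfFin hs
  have hex : ∀ k : Fin m, ∃ j, t j = o k := by
    intro k
    have : o k ∈ s := s.orderEmbOfFin_mem hs k
    obtain ⟨j, _, hj⟩ := Finset.mem_image.1 this
    exact ⟨j, hj⟩
  choose e he using hex
  have hsurj : ∀ j, ∃ k : Fin m, e k = j := by
    intro j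
    have h3 : t j ∈ Set.range o := by
      have : Set.range o = (s : Set ℝ) := s.range_orderEmbOfFin hs
      rw [this]
      exact Finset.mem_coe.2 (Finset.mem_image_of_mem _ (Finset.mem_univ j))
    obtain ⟨k, hk⟩ := h3
    exact ⟨k, htinj ((he k).trans hk)⟩
  let σ : ℕ → J := fun k => e ⟨k % m, Nat.mod_lt _ hm0⟩
  let a : ℕ → ℝ := fun k => t (σ k) + ((k / m : ℕ) : ℝ) * π
  have hmono : ∀ k l : Fin m, k < l → t (e k) < t (e l) := by
    intro k l hkl
    rw [he, he]
    exact o.strictMono hkl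
  refine ⟨a, σ, ?_, ?_, ?_, ?_, ?_⟩
  · refine strictMono_nat_of_lt_succ fun k => ?_
    show t (σ k) + ((k / m : ℕ) : ℝ) * π < t (σ (k + 1)) + (((k + 1) / m : ℕ) : ℝ) * π
    have hr : k % m < m := Nat.mod_lt _ hm0
    by_cases hlt : k % m + 1 < m
    · have e1 : (k + 1) % m = k % m + 1 := by
        rw [Nat.add_mod, Nat.mod_eq_of_lt (show 1 < m by omega), Nat.mod_eq_of_lt hlt]
      have e2 : (k + 1) / m = k / m := by
        rw [Nat.succ_div]
        have : ¬ m ∣ k + 1 := by
          intro hd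
          have := Nat.mod_eq_zero_of_dvd hd
          omega
        simp [this]
      rw [e2]
      have h3 : t (σ k) < t (σ (k + 1)) := by
        apply hmono
        show k % m < (k + 1) % m
        rw [e1]; omega
      linarith
    · have hrm : k % m + 1 = m := by omega
      have hd : m ∣ k + 1 := by
        have h4 := Nat.div_add_mod k m
        refine ⟨k / m + 1, ?_⟩
        rw [Nat.mul_add, mul_one]
        omega
      have e2 : (k + 1) / m = k / m + 1 := by
        rw [Nat.succ_div]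
        simp [hd]
      rw [e2]
      push_cast
      have h5 := ht1 (σ k)
      have h6 := ht0 (σ (k + 1))
      linarith
  · intro k
    show t (σ (k + m)) + (((k + m) / m : ℕ) : ℝ) * π = t (σ k) + ((k / m : ℕ) : ℝ) * π + π
    have e1 : σ (k + m) = σ k := by
      show e _ = e _
      congr 1
      exact Fin.ext (Nat.add_mod_right k m)
    rw [e1, Nat.add_div_right _ hm0]
    push_cast
    ring
  · intro k
    show e _ = e _
    congr 1
    exact Fin.ext (Nat.add_mod_right k m)
  · intro j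
    obtain ⟨k, hk⟩ := hsurj j
    refine ⟨k, k.2, ?_⟩
    rw [← hk]
    show e _ = e _
    congr 1
    exact Fin.ext (Nat.mod_eq_of_lt k.2)
  · intro k
    have h3 := ht (σ k)
    show N (σ k) = Real.cos (t (σ k) + ((k / m : ℕ) : ℝ) * π) • f1 +
        Real.sin (t (σ k) + ((k / m : ℕ) : ℝ) * π) • f2 ∨
      N (σ k) = - (Real.cos (t (σ k) + ((k / m : ℕ) : ℝ) * π) • f1 +
        Real.sin (t (σ k) + ((k / m : ℕ) : ℝ) * π) • f2)
    rw [Real.cos_add_nat_mul_pi, Real.sin_add_nat_mul_pi]
    rcases Nat.even_or_odd (k / m) with hpar | hpar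
    · rw [hpar.neg_one_pow]
      simpa using h3
    · rw [hpar.neg_one_pow]
      rcases h3 with h3 | h3
      · right
        rw [h3]
        simp only [neg_mul, one_mul, neg_smul]
        abel
      · left
        rw [h3]
        simp only [neg_mul, one_mul, neg_smul]
        abel

end Pool.Agent.Helper15.Iso
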