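import Mathlib
set_option autoImplicit false
open Real

namespace Pool.Agent.Helper15.Iso

/-- Job W1 -/
theorem window_exists (m : ℕ) (hm : 1 ≤ m) (a : ℕ → ℝ) (ha : StrictMono a)
    (hper : ∀ k, a (k + m) = a k + π) (A B : ℝ)
    (hne : ∀ k, A * Real.cos (a k) + B * Real.sin (a k) ≠ 0) :
    ∃ k, k < 2 * m ∧ ∀ r, 1 ≤ r → r ≤ m → 0 < A * Real.cos (a (k + r)) + B * Real.sin (a (k + r)) := by
  classical
  set z : ℂ := ⟨B, -A⟩ with hz
  set ρ : ℝ := ‖z‖ with hρ
  set ψ0 : ℝ := Complex.arg z with hψ0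
  have hB : ρ * Real.cos ψ0 = B := Complex.norm_mul_cos_arg z
  have hA : ρ * Real.sin ψ0 = -A := Complex.norm_mul_sin_arg z
  set n : ℤ := toIcoDiv Real.two_pi_pos (a 0) ψ0 with hn
  set ψ : ℝ := toIcoMod Real.two_pi_pos (a 0) ψ0 with hψ
  have hmem := toIcoMod_mem_Ico Real.two_pi_pos (a 0) ψ0
  have hψe : ψ0 = ψ + n * (2 * π) := by
    have := toIcoMod_add_toIcoDiv_zsmul Real.two_pi_pos (a 0) ψ0
    rw [zsmul_eq_mul] at this
    exact this.symm
  have hx : ∀ x : ℝ, A * Real.cos x + B * Real.sin x = ρ * Real.sin (x - ψ) := by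
    intro x
    have h1 : Real.sin (x - ψ) = Real.sin (x - ψ0) := by
      have : x - ψ0 = (x - ψ) - n * (2 * π) := by rw [hψe]; ring
      rw [this, Real.sin_sub_int_mul_two_pi]
    rw [h1, Real.sin_sub, ← hB]
    have hA' : A = -(ρ * Real.sin ψ0) := by rw [hA]; ring
    rw [hA']
    ring
  have hρ0 : 0 < ρ := by
    rcases (norm_nonneg z).eq_or_lt with h | h
    · exfalso
      apply hne 0
      rw [hx, hρ, ← h, zero_mul]
    · exact h
  have hψne : ∀ k, a k ≠ ψ := by
    intro k hk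
    apply hne k
    rw [hx, hk, sub_self, Real.sin_zero, mul_zero]
  have h2m : a (2 * m) = a 0 + 2 * π := by
    have h1 := hper (0 + m)
    have h2 := hper 0
    have h3 : 0 + m + m = 2 * m := by ring
    rw [h3] at h1
    linarith
  have hex : ∃ j, ψ < a j := ⟨2 * m, by rw [h2m]; exact hmem.2⟩
  set j := Nat.find hex with hj
  have hj1 : ψ < a j := Nat.find_spec hex
  have hj2 : j ≤ 2 * m := Nat.find_min' hex (by rw [h2m]; exact hmem.2)
  have hj0 : j ≠ 0 := by
    intro h0
    rw [h0] at hj1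
    exact absurd hj1 (not_lt.2 hmem.1)
  have hk1 : a (j - 1) < ψ := by
    have h1 : ¬ ψ < a (j - 1) := Nat.find_min hex (by omega)
    exact lt_of_le_of_ne (not_lt.1 h1) (hψne _)
  refine ⟨j - 1, by omega, ?_⟩
  intro r hr1 hrm
  rw [hx]
  apply mul_pos hρ0
  have h1 : a j ≤ a (j - 1 + r) := ha.monotone (by omega)
  have h2 : a (j - 1 + r) ≤ a (j - 1 + m) := ha.monotone (by omega)
  rw [hper] at h2
  apply Real.sin_pos_of_pos_of_lt_pi
  · linarith
  · linarith

/-- Job W2 -/
theorem window_realize (m : ℕ) (hm : 1 ≤ m) (a : ℕ → ℝ) (ha : StrictMono a)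
    (hper : ∀ k, a (k + m) = a k + π) (k : ℕ) :
    ∃ A B : ℝ, ∀ r, 1 ≤ r → r ≤ m → 0 < A * Real.cos (a (k + r)) + B * Real.sin (a (k + r)) := by
  have h0 : a k < a (k + 1) := ha (Nat.lt_succ_self k)
  refine ⟨-Real.sin ((a k + a (k + 1)) / 2), Real.cos ((a k + a (k + 1)) / 2), ?_⟩
  intro r hr1 hrm
  have h1 : a (k + 1) ≤ a (k + r) := ha.monotone (by omega)
  have h2 : a (k + r) ≤ a (k + m) := ha.monotone (by omega)
  rw [hper] at h2
  have h3 : 0 < Real.sin (a (k + r) - (a k + a (k + 1)) / 2) := by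
    apply Real.sin_pos_of_pos_of_lt_pi
    · linarith
    · linarith
  rw [Real.sin_sub] at h3
  linarith

theorem window_unique_aux (m : ℕ) (hm : 1 ≤ m) (x : ℕ → ℝ) (hx : ∀ k, x (k + m) = - x k) (k k' : ℕ)
    (hk' : k' < 2 * m) (h : ∀ r, 1 ≤ r → r ≤ m → 0 < x (k + r))
    (h' : ∀ r, 1 ≤ r → r ≤ m → 0 < x (k' + r)) (hlt : k < k') : False := by
  by_cases hc : k' ≤ k + m
  · have h1 := h (k' - k) (by omega) (by omega)
    have h2 : k + (k' - k) = k' := by omega
    rw [h2] at h1
    have h3 := h' m hm le_rfl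
    rw [hx] at h3
    linarith
  · have h1 := h' (k + 2 * m - k') (by omega) (by omega)
    have h2 : k' + (k + 2 * m - k') = k + m + m := by omega
    rw [h2, hx] at h1
    have h3 := h m hm le_rfl
    linarith

/-- Job W3 -/
theorem window_unique (m : ℕ) (hm : 1 ≤ m) (x : ℕ → ℝ) (hx : ∀ k, x (k + m) = - x k) (k k' : ℕ)
    (hk : k < 2 * m) (hk' : k' < 2 * m) (h : ∀ r, 1 ≤ r → r ≤ m → 0 < x (k + r))
    (h' : ∀ r, 1 ≤ r → r ≤ m → 0 < x (k' + r)) : k = k' := by
  rcases lt_trichotomy k k' with hlt | heq | hgt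
  · exact (window_unique_aux m hm x hx k k' hk' h h' hlt).elim
  · exact heq
  · exact (window_unique_aux m hm x hx k' k hk h' h hgt).elim

/-- Job W4: extreme rays of a window.  Planar vectors `u l = (cos (a l), sin (a l))`; if all
`u (k+r)` (`1 ≤ r ≤ m`) are nonnegative combinations of `u (k+s)` and `u (k+t)` then
`{s,t} = {1,m}`. -/
theorem window_extreme (m : ℕ) (hm : 2 ≤ m) (a : ℕ → ℝ) (ha : StrictMono a)
    (hper : ∀ k, a (k + m) = a k + π) (k s t : ℕ) (hs : 1 ≤ s) (hsm : s ≤ m) (ht : 1 ≤ t)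
    (htm : t ≤ m)
    (h : ∀ r, 1 ≤ r → r ≤ m → ∃ α β : ℝ, 0 ≤ α ∧ 0 ≤ β ∧
      Real.cos (a (k + r)) = α * Real.cos (a (k + s)) + β * Real.cos (a (k + t)) ∧
      Real.sin (a (k + r)) = α * Real.sin (a (k + s)) + β * Real.sin (a (k + t))) :
    (s = 1 ∧ t = m) ∨ (s = m ∧ t = 1) := by
  have hk0 : a k < a (k + 1) := ha (Nat.lt_succ_self k)
  have hkm : a (k + m) = a k + π := hper k
  -- general: strictly between
  have hzero : ∀ (α β p q x : ℝ), 0 ≤ α → 0 ≤ β → 0 < p → 0 < q → α * p + β * q = 0 →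
      Real.cos x = α * Real.cos (a (k + s)) + β * Real.cos (a (k + t)) →
      Real.sin x = α * Real.sin (a (k + s)) + β * Real.sin (a (k + t)) → False := by
    intro α β p q x hα hβ hp hq h0 hc hs'
    have h1 : 0 ≤ α * p := mul_nonneg hα hp.le
    have h2 : 0 ≤ β * q := mul_nonneg hβ hq.le
    have h3 : α * p = 0 := by linarith
    have h4 : β * q = 0 := by linarith
    have h5 : α = 0 := by
      rcases mul_eq_zero.1 h3 with h | h
      · exact h
      · exact absurd h hp.ne'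
    have h6 : β = 0 := by
      rcases mul_eq_zero.1 h4 with h | h
      · exact h
      · exact absurd h hq.ne'
    rw [h5, h6, zero_mul, zero_mul, add_zero] at hc hs'
    have := Real.sin_sq_add_cos_sq x
    rw [hc, hs'] at this
    norm_num at this
  have hA : s = 1 ∨ t = 1 := by
    by_contra hcon
    push Not at hcon
    obtain ⟨α, β, hα, hβ, hc, hs'⟩ := h 1 le_rfl (by omega)
    have hs2 : a (k + 1) < a (k + s) := ha (by omega)
    have ht2 : a (k + 1) < a (k + t) := ha (by omega)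
    have hs3 : a (k + s) ≤ a (k + m) := ha.monotone (by omega)
    have ht3 : a (k + t) ≤ a (k + m) := ha.monotone (by omega)
    have h1 : 0 < Real.sin (a (k + s) - a (k + 1)) :=
      Real.sin_pos_of_pos_of_lt_pi (by linarith) (by linarith)
    have h2 : 0 < Real.sin (a (k + t) - a (k + 1)) :=
      Real.sin_pos_of_pos_of_lt_pi (by linarith) (by linarith)
    refine hzero α β _ _ (a (k + 1)) hα hβ h1 h2 ?_ hc hs'
    rw [Real.sin_sub, Real.sin_sub]
    have h3 : α * (Real.sin (a (k + s)) * Real.cos (a (k + 1)) -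
        Real.cos (a (k + s)) * Real.sin (a (k + 1))) +
        β * (Real.sin (a (k + t)) * Real.cos (a (k + 1)) -
        Real.cos (a (k + t)) * Real.sin (a (k + 1))) =
        (α * Real.sin (a (k + s)) + β * Real.sin (a (k + t))) * Real.cos (a (k + 1)) -
        (α * Real.cos (a (k + s)) + β * Real.cos (a (k + t))) * Real.sin (a (k + 1)) := by ring
    rw [h3, ← hc, ← hs']
    ring
  have hB : s = m ∨ t = m := by
    by_contra hcon
    push Not at hcon
    obtain ⟨α, β, hα, hβ, hc, hs'⟩ := h m (by omega) le_rfl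
    have hs2 : a (k + s) < a (k + m) := ha (by omega)
    have ht2 : a (k + t) < a (k + m) := ha (by omega)
    have hs3 : a (k + 1) ≤ a (k + s) := ha.monotone (by omega)
    have ht3 : a (k + 1) ≤ a (k + t) := ha.monotone (by omega)
    have h1 : 0 < Real.sin (a (k + m) - a (k + s)) :=
      Real.sin_pos_of_pos_of_lt_pi (by linarith) (by linarith)
    have h2 : 0 < Real.sin (a (k + m) - a (k + t)) :=
      Real.sin_pos_of_pos_of_lt_pi (by linarith) (by linarith)
    refine hzero α β _ _ (a (k + m)) hα hβ h1 h2 ?_ hc hs'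
    rw [Real.sin_sub, Real.sin_sub]
    have h3 : α * (Real.sin (a (k + m)) * Real.cos (a (k + s)) -
        Real.cos (a (k + m)) * Real.sin (a (k + s))) +
        β * (Real.sin (a (k + m)) * Real.cos (a (k + t)) -
        Real.cos (a (k + m)) * Real.sin (a (k + t))) =
        Real.sin (a (k + m)) * (α * Real.cos (a (k + s)) + β * Real.cos (a (k + t))) -
        Real.cos (a (k + m)) * (α * Real.sin (a (k + s)) + β * Real.sin (a (k + t))) := by ring
    rw [h3, ← hc, ← hs']
    ring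
  rcases hA with hA | hA <;> rcases hB with hB | hB
  · omega
  · exact Or.inl ⟨hA, hB⟩
  · exact Or.inr ⟨hB, hA⟩
  · omega

end Pool.Agent.Helper15.Iso
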