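import Mathlib
import Pool.Agent.Helper15.Iso.Chamber
import Pool.Agent.Helper15.Iso.Plane
import Pool.Agent.Helper15.Iso.Sort
import Pool.Agent.Helper15.Iso.Window
set_option autoImplicit false
open Module Finset
open scoped Classical

namespace Pool.Agent.Helper15.Iso
variable {V : Type*} [NormedAddCommGroup V] [InnerProductSpace ℝ V]
variable {ι : Type*}

theorem ls_signA {N : ι → V} {R E : Finset V} (hR : IsCh N R) (hER : E ⊆ R) {i : ι}
    (hi : ∃ q ∈ E, inner ℝ (N i) q ≠ 0) :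
    0 < inner ℝ (N i) (∑ q ∈ E, q) * inner ℝ (N i) (ctr R) := by
  obtain ⟨q, hq, hq0⟩ := hi
  unfold ctr
  rw [inner_sum, inner_sum]
  rcases hR.sgn i with h | h
  · have h1 : 0 < ∑ q ∈ E, inner ℝ (N i) q :=
      Finset.sum_pos' (fun x hx => h x (hER hx))
        ⟨q, hq, lt_of_le_of_ne (h q (hER hq)) (Ne.symm hq0)⟩
    have h2 : 0 < ∑ q ∈ R, inner ℝ (N i) q :=
      Finset.sum_pos' (fun x hx => h x hx)
        ⟨q, hER hq, lt_of_le_of_ne (h q (hER hq)) (Ne.symm hq0)⟩
    exact mul_pos h1 h2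
  · have h1 : ∑ q ∈ E, inner ℝ (N i) q < 0 :=
      Finset.sum_neg' (fun x hx => h x (hER hx))
        ⟨q, hq, lt_of_le_of_ne (h q (hER hq)) hq0⟩
    have h2 : ∑ q ∈ R, inner ℝ (N i) q < 0 :=
      Finset.sum_neg' (fun x hx => h x hx)
        ⟨q, hER hq, lt_of_le_of_ne (h q (hER hq)) hq0⟩
    exact mul_pos_of_neg_of_neg h1 h2

theorem ls_exists_delta [Fintype ι] (N : ι → V) (e z : V) :
    ∃ δ : ℝ, 0 < δ ∧ ∀ i, inner ℝ (N i) e ≠ 0 →
      0 < inner ℝ (N i) e * inner ℝ (N i) (e + δ • z) := by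
  have hev : ∀ᶠ δ in nhdsWithin (0 : ℝ) (Set.Ioi 0), ∀ i, inner ℝ (N i) e ≠ 0 →
      0 < inner ℝ (N i) e * inner ℝ (N i) (e + δ • z) := by
    rw [Filter.eventually_all]
    intro i
    by_cases h0 : inner ℝ (N i) e = 0
    · exact Filter.Eventually.of_forall (fun δ h => absurd h0 h)
    · have hc : Filter.Tendsto (fun δ : ℝ => inner ℝ (N i) e * inner ℝ (N i) (e + δ • z))
          (nhdsWithin (0 : ℝ) (Set.Ioi 0)) (nhds (inner ℝ (N i) e * inner ℝ (N i) (e + (0 : ℝ) • z))) := by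
        apply Filter.Tendsto.mono_left _ nhdsWithin_le_nhds
        apply Continuous.tendsto
        fun_prop
      have hpos : 0 < inner ℝ (N i) e * inner ℝ (N i) (e + (0 : ℝ) • z) := by
        rw [zero_smul, add_zero]
        exact mul_self_pos.mpr h0
      filter_upwards [hc.eventually (lt_mem_nhds hpos)] with δ hδ _
      exact hδ
  have h2 : ∀ᶠ δ in nhdsWithin (0 : ℝ) (Set.Ioi 0), (0 : ℝ) < δ :=
    eventually_mem_nhdsWithin
  obtain ⟨δ, h3, h4⟩ := (hev.and h2).exists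
  exact ⟨δ, h4, h3⟩

/-- construction of a chamber around `E` with prescribed signs -/
theorem ls_construct [FiniteDimensional ℝ V] [Fintype ι] {N : ι → V} (hA : Arr N)
    (hS : Simp N) {R₀ E : Finset V} (hR₀ : IsCh N R₀) (hE : E ⊆ R₀) (z : V)
    (hz : ∀ i, (∀ q ∈ E, inner ℝ (N i) q = 0) → inner ℝ (N i) z ≠ 0) :
    ∃ R, IsCh N R ∧ E ⊆ R ∧ ∀ i, (∀ q ∈ E, inner ℝ (N i) q = 0) →
      0 < inner ℝ (N i) z * inner ℝ (N i) (ctr R) := by
  set e : V := ∑ q ∈ E, q with he
  obtain ⟨δ, hδ, hδ2⟩ := ls_exists_delta N e z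
  have hJe : ∀ i, (∀ q ∈ E, inner ℝ (N i) q = 0) → inner ℝ (N i) e = 0 := by
    intro i hi
    rw [he, inner_sum]
    exact Finset.sum_eq_zero hi
  have hnJe : ∀ i, ¬ (∀ q ∈ E, inner ℝ (N i) q = 0) → inner ℝ (N i) e ≠ 0 ∧
      0 < inner ℝ (N i) e * inner ℝ (N i) (ctr R₀) := by
    intro i hi
    push Not at hi
    have h := ls_signA hR₀ hE hi
    exact ⟨fun h0 => by rw [← he, h0, zero_mul] at h; exact lt_irrefl _ h, h⟩
  have hx1 : ∀ i, (∀ q ∈ E, inner ℝ (N i) q = 0) →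
      inner ℝ (N i) (e + δ • z) = δ * inner ℝ (N i) z := by
    intro i hi
    rw [inner_add_right, hJe i hi, zero_add, inner_smul_right]
  have hgen : Gen N (e + δ • z) := by
    intro i
    by_cases hi : ∀ q ∈ E, inner ℝ (N i) q = 0
    · rw [hx1 i hi]
      exact mul_ne_zero hδ.ne' (hz i hi)
    · intro h0
      have := hδ2 i (hnJe i hi).1
      rw [h0, mul_zero] at this
      exact lt_irrefl _ this
  obtain ⟨R, hR, hRs⟩ := hS _ hgen
  refine ⟨R, hR, ?_, ?_⟩
  · intro q hq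
    apply ray_mem hA hR₀ hR (hE hq)
    intro i
    by_cases hi : ∀ q ∈ E, inner ℝ (N i) q = 0
    · rw [hi q hq, mul_zero]
    · have h1 := hδ2 i (hnJe i hi).1
      have h2 := hRs i
      have h3 := (hnJe i hi).2
      have h4 := sgn_ctr hR₀ i (hE hq)
      have h5 := (hnJe i hi).1
      generalize inner ℝ (N i) e = x1 at *
      generalize inner ℝ (N i) (e + δ • z) = x2 at *
      generalize inner ℝ (N i) (ctr R) = x3 at *
      generalize inner ℝ (N i) (ctr R₀) = x4 at *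
      generalize inner ℝ (N i) q = x5 at *
      rcases lt_or_gt_of_ne h5 with h | h
      · have e2 : x2 < 0 := by
          by_contra hc
          push Not at hc
          nlinarith [mul_nonneg (neg_nonneg.mpr h.le) hc]
        have e3 : x3 < 0 := by
          by_contra hc
          push Not at hc
          nlinarith [mul_nonneg (neg_nonneg.mpr e2.le) hc]
        have e4 : x4 < 0 := by
          by_contra hc
          push Not at hc
          nlinarith [mul_nonneg (neg_nonneg.mpr h.le) hc]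
        have e5 : x5 ≤ 0 := by
          by_contra hc
          push Not at hc
          nlinarith [mul_pos (neg_pos.mpr e4) hc]
        exact mul_nonneg_of_nonpos_of_nonpos e3.le e5
      · have e2 : 0 < x2 := by
          by_contra hc
          push Not at hc
          nlinarith [mul_nonneg h.le (neg_nonneg.mpr hc)]
        have e3 : 0 < x3 := by
          by_contra hc
          push Not at hc
          nlinarith [mul_nonneg e2.le (neg_nonneg.mpr hc)]
        have e4 : 0 < x4 := by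
          by_contra hc
          push Not at hc
          nlinarith [mul_nonneg h.le (neg_nonneg.mpr hc)]
        have e5 : 0 ≤ x5 := by
          by_contra hc
          push Not at hc
          nlinarith [mul_pos e4 (neg_pos.mpr hc)]
        exact mul_nonneg e3.le e5
  · intro i hi
    have h2 := hRs i
    rw [hx1 i hi] at h2
    have h3 : 0 < δ * (inner ℝ (N i) z * inner ℝ (N i) (ctr R)) := by
      rw [← mul_assoc]; exact h2
    exact (pos_iff_pos_of_mul_pos h3).mp hδ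

/-- the two extra elements of a chamber containing `E` -/
theorem ls_pair [FiniteDimensional ℝ V] {N : ι → V} {R₀ R : Finset V} (hR₀ : IsCh N R₀)
    (hR : IsCh N R) {p₀ s₀ : V} (hp₀ : p₀ ∈ R₀) (hs₀ : s₀ ∈ R₀) (hne : p₀ ≠ s₀)
    (hE : (R₀.erase p₀).erase s₀ ⊆ R) :
    ∃ p s, p ∈ R ∧ s ∈ R ∧ p ≠ s ∧ (R.erase p).erase s = (R₀.erase p₀).erase s₀ := by
  set E := (R₀.erase p₀).erase s₀ with hEdef
  have hcE : E.card + 2 = R₀.card := by
    have h1 : (R₀.erase p₀).card + 1 = R₀.card := Finset.card_erase_add_one hp₀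
    have h2 : E.card + 1 = (R₀.erase p₀).card :=
      Finset.card_erase_add_one (Finset.mem_erase.mpr ⟨hne.symm, hs₀⟩)
    omega
  have hc2 : (R \ E).card = 2 := by
    have h1 := Finset.card_sdiff_add_card_eq_card hE
    have h2 := hR.card
    have h3 := hR₀.card
    omega
  obtain ⟨p, s, hps, hd⟩ := Finset.card_eq_two.mp hc2
  have hp : p ∈ R \ E := by rw [hd]; simp
  have hs : s ∈ R \ E := by rw [hd]; simp
  refine ⟨p, s, (Finset.mem_sdiff.mp hp).1, (Finset.mem_sdiff.mp hs).1, hps, ?_⟩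
  ext q
  rw [Finset.mem_erase, Finset.mem_erase]
  constructor
  · rintro ⟨h1, h2, h3⟩
    by_contra hq
    have : q ∈ R \ E := Finset.mem_sdiff.mpr ⟨h3, hq⟩
    rw [hd] at this
    simp only [Finset.mem_insert, Finset.mem_singleton] at this
    tauto
  · intro hq
    refine ⟨?_, ?_, hE hq⟩
    · rintro rfl
      exact (Finset.mem_sdiff.mp hs).2 hq
    · rintro rfl
      exact (Finset.mem_sdiff.mp hp).2 hq

theorem ls_anti_mul (u : ℕ → V) (m : ℕ) (hu : ∀ k, u (k + m) = - u k) (l n : ℕ) :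
    u (l + n * m) = u l ∨ u (l + n * m) = - u l := by
  induction n with
  | zero => left; simp
  | succ n ih =>
    have h : l + (n + 1) * m = (l + n * m) + m := by ring
    rw [h, hu]
    rcases ih with h | h
    · right; rw [h]
    · left; rw [h, neg_neg]

theorem ls_reduce (u : ℕ → V) (m : ℕ) (hm : 1 ≤ m) (hu : ∀ k, u (k + m) = - u k) (k l : ℕ) :
    ∃ r, 1 ≤ r ∧ r ≤ m ∧ (u l = u (k + r) ∨ u l = - u (k + r)) := by
  obtain ⟨x, hx⟩ : ∃ x, l + (k + 1) * m = k + 1 + x := by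
    refine ⟨l + (k + 1) * m - (k + 1), ?_⟩
    have : k + 1 ≤ (k + 1) * m := Nat.le_mul_of_pos_right _ hm
    omega
  have hdm : k + 1 + x = (k + (1 + x % m)) + (x / m) * m := by
    have := Nat.div_add_mod x m
    have h2 : m * (x / m) = (x / m) * m := Nat.mul_comm _ _
    omega
  refine ⟨1 + x % m, by omega, ?_, ?_⟩
  · have := Nat.mod_lt x (show 0 < m by omega)
    omega
  · have h1 := ls_anti_mul u m hu l (k + 1)
    have h2 := ls_anti_mul u m hu (k + (1 + x % m)) (x / m)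
    rw [hx, hdm] at h1
    rcases h1 with h1 | h1 <;> rcases h2 with h2 | h2 <;> rw [h2] at h1
    · left; exact h1.symm
    · right; exact h1.symm
    · right; rw [h1, neg_neg]
    · left; exact (neg_injective h1).symm

theorem ls_vv [Fintype ι] {N : ι → V} {E R : Finset V}
    (hR : IsCh N R) (hER : E ⊆ R) (u : ℕ → V) (m : ℕ)
    (hm : Fintype.card {i : ι // ∀ q ∈ E, inner ℝ (N i) q = 0} = m) (hm1 : 1 ≤ m)
    (σ : ℕ → {i : ι // ∀ q ∈ E, inner ℝ (N i) q = 0})
    (hσ : ∀ k, σ (k + m) = σ k) (hσs : ∀ j, ∃ k, k < m ∧ σ k = j)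
    (hNσ : ∀ k, N (σ k).1 = u k ∨ N (σ k).1 = - u k) (k : ℕ)
    (hwin : ∀ r, 1 ≤ r → r ≤ m → 0 < inner ℝ (u (k + r)) (ctr R)) :
    vv N R = (∑ i ∈ Finset.univ.filter (fun i => ¬ (∀ q ∈ E, inner ℝ (N i) q = 0)),
      ((SignType.sign (inner ℝ (N i) (∑ q ∈ E, q)) : ℝ)) • N i) +
      ∑ r ∈ Finset.range m, u (k + 1 + r) := by
  unfold vv
  rw [← Finset.sum_filter_add_sum_filter_not Finset.univ
    (fun i => ¬ (∀ q ∈ E, inner ℝ (N i) q = 0))]
  congr 1
  · apply Finset.sum_congr rfl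
    intro i hi
    have hi' := (Finset.mem_filter.mp hi).2
    push Not at hi'
    have h := ls_signA hR hER hi'
    congr 2
    rcases lt_trichotomy (inner ℝ (N i) (ctr R)) 0 with h0 | h0 | h0
    · rw [sign_neg h0, sign_neg]
      by_contra hc
      push Not at hc
      nlinarith [mul_nonneg hc (neg_nonneg.mpr h0.le)]
    · rw [h0, mul_zero] at h
      exact absurd h (lt_irrefl _)
    · rw [sign_pos h0, sign_pos]
      exact (pos_iff_pos_of_mul_pos h).mpr h0
  · have hbij : Function.Bijective (fun r : Fin m => σ (k + 1 + r)) := by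
      rw [Fintype.bijective_iff_surjective_and_card]
      refine ⟨?_, by rw [Fintype.card_fin, hm]⟩
      intro j
      obtain ⟨l, hl, hlj⟩ := hσs j
      have hP : Function.Periodic σ m := hσ
      have hP2 : Function.Periodic (fun x => σ (k + 1 + x)) m := by
        intro x
        show σ (k + 1 + (x + m)) = σ (k + 1 + x)
        rw [← add_assoc]
        exact hσ _
      refine ⟨⟨(l + (k + 1) * (m - 1)) % m, Nat.mod_lt _ (by omega)⟩, ?_⟩
      show σ (k + 1 + (l + (k + 1) * (m - 1)) % m) = j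
      have h1 : σ (k + 1 + (l + (k + 1) * (m - 1)) % m) = σ (k + 1 + (l + (k + 1) * (m - 1))) :=
        hP2.map_mod_nat (l + (k + 1) * (m - 1))
      rw [h1]
      have h2 : k + 1 + (l + (k + 1) * (m - 1)) = l + (k + 1) * m := by
        obtain ⟨m', rfl⟩ : ∃ m', m = m' + 1 := ⟨m - 1, by omega⟩
        simp only [Nat.add_sub_cancel]
        ring
      rw [h2, ← hlj]
      exact hP.nat_mul (k + 1) l
    have hterm : ∀ r : Fin m, ((SignType.sign (inner ℝ (N (σ (k + 1 + r)).1) (ctr R)) : ℝ)) •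
        N (σ (k + 1 + r)).1 = u (k + 1 + r) := by
      intro r
      have hr : 0 < inner ℝ (u (k + 1 + r)) (ctr R) := by
        have := hwin (1 + r) (by omega) (by omega)
        rw [← add_assoc] at this
        exact this
      rcases hNσ (k + 1 + r) with h | h
      · rw [h, sign_pos hr]; simp
      · rw [h, inner_neg_left, sign_neg (by linarith)]; simp
    rw [← Fin.sum_univ_eq_sum_range (fun r => u (k + 1 + r)) m]
    rw [← Finset.sum_congr rfl (fun r _ => hterm r)]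
    rw [hbij.sum_comp (fun j : {i : ι // ∀ q ∈ E, inner ℝ (N i) q = 0} =>
      ((SignType.sign (inner ℝ (N j.1) (ctr R)) : ℝ)) • N j.1)]
    rw [← Finset.sum_subtype (p := fun i => ∀ q ∈ E, inner ℝ (N i) q = 0)
      (Finset.univ.filter (fun i => ¬ ¬ (∀ q ∈ E, inner ℝ (N i) q = 0)))
      (by intro i; simp) (fun i => ((SignType.sign (inner ℝ (N i) (ctr R)) : ℝ)) • N i)]

theorem ls_chamber [FiniteDimensional ℝ V] {N : ι → V} (hA : Arr N)
    {E R : Finset V} (hR : IsCh N R) {p s : V} (hp : p ∈ R) (hs : s ∈ R) (hps : p ≠ s)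
    (hEeq : (R.erase p).erase s = E) (f1 f2 : V) (h1 : ‖f1‖ = 1) (h2 : ‖f2‖ = 1)
    (h12 : inner ℝ f1 f2 = 0)
    (m : ℕ) (hm : 2 ≤ m) (a : ℕ → ℝ) (ha : StrictMono a) (hper : ∀ k, a (k + m) = a k + Real.pi)
    (u : ℕ → V) (hu : ∀ k, u k = Real.cos (a k) • f1 + Real.sin (a k) • f2)
    (hanti : ∀ k, u (k + m) = - u k)
    (huE : ∀ k, ∀ q ∈ E, inner ℝ (u k) q = 0)
    (hNu : ∀ k, ∃ i, (N i = u k ∨ N i = - u k))
    (hJu : ∀ i, (∀ q ∈ E, inner ℝ (N i) q = 0) → ∃ k, N i = u k ∨ N i = - u k)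
    (k : ℕ) (hwin : ∀ r, 1 ≤ r → r ≤ m → 0 < inner ℝ (u (k + r)) (ctr R)) :
    ∃ pp ss, pp ∈ R ∧ ss ∈ R ∧ pp ≠ ss ∧ (R.erase pp).erase ss = E ∧ nu R pp = u (k + 1) ∧
      nu R ss = - u k := by
  have key : ∀ x ∈ R, x ∉ E → ∃ r, 1 ≤ r ∧ r ≤ m ∧ nu R x = u (k + r) := by
    intro x hx hxE
    obtain ⟨hn1, hn2, hn3⟩ := nu_spec hR.li hR.card hx
    obtain ⟨i, hi⟩ := nu_arr hA hR hx
    have hiE : ∀ q ∈ E, inner ℝ (N i) q = 0 := by
      intro q hq
      have hqR : q ∈ R := by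
        rw [← hEeq] at hq
        exact Finset.mem_of_mem_erase (Finset.mem_of_mem_erase hq)
      have hqx : q ≠ x := by
        rintro rfl
        exact hxE hq
      have := hn2 q hqR hqx
      rcases hi with hi | hi
      · rw [← hi]; exact this
      · rw [hi, inner_neg_left, neg_eq_zero] at this
        exact this
    have hctr : 0 < inner ℝ (nu R x) (ctr R) := by
      unfold ctr
      rw [inner_sum, Finset.sum_eq_single_of_mem x hx (fun b hb hbx => hn2 b hb hbx)]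
      exact hn3
    obtain ⟨l, hl⟩ := hJu i hiE
    obtain ⟨r, hr1, hr2, hr⟩ := ls_reduce u m (by omega) hanti k l
    have hpos := hwin r hr1 hr2
    have hpm : nu R x = u (k + r) ∨ nu R x = - u (k + r) := by
      rcases hi with hi | hi <;> rcases hl with hl | hl <;> rcases hr with hr | hr <;>
        rw [hi, hl, hr] <;> simp
    refine ⟨r, hr1, hr2, ?_⟩
    rcases hpm with h | h
    · exact h
    · rw [h, inner_neg_left] at hctr
      linarith
  have hpE : p ∉ E := by rw [← hEeq]; simp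
  have hsE : s ∉ E := by rw [← hEeq]; simp
  obtain ⟨r1, hr1, hr1m, hnp⟩ := key p hp hpE
  obtain ⟨r2, hr2, hr2m, hns⟩ := key s hs hsE
  have hnn : ∀ r, 1 ≤ r → r ≤ m → ∀ q ∈ R, 0 ≤ inner ℝ (u (k + r)) q := by
    intro r hr hrm q hq
    obtain ⟨i, hi⟩ := hNu (k + r)
    have h3 := sgn_ctr hR i hq
    have h4 := hwin r hr hrm
    have h5 : 0 ≤ inner ℝ (u (k + r)) (ctr R) * inner ℝ (u (k + r)) q := by
      rcases hi with hi | hi
      · rw [← hi]; exact h3
      · have : u (k + r) = - N i := by rw [hi, neg_neg]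
        rw [this, inner_neg_left, inner_neg_left, neg_mul_neg]
        exact h3
    exact nonneg_of_mul_nonneg_right h5 h4
  obtain ⟨_, _, hnpp⟩ := nu_spec hR.li hR.card hp
  obtain ⟨_, _, hnss⟩ := nu_spec hR.li hR.card hs
  have hcs : ∀ l, inner ℝ f1 (u l) = Real.cos (a l) ∧ inner ℝ f2 (u l) = Real.sin (a l) := by
    intro l
    have h11 : inner ℝ f1 f1 = (1 : ℝ) := by rw [real_inner_self_eq_norm_sq, h1]; norm_num
    have h22 : inner ℝ f2 f2 = (1 : ℝ) := by rw [real_inner_self_eq_norm_sq, h2]; norm_num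
    have h21 : inner ℝ f2 f1 = (0 : ℝ) := by rw [real_inner_comm]; exact h12
    rw [hu]
    constructor
    · rw [inner_add_right, inner_smul_right, inner_smul_right, h11, h12]; ring
    · rw [inner_add_right, inner_smul_right, inner_smul_right, h22, h21]; ring
  have hcomb : ∀ r, 1 ≤ r → r ≤ m → ∃ α β : ℝ, 0 ≤ α ∧ 0 ≤ β ∧
      u (k + r) = α • u (k + r1) + β • u (k + r2) := by
    intro r hr hrm
    refine ⟨inner ℝ (u (k + r)) p / inner ℝ (nu R p) p, inner ℝ (u (k + r)) s / inner ℝ (nu R s) s,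
      div_nonneg (hnn r hr hrm p hp) hnpp.le, div_nonneg (hnn r hr hrm s hs) hnss.le, ?_⟩
    have hx := nu_expand hR.li hR.card (u (k + r))
    rw [← Finset.add_sum_erase R _ hp,
      ← Finset.add_sum_erase (R.erase p) _ (Finset.mem_erase.mpr ⟨hps.symm, hs⟩), hEeq,
      Finset.sum_eq_zero (s := E), add_zero] at hx
    · rw [← hnp, ← hns]
      exact hx
    · intro q hq
      rw [huE (k + r) q hq, zero_div, zero_smul]
  have hwe := window_extreme m hm a ha hper k r1 r2 hr1 hr1m hr2 hr2m (by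
    intro r hr hrm
    obtain ⟨α, β, hα, hβ, hab⟩ := hcomb r hr hrm
    refine ⟨α, β, hα, hβ, ?_, ?_⟩
    · rw [← (hcs (k + r)).1, ← (hcs (k + r1)).1, ← (hcs (k + r2)).1, hab, inner_add_right,
        inner_smul_right, inner_smul_right]
    · rw [← (hcs (k + r)).2, ← (hcs (k + r1)).2, ← (hcs (k + r2)).2, hab, inner_add_right,
        inner_smul_right, inner_smul_right])
  rcases hwe with ⟨e1, e2⟩ | ⟨e1, e2⟩
  · refine ⟨p, s, hp, hs, hps, hEeq, ?_, ?_⟩
    · rw [hnp, e1]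
    · rw [hns, e2, hanti]
  · refine ⟨s, p, hs, hp, hps.symm, ?_, ?_, ?_⟩
    · rw [← hEeq, Finset.erase_right_comm]
    · rw [hns, e2]
    · rw [hnp, e1, hanti]

/-- the chambers around a codimension 2 face `E = R \ {p, s}`, in cyclic order. -/
theorem local_structure [FiniteDimensional ℝ V] [Fintype ι] {N : ι → V} (hA : Arr N)
    (hS : Simp N) {R₀ : Finset V} (hR₀ : IsCh N R₀) {p₀ s₀ : V} (hp₀ : p₀ ∈ R₀) (hs₀ : s₀ ∈ R₀)
    (hne : p₀ ≠ s₀) :
    ∃ (f1 f2 t : V) (m : ℕ) (a : ℕ → ℝ) (ch : ℕ → Finset V) (pp ss : ℕ → V),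
      ‖f1‖ = 1 ∧ ‖f2‖ = 1 ∧ inner ℝ f1 f2 = 0 ∧ 2 ≤ m ∧ StrictMono a ∧
      (∀ k, a (k + m) = a k + Real.pi) ∧
      (∀ k, ∃ i, N i = Real.cos (a k) • f1 + Real.sin (a k) • f2 ∨
        N i = - (Real.cos (a k) • f1 + Real.sin (a k) • f2)) ∧
      (∀ i, (∀ q ∈ (R₀.erase p₀).erase s₀, inner ℝ (N i) q = 0) →
        ∃ k, N i = Real.cos (a k) • f1 + Real.sin (a k) • f2 ∨
        N i = - (Real.cos (a k) • f1 + Real.sin (a k) • f2)) ∧
      (∀ k < 2 * m, IsCh N (ch k) ∧ pp k ∈ ch k ∧ ss k ∈ ch k ∧ pp k ≠ ss k ∧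
        ((ch k).erase (pp k)).erase (ss k) = (R₀.erase p₀).erase s₀ ∧
        nu (ch k) (pp k) = Real.cos (a (k + 1)) • f1 + Real.sin (a (k + 1)) • f2 ∧
        nu (ch k) (ss k) = - (Real.cos (a k) • f1 + Real.sin (a k) • f2) ∧
        vv N (ch k) = t + ∑ r ∈ Finset.range m,
          (Real.cos (a (k + 1 + r)) • f1 + Real.sin (a (k + 1 + r)) • f2)) ∧
      (∀ k < 2 * m, ∀ l < 2 * m, ch k = ch l → k = l) ∧
      (∀ R, IsCh N R → (R₀.erase p₀).erase s₀ ⊆ R → ∃ k < 2 * m, ch k = R) := by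
  obtain ⟨f1, f2, h1, h2, h12, hfE, hspan⟩ := codim2_plane hR₀.li hR₀.card hp₀ hs₀ hne
  set E := (R₀.erase p₀).erase s₀ with hEdef
  have hE : E ⊆ R₀ := fun q hq => Finset.mem_of_mem_erase (Finset.mem_of_mem_erase hq)
  let J : Type _ := {i : ι // ∀ q ∈ E, inner ℝ (N i) q = 0}
  have hwall : ∀ x ∈ R₀, x ∉ E → ∃ j : J, nu R₀ x = N j.1 ∨ nu R₀ x = - N j.1 := by
    intro x hx hxE
    obtain ⟨hn1, hn2, hn3⟩ := nu_spec hR₀.li hR₀.card hx
    obtain ⟨i, hi⟩ := nu_arr hA hR₀ hx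
    refine ⟨⟨i, ?_⟩, hi⟩
    intro q hq
    have hqx : q ≠ x := by
      rintro rfl
      exact hxE hq
    have := hn2 q (hE hq) hqx
    rcases hi with hi | hi
    · rw [← hi]; exact this
    · rw [hi, inner_neg_left, neg_eq_zero] at this
      exact this
  have hpE : p₀ ∉ E := by rw [hEdef]; simp
  have hsE : s₀ ∉ E := by rw [hEdef]; simp
  obtain ⟨j1, hj1⟩ := hwall p₀ hp₀ hpE
  obtain ⟨j2, hj2⟩ := hwall s₀ hs₀ hsE
  have hj12 : j1 ≠ j2 := by
    rintro rfl
    have e1 := (nu_spec hR₀.li hR₀.card hp₀).2.2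
    have e2 := (nu_spec hR₀.li hR₀.card hs₀).2.1 p₀ hp₀ hne
    rcases hj1 with h | h <;> rcases hj2 with h' | h' <;> rw [h] at e1 <;> rw [h'] at e2 <;>
      (try simp only [inner_neg_left] at e1 e2) <;> linarith
  have : Nonempty J := ⟨j1⟩
  obtain ⟨a, σ, ha, hper, hσ, hσs, hNσ⟩ := sort_angles f1 f2 h1 h2 h12 (fun j : J => N j.1)
    (fun j => hA.unit j.1) (fun j => hspan (N j.1) j.2)
    (fun i j hij => hA.par i.1 j.1 (fun h => hij (Subtype.ext h)))
  have hm : 2 ≤ Fintype.card J := Fintype.one_lt_card_iff.mpr ⟨j1, j2, hj12⟩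
  obtain ⟨m, hmdef⟩ : ∃ m, m = Fintype.card J := ⟨_, rfl⟩
  rw [← hmdef] at hper hσ hσs hm
  obtain ⟨u, hu⟩ : ∃ u : ℕ → V, ∀ k, u k = Real.cos (a k) • f1 + Real.sin (a k) • f2 :=
    ⟨_, fun _ => rfl⟩
  have hNσ' : ∀ k, N (σ k).1 = u k ∨ N (σ k).1 = - u k := by
    intro k
    rw [hu]
    exact hNσ k
  have hanti : ∀ k, u (k + m) = - u k := by
    intro k
    rw [hu, hu, hper, Real.cos_add_pi, Real.sin_add_pi]
    simp only [neg_smul]
    abel
  have huin : ∀ k x, inner ℝ (u k) x = inner ℝ f1 x * Real.cos (a k) + inner ℝ f2 x * Real.sin (a k) := by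
    intro k x
    rw [hu, inner_add_left, real_inner_smul_left, real_inner_smul_left]
    ring
  have huE : ∀ k, ∀ q ∈ E, inner ℝ (u k) q = 0 := by
    intro k q hq
    rw [huin, (hfE q hq).1, (hfE q hq).2]
    ring
  have hNu : ∀ k, ∃ i, (N i = u k ∨ N i = - u k) := fun k => ⟨(σ k).1, hNσ' k⟩
  have hJu : ∀ i, (∀ q ∈ E, inner ℝ (N i) q = 0) → ∃ k, N i = u k ∨ N i = - u k := by
    intro i hi
    obtain ⟨k, _, hk⟩ := hσs ⟨i, hi⟩
    refine ⟨k, ?_⟩
    have := hNσ' k
    rw [hk] at this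
    exact this
  -- existence for every k
  have hex : ∀ k, ∃ R, IsCh N R ∧ E ⊆ R ∧ ∀ r, 1 ≤ r → r ≤ m → 0 < inner ℝ (u (k + r)) (ctr R) := by
    intro k
    obtain ⟨A, B, hAB⟩ := window_realize m (by omega) a ha hper k
    have hzin : ∀ l, inner ℝ (u l) (A • f1 + B • f2) = A * Real.cos (a l) + B * Real.sin (a l) := by
      intro l
      have h11 : inner ℝ f1 f1 = (1 : ℝ) := by rw [real_inner_self_eq_norm_sq, h1]; norm_num
      have h22 : inner ℝ f2 f2 = (1 : ℝ) := by rw [real_inner_self_eq_norm_sq, h2]; norm_num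
      have h21 : inner ℝ f2 f1 = (0 : ℝ) := by rw [real_inner_comm]; exact h12
      rw [huin, inner_add_right, inner_add_right, inner_smul_right, inner_smul_right,
        inner_smul_right, inner_smul_right, h11, h12, h22, h21]
      ring
    have hpos : ∀ r, 1 ≤ r → r ≤ m → 0 < inner ℝ (u (k + r)) (A • f1 + B • f2) := by
      intro r hr hrm
      rw [hzin]
      exact hAB r hr hrm
    obtain ⟨R, hR, hER, hRs⟩ := ls_construct hA hS hR₀ hE (A • f1 + B • f2) (by
      intro i hi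
      obtain ⟨l, hl⟩ := hJu i hi
      obtain ⟨r, hr, hrm, hlr⟩ := ls_reduce u m (by omega) hanti k l
      have := hpos r hr hrm
      rcases hl with hl | hl <;> rcases hlr with hlr | hlr <;> rw [hl, hlr] <;>
        simp only [inner_neg_left, neg_neg, ne_eq, neg_eq_zero] <;> exact this.ne')
    refine ⟨R, hR, hER, ?_⟩
    intro r hr hrm
    have h3 := hpos r hr hrm
    have h4 := hRs (σ (k + r)).1 (σ (k + r)).2
    rcases hNσ' (k + r) with h | h
    · rw [h] at h4
      exact (pos_iff_pos_of_mul_pos h4).mp h3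
    · rw [h, inner_neg_left, inner_neg_left, neg_mul_neg] at h4
      exact (pos_iff_pos_of_mul_pos h4).mp h3
  choose ch hch hEch hwin using hex
  have hps : ∀ k, ∃ pp ss, pp ∈ ch k ∧ ss ∈ ch k ∧ pp ≠ ss ∧ ((ch k).erase pp).erase ss = E ∧
      nu (ch k) pp = u (k + 1) ∧ nu (ch k) ss = - u k := by
    intro k
    obtain ⟨p, s, hp, hs, hps, hEeq⟩ := ls_pair hR₀ (hch k) hp₀ hs₀ hne (hEch k)
    exact ls_chamber hA (hch k) hp hs hps hEeq f1 f2 h1 h2 h12 m hm a ha hper u hu hanti huE hNu hJu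
      k (hwin k)
  choose pp ss hpp hss hppss hErase hnupp hnuss using hps
  refine ⟨f1, f2, (∑ i ∈ Finset.univ.filter (fun i => ¬ (∀ q ∈ E, inner ℝ (N i) q = 0)),
      ((SignType.sign (inner ℝ (N i) (∑ q ∈ E, q)) : ℝ)) • N i), m, a, ch, pp, ss, h1, h2, h12,
      hm, ha, hper, ?_, ?_, ?_, ?_, ?_⟩
  · intro k
    rw [← hu]
    exact hNu k
  · intro i hi
    obtain ⟨k, hk⟩ := hJu i hi
    refine ⟨k, ?_⟩
    rw [← hu]
    exact hk
  · intro k hk
    refine ⟨hch k, hpp k, hss k, hppss k, hErase k, ?_, ?_, ?_⟩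
    · rw [hnupp, hu]
    · rw [hnuss, hu]
    · rw [ls_vv (hch k) (hEch k) u m hmdef.symm (by omega) σ hσ hσs hNσ' k (hwin k)]
      simp only [hu]
  · intro k hk l hl hkl
    apply window_unique m (by omega) (fun j => inner ℝ (u j) (ctr (ch k))) _ k l hk hl (hwin k)
    · intro r hr hrm
      rw [hkl]
      exact hwin l r hr hrm
    · intro j
      show inner ℝ (u (j + m)) (ctr (ch k)) = - inner ℝ (u j) (ctr (ch k))
      rw [hanti, inner_neg_left]
  · intro R hR hER
    obtain ⟨k, hk, hkw⟩ := window_exists m (by omega) a ha hper (inner ℝ f1 (ctr R))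
      (inner ℝ f2 (ctr R)) (by
        intro l
        rw [← huin]
        have h3 := ctr_gen hA hR (σ l).1
        rcases hNσ' l with h | h
        · rw [h] at h3
          exact h3
        · rw [h, inner_neg_left] at h3
          exact fun h0 => h3 (by rw [h0, neg_zero]))
    refine ⟨k, hk, same_of_sign hA (hch k) hR ?_⟩
    intro i
    by_cases hi : ∀ q ∈ E, inner ℝ (N i) q = 0
    · obtain ⟨l, hl⟩ := hJu i hi
      obtain ⟨r, hr, hrm, hlr⟩ := ls_reduce u m (by omega) hanti k l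
      have h3 := hwin k r hr hrm
      have h4 := hkw r hr hrm
      rw [← huin] at h4
      have h5 := mul_pos h3 h4
      rcases hl with hl | hl <;> rcases hlr with hlr | hlr <;> rw [hl, hlr] <;>
        (try simp only [inner_neg_left, neg_neg, neg_mul_neg]) <;> exact h5
    · push Not at hi
      have h3 := ls_signA (hch k) (hEch k) hi
      have h4 := ls_signA hR hER hi
      have h5 : 0 < (inner ℝ (N i) (∑ q ∈ E, q) * inner ℝ (N i) (∑ q ∈ E, q)) *
          (inner ℝ (N i) (ctr (ch k)) * inner ℝ (N i) (ctr R)) := by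
        have := mul_pos h3 h4
        linarith [this, mul_comm (inner ℝ (N i) (∑ q ∈ E, q)) (inner ℝ (N i) (ctr (ch k)))]
      have h6 : inner ℝ (N i) (∑ q ∈ E, q) ≠ (0 : ℝ) := by
        intro h0
        rw [h0, zero_mul] at h3
        exact lt_irrefl _ h3
      exact (pos_iff_pos_of_mul_pos h5).mp (mul_self_pos.mpr h6)

end Pool.Agent.Helper15.Iso
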