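import Mathlib
import Pool.Agent.Helper15.Iso.Defs
import Pool.Agent.Helper15.Iso.Analytic
set_option autoImplicit false
open Module Finset
open scoped Classical

namespace Pool.Agent.Helper15.Iso

/-- shift invariance of the sum over a full period -/
theorem sum_shift (M : ℕ) (f : ℕ → ℝ) (hf : ∀ k, f (k + M) = f k) :
    ∑ k ∈ range M, f (k + 1) = ∑ k ∈ range M, f k := by
  have h1 := Finset.sum_range_succ f M
  have h2 := Finset.sum_range_succ' f M
  have h3 : f M = f 0 := by simpa using hf 0
  linarith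

theorem sum_anti (m : ℕ) (f : ℕ → ℝ) (hf : ∀ k, f (k + m) = - f k) :
    ∑ k ∈ range (2 * m), f k = 0 := by
  rw [two_mul, Finset.sum_range_add]
  have : ∑ x ∈ range m, f (m + x) = - ∑ x ∈ range m, f x := by
    rw [← Finset.sum_neg_distrib]
    refine Finset.sum_congr rfl fun x _ => ?_
    rw [add_comm]; exact hf x
  linarith

theorem planar_sum (m : ℕ) (hm : 2 ≤ m) (a : ℕ → ℝ) (ha : StrictMono a)
    (hper : ∀ k, a (k + m) = a k + Real.pi) (t1 t2 : ℝ) :
    ∑ k ∈ range (2 * m), (1 + Real.cos (a (k + 1) - a k)) / Real.sin (a (k + 1) - a k) *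
      ((t1 * Real.cos (a (k + 1)) + t2 * Real.sin (a (k + 1)))
        - (t1 * Real.cos (a k) + t2 * Real.sin (a k))
        + ∑ r ∈ range m, (Real.cos (a (k + 1 + r) - a (k + 1)) - Real.cos (a (k + 1 + r) - a k)) - 2)
      = 2 * ∑ k ∈ range (2 * m), ∑ s ∈ range m, Real.sin (a (k + s) - a k)
        - 2 * ∑ k ∈ range (2 * m), (1 + Real.cos (a (k + 1) - a k)) / Real.sin (a (k + 1) - a k) := by
  have hθ : ∀ k, 0 < Real.sin (a (k + 1) - a k) := by
    intro k
    apply Real.sin_pos_of_pos_of_lt_pi
    · have := ha (Nat.lt_succ_self k); simp at this; linarith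
    · have h1 : a (k + 1) < a (k + m) := ha (by omega)
      rw [hper] at h1; linarith
  have key : ∀ θ x : ℝ, 0 < Real.sin θ → (1 + Real.cos θ) / Real.sin θ *
      (Real.cos (x - θ) - Real.cos x) = Real.sin x + Real.sin (x - θ) := by
    intro θ x h
    rw [div_mul_eq_mul_div, div_eq_iff h.ne', Real.cos_sub, Real.sin_sub]
    have := Real.sin_sq_add_cos_sq θ
    linear_combination Real.cos x * this
  have hc : ∀ k, (1 + Real.cos (a (k + 1) - a k)) / Real.sin (a (k + 1) - a k) *
      (Real.cos (a (k + 1)) - Real.cos (a k)) = - (Real.sin (a k) + Real.sin (a (k + 1))) := by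
    intro k
    have := key (a (k + 1) - a k) (a (k + 1)) (hθ k)
    rw [show a (k + 1) - (a (k + 1) - a k) = a k by ring] at this
    linarith
  have hs : ∀ k, (1 + Real.cos (a (k + 1) - a k)) / Real.sin (a (k + 1) - a k) *
      (Real.sin (a (k + 1)) - Real.sin (a k)) = Real.cos (a k) + Real.cos (a (k + 1)) := by
    intro k
    have := key (a (k + 1) - a k) (a (k + 1) - Real.pi / 2) (hθ k)
    rw [show a (k + 1) - Real.pi / 2 - (a (k + 1) - a k) = a k - Real.pi / 2 by ring,
      Real.cos_sub_pi_div_two, Real.cos_sub_pi_div_two, Real.sin_sub_pi_div_two,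
      Real.sin_sub_pi_div_two] at this
    linarith
  have hr : ∀ k r, (1 + Real.cos (a (k + 1) - a k)) / Real.sin (a (k + 1) - a k) *
      (Real.cos (a (k + 1 + r) - a (k + 1)) - Real.cos (a (k + 1 + r) - a k)) =
      Real.sin (a (k + 1 + r) - a k) + Real.sin (a (k + 1 + r) - a (k + 1)) := by
    intro k r
    have := key (a (k + 1) - a k) (a (k + 1 + r) - a k) (hθ k)
    rw [show a (k + 1 + r) - a k - (a (k + 1) - a k) = a (k + 1 + r) - a (k + 1) by ring] at this
    exact this
  have step : ∀ k, (1 + Real.cos (a (k + 1) - a k)) / Real.sin (a (k + 1) - a k) *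
      ((t1 * Real.cos (a (k + 1)) + t2 * Real.sin (a (k + 1)))
        - (t1 * Real.cos (a k) + t2 * Real.sin (a k))
        + ∑ r ∈ range m, (Real.cos (a (k + 1 + r) - a (k + 1)) - Real.cos (a (k + 1 + r) - a k)) - 2)
      = (-t1 * (Real.sin (a k) + Real.sin (a (k + 1))) + t2 * (Real.cos (a k) + Real.cos (a (k + 1))))
        + (∑ r ∈ range m, Real.sin (a (k + 1 + r) - a k)
          + ∑ r ∈ range m, Real.sin (a (k + 1 + r) - a (k + 1)))
        - 2 * ((1 + Real.cos (a (k + 1) - a k)) / Real.sin (a (k + 1) - a k)) := by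
    intro k
    have e1 : (1 + Real.cos (a (k + 1) - a k)) / Real.sin (a (k + 1) - a k) *
        ∑ r ∈ range m, (Real.cos (a (k + 1 + r) - a (k + 1)) - Real.cos (a (k + 1 + r) - a k))
        = ∑ r ∈ range m, Real.sin (a (k + 1 + r) - a k)
          + ∑ r ∈ range m, Real.sin (a (k + 1 + r) - a (k + 1)) := by
      rw [Finset.mul_sum, ← Finset.sum_add_distrib]
      exact Finset.sum_congr rfl fun r _ => hr k r
    have e2 := hc k
    have e3 := hs k
    linear_combination t1 * e2 + t2 * e3 + e1
  rw [Finset.sum_congr rfl fun k _ => step k, Finset.sum_sub_distrib, Finset.sum_add_distrib,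
    ← Finset.mul_sum]
  have z1 : ∑ k ∈ range (2 * m), (-t1 * (Real.sin (a k) + Real.sin (a (k + 1)))
      + t2 * (Real.cos (a k) + Real.cos (a (k + 1)))) = 0 := by
    apply sum_anti
    intro k
    rw [show k + m + 1 = (k + 1) + m by ring, hper, hper, Real.sin_add_pi, Real.sin_add_pi,
      Real.cos_add_pi, Real.cos_add_pi]
    ring
  have z2 : ∑ k ∈ range (2 * m), (∑ r ∈ range m, Real.sin (a (k + 1 + r) - a k)
          + ∑ r ∈ range m, Real.sin (a (k + 1 + r) - a (k + 1)))
        = 2 * ∑ k ∈ range (2 * m), ∑ s ∈ range m, Real.sin (a (k + s) - a k) := by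
    rw [Finset.sum_add_distrib]
    have y1 : ∑ k ∈ range (2 * m), ∑ r ∈ range m, Real.sin (a (k + 1 + r) - a (k + 1))
        = ∑ k ∈ range (2 * m), ∑ s ∈ range m, Real.sin (a (k + s) - a k) := by
      refine sum_shift (2 * m) (fun k => ∑ s ∈ range m, Real.sin (a (k + s) - a k)) ?_
      intro k
      refine Finset.sum_congr rfl fun s _ => ?_
      rw [show k + 2 * m + s = (k + s) + m + m by ring, show k + 2 * m = k + m + m by ring,
        hper, hper, hper, hper]
      congr 1; ring
    have y2 : ∀ k, ∑ r ∈ range m, Real.sin (a (k + 1 + r) - a k)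
        = ∑ s ∈ range m, Real.sin (a (k + s) - a k) := by
      intro k
      have h1 := Finset.sum_range_succ (fun s => Real.sin (a (k + s) - a k)) m
      have h2 := Finset.sum_range_succ' (fun s => Real.sin (a (k + s) - a k)) m
      simp only [add_zero, sub_self, Real.sin_zero] at h2
      rw [hper k] at h1
      simp only [add_sub_cancel_left, Real.sin_pi, add_zero] at h1
      rw [← h1, h2]
      refine Finset.sum_congr rfl fun r _ => ?_
      rw [show k + 1 + r = k + (r + 1) by ring]
    rw [y1, Finset.sum_congr rfl fun k _ => y2 k]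
    ring
  rw [z1, z2]; ring

end Pool.Agent.Helper15.Iso
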