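import Mathlib
import Pool.Agent.Helper15.Iso.Chamber
set_option autoImplicit false
open Module Finset
open scoped Classical

namespace Pool.Agent.Helper15.Iso
variable {V : Type*} [NormedAddCommGroup V] [InnerProductSpace ℝ V]
variable {ι : Type*}

theorem inner_nu_ctr [FiniteDimensional ℝ V] {N : ι → V} {R : Finset V} (hR : IsCh N R)
    {p : V} (hp : p ∈ R) : inner ℝ (nu R p) (ctr R) = inner ℝ (nu R p) p := by
  obtain ⟨_, h0, _⟩ := nu_spec hR.li hR.card hp
  unfold ctr
  rw [inner_sum]
  exact Finset.sum_eq_single p (fun q hq hqp => h0 q hq hqp) (fun h => absurd hp h)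

theorem cone_nu [FiniteDimensional ℝ V] {N : ι → V} (hA : Arr N) {R : Finset V} (hR : IsCh N R)
    {y : V} (hy : y ∈ Cone N (ctr R)) {p : V} (hp : p ∈ R) : 0 ≤ inner ℝ (nu R p) y := by
  obtain ⟨_, _, h1⟩ := nu_spec hR.li hR.card hp
  have h2 := inner_nu_ctr hR hp
  obtain ⟨i, hi⟩ := nu_arr hA hR hp
  have hyi : 0 ≤ inner ℝ (N i) (ctr R) * inner ℝ (N i) y := hy i
  have h3 : 0 ≤ inner ℝ (nu R p) (ctr R) * inner ℝ (nu R p) y := by
    rcases hi with hi | hi
    · rw [hi]; exact hyi
    · rw [hi, inner_neg_left, inner_neg_left]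
      linarith
  rw [h2] at h3
  exact nonneg_of_mul_nonneg_right h3 h1

theorem mem_cone_ray [FiniteDimensional ℝ V] {N : ι → V} {R : Finset V} (hR : IsCh N R)
    {p : V} (hp : p ∈ R) : p ∈ Cone N (ctr R) := fun i => sgn_ctr hR i hp

theorem image_chamber [FiniteDimensional ℝ V] [Finite ι] {N : ι → V} (hA : Arr N)
    {R₀ : Finset V} (hR₀ : IsCh N R₀) {x : V} (hx : Gen N x) (g : V ≃ₗᵢ[ℝ] V)
    (hg : g '' Cone N (ctr R₀) = Cone N x) :
    IsCh N (R₀.image g) ∧ ∀ i, 0 < inner ℝ (N i) x * inner ℝ (N i) (ctr (R₀.image g)) := by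
  have hinj : Function.Injective g := g.injective
  have hmem : ∀ p ∈ R₀, ∀ i, 0 ≤ inner ℝ (N i) x * inner ℝ (N i) (g p) := by
    intro p hp i
    have : g p ∈ Cone N x := by
      rw [← hg]
      exact ⟨p, mem_cone_ray hR₀ hp, rfl⟩
    exact this i
  have hch : IsCh N (R₀.image g) := by
    refine ⟨?_, ?_, ?_, ?_, ?_⟩
    · intro q hq
      obtain ⟨p, hp, rfl⟩ := Finset.mem_image.1 hq
      rw [g.norm_map]
      exact hR₀.unit p hp
    · have h1 : LinearIndependent ℝ (fun p : R₀ => g (p : V)) := by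
        have := hR₀.li.map' (g.toLinearEquiv : V →ₗ[ℝ] V) (LinearEquiv.ker _)
        exact this
      let e : ↥(R₀.image g) → R₀ := fun q => ⟨g.symm (q : V), by
        obtain ⟨p, hp, hpq⟩ := Finset.mem_image.1 q.2
        rw [← hpq, g.symm_apply_apply]
        exact hp⟩
      have he : Function.Injective e := by
        intro a b hab
        have h2 : g.symm (a : V) = g.symm (b : V) := congrArg Subtype.val hab
        exact Subtype.ext (g.symm.injective h2)
      have h3 := h1.comp e he
      have h4 : ((fun p : R₀ => g (p : V)) ∘ e) = fun q : ↥(R₀.image g) => (q : V) := by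
        funext q
        show g (g.symm (q : V)) = q
        exact g.apply_symm_apply _
      rw [h4] at h3
      exact h3
    · rw [Finset.card_image_of_injective _ hinj]
      exact hR₀.card
    · intro i
      rcases lt_or_gt_of_ne (hx i) with h | h
      · right
        intro q hq
        obtain ⟨p, hp, rfl⟩ := Finset.mem_image.1 hq
        have := hmem p hp i
        by_contra hc
        push Not at hc
        have := mul_neg_of_neg_of_pos h hc
        linarith
      · left
        intro q hq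
        obtain ⟨p, hp, rfl⟩ := Finset.mem_image.1 hq
        have := hmem p hp i
        exact nonneg_of_mul_nonneg_right this h
    · intro q hq
      obtain ⟨p, hp, rfl⟩ := Finset.mem_image.1 hq
      obtain ⟨_, hnu0, hnu1⟩ := nu_spec hR₀.li hR₀.card hp
      have hex : ∃ i, inner ℝ (N i) (∑ q ∈ R₀.erase p, g q) = 0 := by
        by_contra hc
        push Not at hc
        have hpos : ∀ i, 0 < inner ℝ (N i) x * inner ℝ (N i) (∑ q ∈ R₀.erase p, g q) := by
          intro i
          refine lt_of_le_of_ne ?_ (Ne.symm (mul_ne_zero (hx i) (hc i)))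
          rw [inner_sum, Finset.mul_sum]
          exact Finset.sum_nonneg (fun q hq => hmem q (Finset.mem_of_mem_erase hq) i)
        have hev : ∀ᶠ δ : ℝ in nhdsWithin 0 (Set.Ioi 0), ∀ i,
            δ * (inner ℝ (N i) x * inner ℝ (N i) (g p)) <
              inner ℝ (N i) x * inner ℝ (N i) (∑ q ∈ R₀.erase p, g q) := by
          rw [Filter.eventually_all]
          intro i
          have hcont : Filter.Tendsto (fun δ : ℝ => δ * (inner ℝ (N i) x * inner ℝ (N i) (g p)))
              (nhdsWithin 0 (Set.Ioi 0)) (nhds (0 * (inner ℝ (N i) x * inner ℝ (N i) (g p)))) :=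
            ((continuous_id.mul continuous_const).tendsto 0).mono_left nhdsWithin_le_nhds
          rw [zero_mul] at hcont
          exact hcont.eventually_lt_const (hpos i)
        obtain ⟨δ, hδ, hδ0⟩ := (hev.and self_mem_nhdsWithin).exists
        have hδ0' : 0 < δ := hδ0
        have hz : (∑ q ∈ R₀.erase p, g q) - δ • g p ∈ Cone N x := by
          intro i
          have := hδ i
          rw [inner_sub_right, inner_smul_right]
          linarith
        rw [← hg] at hz
        obtain ⟨w, hw, hgw⟩ := hz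
        have hw2 : w = (∑ q ∈ R₀.erase p, q) - δ • p := by
          apply hinj
          rw [hgw, map_sub, map_sum, map_smul]
        have h5 := cone_nu hA hR₀ hw hp
        rw [hw2, inner_sub_right, inner_sum, inner_smul_right] at h5
        have h6 : ∑ q ∈ R₀.erase p, (inner ℝ (nu R₀ p) q : ℝ) = 0 :=
          Finset.sum_eq_zero (fun q hq => hnu0 q (Finset.mem_of_mem_erase hq)
            (Finset.ne_of_mem_erase hq))
        rw [h6] at h5
        have := mul_pos hδ0' hnu1
        linarith
      obtain ⟨i, hi⟩ := hex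
      refine ⟨i, ?_⟩
      intro q' hq' hne
      obtain ⟨q, hq, rfl⟩ := Finset.mem_image.1 hq'
      have hqp : q ≠ p := fun h => hne (by rw [h])
      have hsum : ∑ q ∈ R₀.erase p, (inner ℝ (N i) x * inner ℝ (N i) (g q) : ℝ) = 0 := by
        rw [← Finset.mul_sum, ← inner_sum, hi, mul_zero]
      have h7 := (Finset.sum_eq_zero_iff_of_nonneg
        (fun q hq => hmem q (Finset.mem_of_mem_erase hq) i)).1 hsum q
        (Finset.mem_erase.2 ⟨hqp, hq⟩)
      rcases mul_eq_zero.1 h7 with h8 | h8
      · exact absurd h8 (hx i)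
      · exact h8
  refine ⟨hch, ?_⟩
  intro i
  have h1 : inner ℝ (N i) (ctr (R₀.image g)) ≠ 0 := ctr_gen hA hch i
  refine lt_of_le_of_ne ?_ (Ne.symm (mul_ne_zero (hx i) h1))
  unfold ctr
  rw [Finset.sum_image (fun a _ b _ h => hinj h), inner_sum, Finset.mul_sum]
  exact Finset.sum_nonneg (fun q hq => hmem q hq i)

theorem simp_of_isometric [FiniteDimensional ℝ V] [Finite ι] {N : ι → V} (hA : Arr N)
    (hiso : ∀ x y, Gen N x → Gen N y → ∃ g : V ≃ₗᵢ[ℝ] V, g '' Cone N x = Cone N y)
    {R₀ : Finset V} (hR₀ : IsCh N R₀) :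
    Simp N ∧ ∀ R R', IsCh N R → IsCh N R' → ∃ g : V ≃ₗᵢ[ℝ] V, R.image g = R' := by
  constructor
  · intro x hx
    obtain ⟨g, hg⟩ := hiso (ctr R₀) x (ctr_gen hA hR₀) hx
    exact ⟨R₀.image g, image_chamber hA hR₀ hx g hg⟩
  · intro R R' hR hR'
    obtain ⟨g, hg⟩ := hiso (ctr R) (ctr R') (ctr_gen hA hR) (ctr_gen hA hR')
    refine ⟨g, ?_⟩
    obtain ⟨h1, h2⟩ := image_chamber hA hR (ctr_gen hA hR') g hg
    refine same_of_sign hA h1 hR' ?_
    intro i
    rw [mul_comm]
    exact h2 i

end Pool.Agent.Helper15.Iso
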