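import Mathlib
import Pool.Agent.Helper15.Iso.Flags
import Pool.Agent.Helper15.Iso.Planar
import Pool.Agent.Helper15.Iso.Local
import Pool.Agent.Helper15.Iso.Face
import Pool.Agent.Helper15.Iso.Transport
import Pool.Agent.Helper15.Iso.Exists
import Pool.Agent.Helper15.Iso.Gram
set_option autoImplicit false
open Module Finset
open scoped Classical

namespace Pool.Agent.Helper15.Iso
variable {V : Type*} [NormedAddCommGroup V] [InnerProductSpace ℝ V]
variable {ι : Type*}

/-- triples (chamber, ordered pair of distinct rays) -/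
noncomputable def TT [FiniteDimensional ℝ V] [Finite ι] {N : ι → V} (hA : Arr N) :
    Finset (Σ _ : Finset V, V × V) :=
  (finite_chambers hA).toFinset.sigma (fun R => (R ×ˢ R).filter (fun x => x.1 ≠ x.2))

theorem mem_TT [FiniteDimensional ℝ V] [Finite ι] {N : ι → V} (hA : Arr N)
    (x : Σ _ : Finset V, V × V) : x ∈ TT hA ↔
      IsCh N x.1 ∧ x.2.1 ∈ x.1 ∧ x.2.2 ∈ x.1 ∧ x.2.1 ≠ x.2.2 := by
  unfold TT
  simp only [mem_sigma, Set.Finite.mem_toFinset, Set.mem_setOf_eq, mem_filter, mem_product]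
  tauto

/-- the triple function -/
noncomputable def gg [Fintype ι] (N : ι → V) (x : Σ _ : Finset V, V × V) : ℝ :=
  ww x.1 x.2.1 x.2.2 * (inner ℝ (vv N x.1) (nu x.1 x.2.1) - 1)

/-- the codimension 2 face of a triple -/
noncomputable def eE (x : Σ _ : Finset V, V × V) : Finset V := (x.1.erase x.2.1).erase x.2.2

theorem triple_sum_zero [FiniteDimensional ℝ V] [Fintype ι] {N : ι → V} (hA : Arr N) (hS : Simp N)
    (hI : ∀ R R', IsCh N R → IsCh N R' → ∃ g : V ≃ₗᵢ[ℝ] V, R.image g = R') :
    ∑ x ∈ TT hA, gg N x = 0 := by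
  rw [← flag_sum_zero hA hS hI]
  unfold TT
  rw [Finset.sum_sigma, Finset.sum_sigma]
  refine Finset.sum_congr rfl fun R hR => ?_
  have hc : IsCh N R := by simpa using hR
  rw [Finset.sum_filter_of_ne, Finset.sum_product]
  · refine Finset.sum_congr rfl fun p hp => ?_
    unfold gg ff KK
    rw [Finset.sum_mul]
  · rintro ⟨p, s⟩ hx h he
    apply h
    simp only at he
    subst he
    have hp : p ∈ R := (Finset.mem_product.1 hx).1
    unfold gg ww
    simp only
    rw [real_inner_self_eq_norm_sq, (nu_spec hc.li hc.card hp).1]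
    norm_num

theorem refl_trig (f1 f2 : V) (h1 : ‖f1‖ = 1) (h2 : ‖f2‖ = 1) (h12 : inner ℝ f1 f2 = (0:ℝ))
    (x y : ℝ) : inner ℝ (Real.cos x • f1 + Real.sin x • f2) (Real.cos y • f1 + Real.sin y • f2)
      = Real.cos (x - y) := by
  have e1 : inner ℝ f1 f1 = (1:ℝ) := by rw [real_inner_self_eq_norm_sq, h1]; norm_num
  have e2 : inner ℝ f2 f2 = (1:ℝ) := by rw [real_inner_self_eq_norm_sq, h2]; norm_num
  have e3 : inner ℝ f2 f1 = (0:ℝ) := by rw [real_inner_comm]; exact h12
  simp only [inner_add_left, inner_add_right, real_inner_smul_left, real_inner_smul_right, e1, e2,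
    e3, h12, Real.cos_sub]
  ring

theorem refl_vec (f1 f2 : V) (x y : ℝ) :
    (Real.cos y • f1 + Real.sin y • f2) - (2 * Real.cos (x - y)) •
      (Real.cos x • f1 + Real.sin x • f2) = - (Real.cos (2 * x - y) • f1 + Real.sin (2 * x - y) • f2) := by
  have hs := Real.sin_sq_add_cos_sq x
  have e1 : Real.cos y - 2 * Real.cos (x - y) * Real.cos x = - Real.cos (2 * x - y) := by
    rw [show 2 * x - y = x + (x - y) by ring, Real.cos_add, Real.cos_sub, Real.sin_sub]
    linear_combination (-Real.cos y) * hs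
  have e2 : Real.sin y - 2 * Real.cos (x - y) * Real.sin x = - Real.sin (2 * x - y) := by
    rw [show 2 * x - y = x + (x - y) by ring, Real.sin_add, Real.cos_sub, Real.sin_sub]
    linear_combination (-Real.sin y) * hs
  rw [smul_add, smul_smul, smul_smul]
  have : (Real.cos y • f1 + Real.sin y • f2) - ((2 * Real.cos (x - y) * Real.cos x) • f1 +
      (2 * Real.cos (x - y) * Real.sin x) • f2) =
      (Real.cos y - 2 * Real.cos (x - y) * Real.cos x) • f1 +
      (Real.sin y - 2 * Real.cos (x - y) * Real.sin x) • f2 := by module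
  rw [this, e1, e2]
  module

/-- contribution of one codimension 2 face -/
theorem local_sum [FiniteDimensional ℝ V] [Fintype ι] {N : ι → V} (hA : Arr N) (hS : Simp N)
    (hI : ∀ R R', IsCh N R → IsCh N R' → ∃ g : V ≃ₗᵢ[ℝ] V, R.image g = R')
    {R₀ : Finset V} (hR₀ : IsCh N R₀) {p₀ s₀ : V} (hp₀ : p₀ ∈ R₀) (hs₀ : s₀ ∈ R₀)
    (hne : p₀ ≠ s₀) :
    (∑ x ∈ (TT hA).filter (fun x => eE x = (R₀.erase p₀).erase s₀), gg N x ≤ 0) ∧
    ((∑ x ∈ (TT hA).filter (fun x => eE x = (R₀.erase p₀).erase s₀), gg N x = 0) →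
      ∀ i j, (∀ q ∈ (R₀.erase p₀).erase s₀, inner ℝ (N i) q = 0) →
        (∀ q ∈ (R₀.erase p₀).erase s₀, inner ℝ (N j) q = 0) →
        ∃ k, N j - (2 * inner ℝ (N i) (N j)) • N i = N k ∨
          N j - (2 * inner ℝ (N i) (N j)) • N i = - N k) := by
  obtain ⟨f1, f2, t, m, a, ch, pp, ss, hf1, hf2, hf12, hm, ha, hper, hN1, hN2, hch, hinj, hsurj⟩ :=
    local_structure hA hS hR₀ hp₀ hs₀ hne
  set E : Finset V := (R₀.erase p₀).erase s₀ with hE
  set u : ℕ → V := fun k => Real.cos (a k) • f1 + Real.sin (a k) • f2 with hu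
  -- reindex
  have hre : ∑ x ∈ (TT hA).filter (fun x => eE x = E), gg N x
      = ∑ k ∈ range (2 * m), (gg N ⟨ch k, (pp k, ss k)⟩ + gg N ⟨ch k, (ss k, pp k)⟩) := by
    have h2 : ∑ k ∈ range (2 * m), (gg N ⟨ch k, (pp k, ss k)⟩ + gg N ⟨ch k, (ss k, pp k)⟩)
        = ∑ y ∈ (range (2 * m)) ×ˢ (Finset.univ : Finset Bool),
          gg N ⟨ch y.1, (if y.2 then pp y.1 else ss y.1, if y.2 then ss y.1 else pp y.1)⟩ := by
      rw [Finset.sum_product]
      refine Finset.sum_congr rfl fun k _ => ?_
      simp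
    rw [h2]
    symm
    refine Finset.sum_bij (fun y _ => (⟨ch y.1, (if y.2 then pp y.1 else ss y.1,
      if y.2 then ss y.1 else pp y.1)⟩ : Σ _ : Finset V, V × V)) ?_ ?_ ?_ ?_
    · rintro ⟨k, b⟩ hk
      have hk' : k < 2 * m := by simpa using hk
      obtain ⟨c1, c2, c3, c4, c5, c6, c7, c8⟩ := hch k hk'
      rw [Finset.mem_filter, mem_TT]
      cases b
      · refine ⟨⟨c1, c3, c2, fun h => c4 h.symm⟩, ?_⟩
        unfold eE
        simp only [Bool.false_eq_true, if_false]
        rw [Finset.erase_right_comm]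
        exact c5
      · exact ⟨⟨c1, c2, c3, c4⟩, c5⟩
    · rintro ⟨k, b⟩ hk ⟨l, c⟩ hl h
      have hk' : k < 2 * m := by simpa using hk
      have hl' : l < 2 * m := by simpa using hl
      have h1 : ch k = ch l := congrArg (fun y : (Σ _ : Finset V, V × V) => y.1) h
      have hkl := hinj k hk' l hl' h1
      subst hkl
      obtain ⟨c1, c2, c3, c4, c5, c6, c7, c8⟩ := hch k hk'
      have h3 : (if b then pp k else ss k) = (if c then pp k else ss k) :=
        congrArg (fun y : (Σ _ : Finset V, V × V) => y.2.1) h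
      cases b <;> cases c <;> simp at h3 ⊢
      · exact c4 h3.symm
      · exact c4 h3
    · rintro ⟨R, p, s⟩ hx
      rw [Finset.mem_filter, mem_TT] at hx
      obtain ⟨⟨d1, d2, d3, d4⟩, d5⟩ := hx
      simp only at d1 d2 d3 d4
      unfold eE at d5
      simp only at d5
      have hsub : E ⊆ R := by
        rw [← d5]; exact (Finset.erase_subset _ _).trans (Finset.erase_subset _ _)
      obtain ⟨k, hk, hkR⟩ := hsurj R d1 hsub
      obtain ⟨c1, c2, c3, c4, c5, c6, c7, c8⟩ := hch k hk
      have hp : p = pp k ∨ p = ss k := by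
        by_contra hcon
        push_neg at hcon
        have : p ∈ ((ch k).erase (pp k)).erase (ss k) := by
          rw [Finset.mem_erase, Finset.mem_erase, hkR]; exact ⟨hcon.2, hcon.1, d2⟩
        rw [c5, ← d5] at this
        simp at this
      have hs : s = pp k ∨ s = ss k := by
        by_contra hcon
        push_neg at hcon
        have : s ∈ ((ch k).erase (pp k)).erase (ss k) := by
          rw [Finset.mem_erase, Finset.mem_erase, hkR]; exact ⟨hcon.2, hcon.1, d3⟩
        rw [c5, ← d5] at this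
        simp at this
      rcases hp with hp | hp
      · have hs' : s = ss k := by
          rcases hs with hs | hs
          · exact absurd (hp.trans hs.symm) d4
          · exact hs
        refine ⟨(k, true), by simpa using hk, ?_⟩
        simp [hkR, hp, hs']
      · have hs' : s = pp k := by
          rcases hs with hs | hs
          · exact hs
          · exact absurd (hp.trans hs.symm) d4
        refine ⟨(k, false), by simpa using hk, ?_⟩
        simp [hkR, hp, hs']
    · intro y hy; rfl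
  -- trigonometric data
  have hθ : ∀ k, 0 < Real.sin (a (k + 1) - a k) := by
    intro k
    apply Real.sin_pos_of_pos_of_lt_pi
    · have := ha (Nat.lt_succ_self k); simp at this; linarith
    · have h1 : a (k + 1) < a (k + m) := ha (by omega)
      rw [hper] at h1; linarith
  have hGE : 0 < GD E := by
    apply GD_pos
    have hsub : E ⊆ R₀ := (Finset.erase_subset _ _).trans (Finset.erase_subset _ _)
    exact hR₀.li.comp (fun x : E => (⟨x.1, hsub x.2⟩ : R₀)) (fun x y h => by
      apply Subtype.ext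
      exact congrArg (fun z : R₀ => (z : V)) h)
  have hG0 : 0 < GD R₀ := GD_pos _ hR₀.li
  set μ : ℝ := Real.sqrt (GD E / GD R₀) with hμ
  have hμpos : 0 < μ := Real.sqrt_pos.2 (div_pos hGE hG0)
  have hGk : ∀ k < 2 * m, GD (ch k) = GD R₀ := by
    intro k hk
    obtain ⟨g, hg⟩ := hI _ _ hR₀ (hch k hk).1
    rw [← hg, GD_image]
  have hinn : ∀ k, inner ℝ (u (k + 1)) (- u k) = - Real.cos (a (k + 1) - a k) := by
    intro k
    rw [inner_neg_right]
    simp only [hu]
    rw [refl_trig f1 f2 hf1 hf2 hf12]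
  have hww : ∀ k < 2 * m, ww (ch k) (pp k) (ss k)
      = μ * ((1 + Real.cos (a (k + 1) - a k)) / Real.sin (a (k + 1) - a k)) ∧
      ww (ch k) (ss k) (pp k)
      = μ * ((1 + Real.cos (a (k + 1) - a k)) / Real.sin (a (k + 1) - a k)) := by
    intro k hk
    obtain ⟨c1, c2, c3, c4, c5, c6, c7, c8⟩ := hch k hk
    have s1 := nu_spec c1.li c1.card c2
    have s2 := nu_spec c1.li c1.card c3
    have hsine := GD_sine (ch k) c1.li c1.card (pp k) (ss k) c2 c3 c4 (nu (ch k) (pp k))
      (nu (ch k) (ss k)) s1.1 s2.1 s1.2.1 s2.2.1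
    have hc : inner ℝ (nu (ch k) (pp k)) (nu (ch k) (ss k)) = - Real.cos (a (k + 1) - a k) := by
      rw [c6, c7]; exact hinn k
    rw [c5, hGk k hk, hc] at hsine
    set H : ℝ := inner ℝ (nu (ch k) (pp k)) (pp k) * inner ℝ (nu (ch k) (ss k)) (ss k) with hH
    have hHpos : 0 < H := mul_pos s1.2.2 s2.2.2
    have hsin := hθ k
    have hsc := Real.sin_sq_add_cos_sq (a (k + 1) - a k)
    have e1 : (Real.sin (a (k + 1) - a k)) ^ 2 = (μ * H) ^ 2 := by
      rw [mul_pow, hμ, Real.sq_sqrt (div_pos hGE hG0).le, div_mul_eq_mul_div, eq_div_iff hG0.ne',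
        ← hsine]
      linear_combination (GD R₀) * hsc
    have e2 : Real.sin (a (k + 1) - a k) = μ * H := by
      have h3 := mul_pos hμpos hHpos
      nlinarith [e1, hsin, h3]
    have e3 : ww (ch k) (pp k) (ss k)
      = μ * ((1 + Real.cos (a (k + 1) - a k)) / Real.sin (a (k + 1) - a k)) := by
      unfold ww
      rw [hc, ← hH, e2]
      field_simp
      ring
    refine ⟨e3, ?_⟩
    rw [← e3]
    unfold ww
    rw [real_inner_comm, mul_comm (inner ℝ (nu (ch k) (ss k)) (ss k))]
  have hterm : ∀ k ∈ range (2 * m), (gg N ⟨ch k, (pp k, ss k)⟩ + gg N ⟨ch k, (ss k, pp k)⟩)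
      = μ * ((1 + Real.cos (a (k + 1) - a k)) / Real.sin (a (k + 1) - a k) *
      ((inner ℝ t f1 * Real.cos (a (k + 1)) + inner ℝ t f2 * Real.sin (a (k + 1)))
        - (inner ℝ t f1 * Real.cos (a k) + inner ℝ t f2 * Real.sin (a k))
        + ∑ r ∈ range m, (Real.cos (a (k + 1 + r) - a (k + 1)) - Real.cos (a (k + 1 + r) - a k)) - 2)) := by
    intro k hk
    have hk' : k < 2 * m := by simpa using hk
    obtain ⟨c1, c2, c3, c4, c5, c6, c7, c8⟩ := hch k hk'
    unfold gg
    simp only
    rw [(hww k hk').1, (hww k hk').2, c6, c7, c8]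
    have e1 : inner ℝ (t + ∑ r ∈ range m, (Real.cos (a (k + 1 + r)) • f1 + Real.sin (a (k + 1 + r)) • f2))
        (Real.cos (a (k + 1)) • f1 + Real.sin (a (k + 1)) • f2)
        = (inner ℝ t f1 * Real.cos (a (k + 1)) + inner ℝ t f2 * Real.sin (a (k + 1)))
          + ∑ r ∈ range m, Real.cos (a (k + 1 + r) - a (k + 1)) := by
      rw [inner_add_left, sum_inner]
      congr 1
      · rw [inner_add_right, real_inner_smul_right, real_inner_smul_right]; ring
      · exact Finset.sum_congr rfl fun r _ => refl_trig f1 f2 hf1 hf2 hf12 _ _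
    have e2 : inner ℝ (t + ∑ r ∈ range m, (Real.cos (a (k + 1 + r)) • f1 + Real.sin (a (k + 1 + r)) • f2))
        (-(Real.cos (a k) • f1 + Real.sin (a k) • f2))
        = - ((inner ℝ t f1 * Real.cos (a k) + inner ℝ t f2 * Real.sin (a k))
          + ∑ r ∈ range m, Real.cos (a (k + 1 + r) - a k)) := by
      rw [inner_neg_right, inner_add_left, sum_inner]
      congr 2
      · rw [inner_add_right, real_inner_smul_right, real_inner_smul_right]; ring
      · exact Finset.sum_congr rfl fun r _ => refl_trig f1 f2 hf1 hf2 hf12 _ _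
    rw [e1, e2, Finset.sum_sub_distrib]
    ring
  have hsum : ∑ x ∈ (TT hA).filter (fun x => eE x = E), gg N x
      = μ * (2 * ∑ k ∈ range (2 * m), ∑ s ∈ range m, Real.sin (a (k + s) - a k)
        - 2 * ∑ k ∈ range (2 * m), (1 + Real.cos (a (k + 1) - a k)) / Real.sin (a (k + 1) - a k)) := by
    rw [hre, Finset.sum_congr rfl hterm, ← Finset.mul_sum,
      planar_sum m hm a ha hper (inner ℝ t f1) (inner ℝ t f2)]
  obtain ⟨hle, heq⟩ := planar_ineq m hm a ha hper
  rw [hsum]
  refine ⟨?_, ?_⟩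
  · have : 2 * ∑ k ∈ range (2 * m), ∑ s ∈ range m, Real.sin (a (k + s) - a k)
        - 2 * ∑ k ∈ range (2 * m), (1 + Real.cos (a (k + 1) - a k)) / Real.sin (a (k + 1) - a k) ≤ 0 := by
      linarith
    exact mul_nonpos_of_nonneg_of_nonpos hμpos.le this
  · intro h0 i j hi hj
    have h1 : 2 * ∑ k ∈ range (2 * m), ∑ s ∈ range m, Real.sin (a (k + s) - a k)
        - 2 * ∑ k ∈ range (2 * m), (1 + Real.cos (a (k + 1) - a k)) / Real.sin (a (k + 1) - a k) = 0 := by
      rcases mul_eq_zero.1 h0 with h | h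
      · exact absurd h hμpos.ne'
      · exact h
    have hreg := heq (by linarith)
    have hak : ∀ k : ℕ, a k = a 0 + k * (Real.pi / m) := by
      intro k
      induction k with
      | zero => simp
      | succ k ih => have := hreg k; push_cast; linarith
    have hm0 : (m : ℝ) ≠ 0 := by positivity
    obtain ⟨k, hk⟩ := hN2 i hi
    obtain ⟨l, hl⟩ := hN2 j hj
    -- index of the reflected normal
    have hj' : a (2 * k + l * (2 * m - 1)) = (2 * a k - a l) + l * (2 * Real.pi) := by
      rw [hak, hak k, hak l]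
      have : ((2 * k + l * (2 * m - 1) : ℕ) : ℝ) = 2 * k + l * (2 * m - 1) := by
        rw [Nat.cast_add, Nat.cast_mul, Nat.cast_mul, Nat.cast_sub (by omega)]
        push_cast; ring
      rw [this]
      field_simp
      ring
    obtain ⟨i', hi'⟩ := hN1 (2 * k + l * (2 * m - 1))
    rw [hj', Real.cos_add_nat_mul_two_pi, Real.sin_add_nat_mul_two_pi] at hi'
    refine ⟨i', ?_⟩
    have hcos : inner ℝ (Real.cos (a k) • f1 + Real.sin (a k) • f2)
        (Real.cos (a l) • f1 + Real.sin (a l) • f2) = Real.cos (a k - a l) :=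
      refl_trig f1 f2 hf1 hf2 hf12 _ _
    have hv := refl_vec f1 f2 (a k) (a l)
    set X := Real.cos (a k) • f1 + Real.sin (a k) • f2 with hX
    set Y := Real.cos (a l) • f1 + Real.sin (a l) • f2 with hY
    set Z := Real.cos (2 * a k - a l) • f1 + Real.sin (2 * a k - a l) • f2 with hZ
    have hval : N j - (2 * inner ℝ (N i) (N j)) • N i = - Z ∨
        N j - (2 * inner ℝ (N i) (N j)) • N i = Z := by
      rcases hk with hk | hk <;> rcases hl with hl | hl <;> rw [hk, hl]
      · left; rw [hcos, hv]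
      · right
        rw [inner_neg_right, hcos]
        have : -Y - (2 * -Real.cos (a k - a l)) • X = -(Y - (2 * Real.cos (a k - a l)) • X) := by module
        rw [this, hv, neg_neg]
      · left
        rw [inner_neg_left, hcos]
        have : Y - (2 * -Real.cos (a k - a l)) • (-X) = (Y - (2 * Real.cos (a k - a l)) • X) := by module
        rw [this, hv]
      · right
        rw [inner_neg_left, inner_neg_right, neg_neg, hcos]
        have : -Y - (2 * Real.cos (a k - a l)) • (-X) = -(Y - (2 * Real.cos (a k - a l)) • X) := by module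
        rw [this, hv, neg_neg]
    rcases hval with h | h <;> rcases hi' with h' | h' <;> rw [h, h']
    · right; rfl
    · left; rfl
    · left; rfl
    · right; rw [neg_neg]

/-- main theorem for essential arrangements -/
theorem essential [FiniteDimensional ℝ V] [Fintype ι] {N : ι → V} (hA : Arr N)
    (hspan : ∀ v, (∀ i, inner ℝ (N i) v = 0) → v = 0)
    (hiso : ∀ x y, Gen N x → Gen N y → ∃ g : V ≃ₗᵢ[ℝ] V, g '' Cone N x = Cone N y) (i j : ι) :
    ∃ k, N j - (2 * inner ℝ (N i) (N j)) • N i = N k ∨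
      N j - (2 * inner ℝ (N i) (N j)) • N i = - N k := by
  obtain ⟨R₀, hR₀⟩ := exists_ch hspan
  obtain ⟨hS, hI⟩ := simp_of_isometric hA hiso hR₀
  by_cases hij : i = j
  · subst hij
    refine ⟨i, Or.inr ?_⟩
    rw [real_inner_self_eq_norm_sq, hA.unit]
    module
  obtain ⟨R, hR, p, hp, s, hs, hps, hi, hj⟩ := exists_face hA hS i j hij
  have hsum := triple_sum_zero hA hS hI
  rw [← Finset.sum_fiberwise_of_maps_to (g := eE) (t := (TT hA).image eE)
    (fun x hx => Finset.mem_image_of_mem _ hx)] at hsum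
  have hle : ∀ E ∈ (TT hA).image eE, ∑ x ∈ (TT hA).filter (fun x => eE x = E), gg N x ≤ 0 := by
    intro E hE
    obtain ⟨x, hx, rfl⟩ := Finset.mem_image.1 hE
    obtain ⟨h1, h2, h3, h4⟩ := (mem_TT hA x).1 hx
    exact (local_sum hA hS hI h1 h2 h3 h4).1
  have hzero := (Finset.sum_eq_zero_iff_of_nonpos hle).1 hsum
  have hmem : (⟨R, (p, s)⟩ : Σ _ : Finset V, V × V) ∈ TT hA := (mem_TT hA _).2 ⟨hR, hp, hs, hps⟩
  have hz := hzero _ (Finset.mem_image_of_mem eE hmem)
  refine (local_sum hA hS hI hR hp hs hps).2 hz i j ?_ ?_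
  · intro q hq
    rw [Finset.mem_erase, Finset.mem_erase] at hq
    exact hi q hq.2.2 hq.2.1 hq.1
  · intro q hq
    rw [Finset.mem_erase, Finset.mem_erase] at hq
    exact hj q hq.2.2 hq.2.1 hq.1

end Pool.Agent.Helper15.Iso
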