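import Mathlib
set_option autoImplicit false
open Module

namespace Pool.Agent.Helper15.Iso
variable {V : Type*} [NormedAddCommGroup V] [InnerProductSpace ℝ V]

open Filter Topology in
theorem aux663_lin (C C' : Set V) (hC' : IsClosed C')
    (hcone : ∀ x ∈ C, ∀ t : ℝ, 0 ≤ t → t • x ∈ C) (hcone' : ∀ x ∈ C', ∀ t : ℝ, 0 ≤ t → t • x ∈ C')
    (g : V ≃ᵢ V) (hg : ∀ y ∈ C, g y ∈ C') : ∀ y ∈ C, g.toRealLinearIsometryEquiv y ∈ C' := by
  intro y hy
  have hk : ∀ k : ℕ, g.toRealLinearIsometryEquiv y + (1 / ((k : ℝ) + 1)) • g 0 ∈ C' := by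
    intro k
    have hk0 : (0 : ℝ) < (k : ℝ) + 1 := by positivity
    have h1 := hg _ (hcone y hy ((k : ℝ) + 1) hk0.le)
    have h2 := hcone' _ h1 (1 / ((k : ℝ) + 1)) (by positivity)
    have h3 : g (((k : ℝ) + 1) • y) = ((k : ℝ) + 1) • g.toRealLinearIsometryEquiv y + g 0 := by
      rw [← map_smul, IsometryEquiv.toRealLinearIsometryEquiv_apply, sub_add_cancel]
    rw [h3, smul_add, smul_smul, one_div, inv_mul_cancel₀ hk0.ne', one_smul] at h2
    rw [one_div]
    exact h2
  have hlim : Tendsto (fun k : ℕ => g.toRealLinearIsometryEquiv y + (1 / ((k : ℝ) + 1)) • g 0) atTop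
      (𝓝 (g.toRealLinearIsometryEquiv y)) := by
    have h1 : Tendsto (fun k : ℕ => (1 / ((k : ℝ) + 1)) • g 0) atTop (𝓝 ((0 : ℝ) • g 0)) :=
      tendsto_one_div_add_atTop_nhds_zero_nat.smul_const _
    rw [zero_smul] at h1
    simpa using tendsto_const_nhds.add h1
  exact hC'.mem_of_tendsto hlim (Eventually.of_forall hk)

/-- Job H1: an isometry between closed cones can be replaced by a linear isometry. -/
theorem linear_of_isometry (C C' : Set V) (hC : IsClosed C) (hC' : IsClosed C')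
    (hcone : ∀ x ∈ C, ∀ t : ℝ, 0 ≤ t → t • x ∈ C) (hcone' : ∀ x ∈ C', ∀ t : ℝ, 0 ≤ t → t • x ∈ C')
    (g : V ≃ᵢ V) (hg : g '' C = C') : ∃ g0 : V ≃ₗᵢ[ℝ] V, g0 '' C = C' := by
  refine ⟨g.toRealLinearIsometryEquiv, Set.Subset.antisymm ?_ ?_⟩
  · rintro _ ⟨y, hy, rfl⟩
    exact aux663_lin C C' hC' hcone hcone' g (fun y hy => hg ▸ ⟨y, hy, rfl⟩) y hy
  · intro z hz
    have h1 := aux663_lin C' C hC hcone' hcone g.symm (fun y hy => by
      rw [← hg] at hy
      obtain ⟨w, hw, rfl⟩ := hy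
      rw [IsometryEquiv.symm_apply_apply]
      exact hw) z hz
    refine ⟨_, h1, ?_⟩
    rw [IsometryEquiv.toRealLinearIsometryEquiv_apply g.symm, map_sub,
      IsometryEquiv.toRealLinearIsometryEquiv_apply g,
      IsometryEquiv.toRealLinearIsometryEquiv_apply g, IsometryEquiv.apply_symm_apply,
      IsometryEquiv.apply_symm_apply]
    abel

/-- Job H2: restriction of a linear isometry between two chambers to the span of the normals. -/
theorem restrict_isometry [FiniteDimensional ℝ V] {ι : Type*} [Finite ι] (N : ι → V) (x y : V)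
    (hx : ∀ i, inner ℝ (N i) x ≠ 0) (hy : ∀ i, inner ℝ (N i) y ≠ 0) (g : V ≃ₗᵢ[ℝ] V)
    (hg : g '' {z | ∀ i, 0 ≤ inner ℝ (N i) x * inner ℝ (N i) z}
      = {z | ∀ i, 0 ≤ inner ℝ (N i) y * inner ℝ (N i) z}) :
    ∃ g' : Submodule.span ℝ (Set.range N) ≃ₗᵢ[ℝ] Submodule.span ℝ (Set.range N),
      ∀ z : Submodule.span ℝ (Set.range N), ((g' z : Submodule.span ℝ (Set.range N)) : V) = g z := by
  -- the lineality space
  have hsymm : ∀ z : V, (∀ i, inner ℝ (N i) z = 0) → ∀ i, inner ℝ (N i) (g.symm z) = 0 := by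
    intro z hz i
    have h1 : z ∈ {z | ∀ i, 0 ≤ inner ℝ (N i) y * inner ℝ (N i) z} := fun i => by
      rw [hz i, mul_zero]
    have h2 : -z ∈ {z | ∀ i, 0 ≤ inner ℝ (N i) y * inner ℝ (N i) z} := fun i => by
      rw [inner_neg_right, hz i, neg_zero, mul_zero]
    rw [← hg] at h1 h2
    obtain ⟨w, hw, hwz⟩ := h1
    obtain ⟨w', hw', hwz'⟩ := h2
    have e1 : g.symm z = w := by rw [← hwz, LinearIsometryEquiv.symm_apply_apply]
    have e2 : w' = -w := by
      apply g.injective
      rw [hwz', map_neg, hwz]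
    have a1 := hw i
    have a2 := hw' i
    rw [e2, inner_neg_right] at a2
    rw [e1]
    have a3 : inner ℝ (N i) x * inner ℝ (N i) w = 0 := by
      apply le_antisymm _ a1
      linarith
    exact (mul_eq_zero.1 a3).resolve_left (hx i)
  set W := Submodule.span ℝ (Set.range N) with hW
  have hperp : ∀ z : V, z ∈ Wᗮ ↔ ∀ i, inner ℝ (N i) z = 0 := by
    intro z
    rw [Submodule.mem_orthogonal]
    constructor
    · intro h i
      exact h _ (Submodule.subset_span ⟨i, rfl⟩)
    · intro h u hu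
      induction hu using Submodule.span_induction with
      | mem u hu => obtain ⟨i, rfl⟩ := hu; exact h i
      | zero => exact inner_zero_left _
      | add u v _ _ hu hv => rw [inner_add_left, hu, hv, add_zero]
      | smul c u _ hu => rw [inner_smul_left, hu, mul_zero]
  have hgW : ∀ w ∈ W, (g.toLinearEquiv : V →ₗ[ℝ] V) w ∈ W := by
    intro w hw
    show g w ∈ W
    rw [← Submodule.orthogonal_orthogonal W, Submodule.mem_orthogonal]
    intro z hz
    have h1 : g.symm z ∈ Wᗮ := (hperp _).2 (hsymm z ((hperp z).1 hz))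
    have h2 : inner ℝ z (g w) = inner ℝ (g.symm z) w := by
      rw [← g.inner_map_map (g.symm z) w, g.apply_symm_apply]
    rw [h2]
    exact (Submodule.mem_orthogonal' _ _).1 h1 w hw
  let li : W →ₗᵢ[ℝ] W :=
    { toLinearMap := (g.toLinearEquiv : V →ₗ[ℝ] V).restrict hgW
      norm_map' := fun z => by
        show ‖g z‖ = ‖z‖
        rw [g.norm_map]; rfl }
  exact ⟨li.toLinearIsometryEquiv rfl, fun z => rfl⟩

end Pool.Agent.Helper15.Iso
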