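import Mathlib
set_option autoImplicit false
open Module

namespace Pool.Agent.Helper15.Iso
variable {V : Type*} [NormedAddCommGroup V] [InnerProductSpace ℝ V]

/-- Job G: the closure of the connected component of `x` in the complement of the hyperplanes
`N i ^⊥` is the closed sign cone of `x`. -/
theorem chamber_eq {ι : Type*} [Finite ι] (N : ι → V) (x : V) (hx : ∀ i, inner ℝ (N i) x ≠ 0) :
    closure (connectedComponentIn {y | ∀ i, inner ℝ (N i) y ≠ 0} x)
      = {y | ∀ i, 0 ≤ inner ℝ (N i) x * inner ℝ (N i) y} := by
  set U : Set V := {y | ∀ i, inner ℝ (N i) y ≠ 0} with hU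
  set K : Set V := {y | ∀ i, 0 < inner ℝ (N i) x * inner ℝ (N i) y} with hK
  have hxU : x ∈ U := hx
  have hxK : x ∈ K := fun i => mul_self_pos.2 (hx i)
  have hKU : K ⊆ U := by
    intro y hy i h0
    have := hy i
    rw [h0, mul_zero] at this
    exact lt_irrefl _ this
  have hKconv : Convex ℝ K := by
    intro y hy z hz a b ha hb hab i
    have h1 := hy i
    have h2 := hz i
    rw [inner_add_right, real_inner_smul_right, real_inner_smul_right]
    have : inner ℝ (N i) x * (a * inner ℝ (N i) y + b * inner ℝ (N i) z) =
        a * (inner ℝ (N i) x * inner ℝ (N i) y) + b * (inner ℝ (N i) x * inner ℝ (N i) z) := by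
      ring
    rw [this]
    rcases ha.eq_or_lt with h | h
    · have hb1 : b = 1 := by linarith
      rw [← h, hb1]; linarith
    · have := mul_pos h h1
      have := mul_nonneg hb h2.le
      linarith
  have hcomp : connectedComponentIn U x = K := by
    apply Set.Subset.antisymm
    · intro y hy i
      by_contra hcon
      push Not at hcon
      have hpre := isPreconnected_connectedComponentIn (x := x) (F := U)
      have hcont : Continuous (fun z : V => inner ℝ (N i) x * inner ℝ (N i) z) := by fun_prop
      have himg := hpre.image _ hcont.continuousOn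
      have hx' : x ∈ connectedComponentIn U x := mem_connectedComponentIn hxU
      have h0 : (0:ℝ) ∈ (fun z : V => inner ℝ (N i) x * inner ℝ (N i) z) ''
          connectedComponentIn U x :=
        himg.ordConnected.out (Set.mem_image_of_mem _ hy) (Set.mem_image_of_mem _ hx')
          ⟨hcon, (hxK i).le⟩
      obtain ⟨z, hz, hz0⟩ := h0
      have hzU : z ∈ U := connectedComponentIn_subset _ _ hz
      exact mul_ne_zero (hx i) (hzU i) hz0
    · exact hKconv.isPreconnected.subset_connectedComponentIn hxK hKU
  rw [hcomp]
  apply Set.Subset.antisymm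
  · apply closure_minimal
    · intro y hy i; exact (hy i).le
    · have : {y : V | ∀ i, 0 ≤ inner ℝ (N i) x * inner ℝ (N i) y} =
          ⋂ i, {y | 0 ≤ inner ℝ (N i) x * inner ℝ (N i) y} := by ext y; simp
      rw [this]
      apply isClosed_iInter
      intro i
      exact isClosed_le continuous_const (by fun_prop)
  · intro y hy
    have hlim : Filter.Tendsto (fun t : ℝ => y + t • x) (nhdsWithin 0 (Set.Ioi 0)) (nhds y) := by
      have : Filter.Tendsto (fun t : ℝ => y + t • x) (nhds 0) (nhds (y + (0:ℝ) • x)) :=
        (Continuous.tendsto (by fun_prop) 0)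
      simp only [zero_smul, add_zero] at this
      exact this.mono_left nhdsWithin_le_nhds
    apply mem_closure_of_tendsto hlim
    filter_upwards [self_mem_nhdsWithin] with t ht i
    rw [inner_add_right, real_inner_smul_right]
    have h1 := hy i
    have h2 := hx i
    have ht' : (0:ℝ) < t := ht
    have h3 : 0 < t * (inner ℝ (N i) x * inner ℝ (N i) x) := mul_pos ht' (mul_self_pos.2 h2)
    nlinarith

end Pool.Agent.Helper15.Iso
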