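import Mathlib
import Pool.Agent.Helper15.Iso.Essential
import Pool.Agent.Helper15.Iso.Coxeter
import Pool.Agent.Helper15.Iso.Topo
import Pool.Agent.Helper15.Iso.Isometry
set_option autoImplicit false
open Module Finset
open scoped Classical

namespace Pool.Agent.Helper15.Iso

/-- complement of the union of the hyperplanes -/
def Compl {n : ℕ} (A : Set (Submodule ℝ (E n))) : Set (E n) := (⋃ H ∈ A, (H : Set (E n)))ᶜ

/-- chambers: closures of the connected components of the complement -/
def IsChamber {n : ℕ} (A : Set (Submodule ℝ (E n))) (C : Set (E n)) : Prop :=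
  ∃ x ∈ Compl A, C = closure (connectedComponentIn (Compl A) x)

/-- any two chambers are isometric by an isometry of the ambient Euclidean space -/
def IsometricChambers {n : ℕ} (A : Set (Submodule ℝ (E n))) : Prop :=
  ∀ C C', IsChamber A C → IsChamber A C' → ∃ g : E n ≃ᵢ E n, g '' C = C'

theorem final {n : ℕ} (A : Set (Submodule ℝ (E n))) (hfin : A.Finite)
    (hH : ∀ H ∈ A, IsHyperplane H) (hiso : IsometricChambers A) : IsCoxeter A := by
  have : Fintype A := hfin.fintype
  let N : A → E n := fun H => nrm (H : Submodule ℝ (E n))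
  have hmem : ∀ (H : A) (x : E n), x ∈ (H : Submodule ℝ (E n)) ↔ inner ℝ (N H) x = (0:ℝ) :=
    fun H x => mem_iff (hH H H.2) x
  have hunit : ∀ H : A, ‖N H‖ = 1 := fun H => nrm_norm (hH H H.2)
  have hext : ∀ H K : A, (∀ x, inner ℝ (N H) x = (0:ℝ) ↔ inner ℝ (N K) x = (0:ℝ)) → H = K := by
    intro H K h
    apply Subtype.ext
    ext x
    rw [hmem H, hmem K]; exact h x
  have hpar : ∀ H K : A, H ≠ K → N H ≠ N K ∧ N H ≠ - N K := by
    intro H K hHK
    constructor
    · intro h; exact hHK (hext H K fun x => by rw [h])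
    · intro h; exact hHK (hext H K fun x => by rw [h, inner_neg_left, neg_eq_zero])
  have hcompl : Compl A = {y | ∀ H : A, inner ℝ (N H) y ≠ (0:ℝ)} := by
    ext y
    simp only [Compl, Set.mem_compl_iff, Set.mem_iUnion, not_exists, Set.mem_ofPred_eq]
    constructor
    · intro h H h0
      exact h H H.2 ((hmem H y).2 h0)
    · intro h H hHA h0
      exact h ⟨H, hHA⟩ ((hmem ⟨H, hHA⟩ y).1 h0)
  have hclosed : ∀ x : E n, IsClosed (Cone N x) := by
    intro x
    have : Cone N x = ⋂ H : A, {y | 0 ≤ inner ℝ (N H) x * inner ℝ (N H) y} := by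
      ext y; simp [Cone]
    rw [this]
    exact isClosed_iInter fun H => isClosed_le continuous_const (by fun_prop)
  have hcone : ∀ x : E n, ∀ y ∈ Cone N x, ∀ t : ℝ, 0 ≤ t → t • y ∈ Cone N x := by
    intro x y hy t ht H
    rw [real_inner_smul_right]
    have := mul_nonneg ht (hy H)
    linarith [this, show inner ℝ (N H) x * (t * inner ℝ (N H) y)
      = t * (inner ℝ (N H) x * inner ℝ (N H) y) by ring]
  have hch : ∀ x : E n, Gen N x → IsChamber A (Cone N x) := by
    intro x hx
    refine ⟨x, by rw [hcompl]; exact hx, ?_⟩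
    rw [hcompl]
    exact (chamber_eq N x hx).symm
  -- the span of the normals
  let W : Submodule ℝ (E n) := Submodule.span ℝ (Set.range N)
  let N' : A → W := fun H => ⟨N H, Submodule.subset_span (Set.mem_range_self H)⟩
  have hA' : Arr N' := by
    refine ⟨fun H => by simpa using hunit H, fun H K hHK => ⟨fun h => (hpar H K hHK).1 ?_, fun h => (hpar H K hHK).2 ?_⟩⟩
    · exact congrArg Subtype.val h
    · exact congrArg Subtype.val h
  have hspan : ∀ v : W, (∀ H, inner ℝ (N' H) v = (0:ℝ)) → v = 0 := by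
    intro v hv
    have h1 : ∀ w ∈ W, inner ℝ w (v : E n) = (0:ℝ) := by
      intro w hw
      induction hw using Submodule.span_induction with
      | mem x hx => obtain ⟨H, rfl⟩ := hx; exact hv H
      | zero => simp
      | add x y _ _ hx hy => rw [inner_add_left, hx, hy, add_zero]
      | smul c x _ hx => rw [real_inner_smul_left, hx, mul_zero]
    have h2 := h1 v v.2
    exact Subtype.ext (inner_self_eq_zero.1 h2)
  have hiso' : ∀ x y : W, Gen N' x → Gen N' y → ∃ g : W ≃ₗᵢ[ℝ] W, g '' Cone N' x = Cone N' y := by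
    intro x y hx hy
    have hx1 : Gen N (x : E n) := hx
    have hy1 : Gen N (y : E n) := hy
    obtain ⟨g, hg⟩ := hiso _ _ (hch _ hx1) (hch _ hy1)
    obtain ⟨g0, hg0⟩ := linear_of_isometry _ _ (hclosed (x : E n)) (hclosed (y : E n))
      (hcone _) (hcone _) g hg
    obtain ⟨g', hg'⟩ := restrict_isometry N (x : E n) (y : E n) hx1 hy1 g0 hg0
    refine ⟨g', ?_⟩
    ext w
    constructor
    · rintro ⟨z, hz, rfl⟩
      have h1 : g0 (z : E n) ∈ Cone N (y : E n) := by
        rw [← hg0]; exact ⟨z, hz, rfl⟩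
      intro H
      have h2 := h1 H
      rw [← hg' z] at h2
      exact h2
    · intro hw
      have h1 : (w : E n) ∈ Cone N (y : E n) := hw
      rw [← hg0] at h1
      obtain ⟨z, hz, hzw⟩ := h1
      have h2 : g0 ((g'.symm w : W) : E n) = w := by
        rw [← hg' (g'.symm w), g'.apply_symm_apply]
      have h3 : z = ((g'.symm w : W) : E n) := g0.injective (hzw.trans h2.symm)
      refine ⟨g'.symm w, ?_, g'.apply_symm_apply w⟩
      intro H
      have := hz H
      rw [h3] at this
      exact this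
  have hess := essential hA' hspan hiso'
  apply coxeter_of_closed A hfin hH
  intro H hHA K hKA
  obtain ⟨L, hL⟩ := hess ⟨H, hHA⟩ ⟨K, hKA⟩
  have hL' : N ⟨K, hKA⟩ - (2 * inner ℝ (N ⟨H, hHA⟩) (N ⟨K, hKA⟩)) • N ⟨H, hHA⟩ = N L ∨
      N ⟨K, hKA⟩ - (2 * inner ℝ (N ⟨H, hHA⟩) (N ⟨K, hKA⟩)) • N ⟨H, hHA⟩ = - N L := by
    rcases hL with h | h
    · left; exact congrArg Subtype.val h
    · right; exact congrArg Subtype.val h
  have hrefl : ∀ x : E n, H.reflection x = x - (2 * inner ℝ (N ⟨H, hHA⟩) x) • N ⟨H, hHA⟩ := by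
    intro x
    have hdec : x - (inner ℝ (N ⟨H, hHA⟩) x) • N ⟨H, hHA⟩ ∈ H := by
      rw [hmem ⟨H, hHA⟩, inner_sub_right, real_inner_smul_right, real_inner_self_eq_norm_sq,
        hunit]
      ring
    have h1 := Submodule.reflection_mem_subspace_eq_self hdec
    have h2 : H.reflection (N ⟨H, hHA⟩) = - N ⟨H, hHA⟩ := refl_nrm (hH H hHA)
    rw [map_sub, map_smul, h2] at h1
    have h3 : H.reflection x = (x - inner ℝ (N ⟨H, hHA⟩) x • N ⟨H, hHA⟩) + inner ℝ (N ⟨H, hHA⟩) x • (-N ⟨H, hHA⟩) := by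
      rw [← h1]; abel
    rw [h3]; module
  have hKL : K.map (H.reflection.toLinearEquiv : E n →ₗ[ℝ] E n) = (L : Submodule ℝ (E n)) := by
    ext y
    rw [hmem L]
    have hzero : inner ℝ (N L) y = (0:ℝ) ↔ inner ℝ (N ⟨K, hKA⟩) (H.reflection y) = (0:ℝ) := by
      have e1 : inner ℝ (N ⟨K, hKA⟩) (H.reflection y) =
          inner ℝ (N ⟨K, hKA⟩ - (2 * inner ℝ (N ⟨H, hHA⟩) (N ⟨K, hKA⟩)) • N ⟨H, hHA⟩) y := by
        rw [hrefl, inner_sub_right, inner_sub_left, real_inner_smul_right, real_inner_smul_left,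
          real_inner_comm (N ⟨H, hHA⟩) (N ⟨K, hKA⟩)]
        ring
      rw [e1]
      rcases hL' with h | h
      · rw [h]
      · rw [h, inner_neg_left, neg_eq_zero]
    rw [hzero, ← hmem ⟨K, hKA⟩]
    constructor
    · rintro ⟨z, hz, rfl⟩
      have : H.reflection (H.reflection z) = z := Submodule.reflection_reflection H z
      simpa [this] using hz
    · intro hy
      refine ⟨H.reflection y, hy, ?_⟩
      simp
  rw [hKL]
  exact L.2

end Pool.Agent.Helper15.Iso
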